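import Pool.Agent.Lib.MP_56c207_gt.Blades

set_option autoImplicit false

namespace Pool.Agent.Lib.MP_56c207_gt

open Set Filter Topology

variable {F : Type} [MetricSpace F] {V : Type}

theorem IsArc.isClosed {A : Set F} {x y : F} (h : IsArc A x y) : IsClosed A := by
  obtain ⟨α, hc, -, -, -, rfl⟩ := h
  exact (isCompact_range hc).isClosed

theorem IsArc.isPreconnected {A : Set F} {x y : F} (h : IsArc A x y) : IsPreconnected A := by
  obtain ⟨α, hc, -, -, -, rfl⟩ := h
  exact isPreconnected_range hc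

theorem IsArc.left_mem {A : Set F} {x y : F} (h : IsArc A x y) : x ∈ A := by
  obtain ⟨α, -, -, rfl, -, rfl⟩ := h
  exact ⟨0, rfl⟩

theorem IsArc.right_mem {A : Set F} {x y : F} (h : IsArc A x y) : y ∈ A := by
  obtain ⟨α, -, -, -, rfl, rfl⟩ := h
  exact ⟨1, rfl⟩

theorem IsArc.ne {A : Set F} {x y : F} (h : IsArc A x y) : x ≠ y := by
  obtain ⟨α, -, hi, rfl, rfl, -⟩ := h
  exact fun h => zero_ne_one (hi h)

namespace Blades

variable (B : Blades F V)

theorem isArc_blade (b : V) : IsArc (range (B.γ b)) B.t (B.γ b 1) :=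
  ⟨B.γ b, B.cont b, B.inj b, B.zero b, rfl, rfl⟩

theorem exists_arc_same (b : V) {s r : unitInterval} (h : s ≠ r) :
    ∃ A, IsArc A (B.γ b s) (B.γ b r) := by
  let m : unitInterval → unitInterval := fun u => ⟨(1 - u) * s + u * r, by
    have := u.2.1; have := u.2.2; have := s.2.1; have := s.2.2; have := r.2.1; have := r.2.2
    constructor <;> nlinarith⟩
  have hm : Continuous m := Continuous.subtype_mk (by fun_prop) _
  have hi : Function.Injective m := by
    intro u v huv
    have h1 : (1 - (u : ℝ)) * s + u * r = (1 - v) * s + v * r := congrArg Subtype.val huv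
    have h2 : ((u : ℝ) - v) * ((r : ℝ) - s) = 0 := by linarith
    rcases mul_eq_zero.1 h2 with h3 | h3
    · exact Subtype.ext (by linarith)
    · exact absurd (Subtype.ext (by linarith)) h
  refine ⟨_, B.γ b ∘ m, (B.cont b).comp hm, (B.inj b).comp hi, ?_, ?_, rfl⟩
  · simp only [Function.comp, m]
    congr 1
    apply Subtype.ext
    simp
  · simp only [Function.comp, m]
    congr 1
    apply Subtype.ext
    simp

theorem exists_arc_diff {b c : V} (hbc : b ≠ c) {s r : unitInterval} (hs : s ≠ 0) :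
    ∃ A, IsArc A (B.γ b s) (B.γ c r) := by
  have hs0 : (0 : ℝ) < s := lt_of_le_of_ne s.2.1 (fun h => hs (Subtype.ext h.symm))
  have hr0 : (0 : ℝ) ≤ r := r.2.1
  let β : ℝ → F := fun w =>
    if w ≤ 0 then B.γ b (projIcc 0 1 zero_le_one (-w)) else B.γ c (projIcc 0 1 zero_le_one w)
  have hβ : Continuous β := by
    refine Continuous.if_le ((B.cont b).comp (continuous_projIcc.comp continuous_neg))
      ((B.cont c).comp continuous_projIcc) continuous_id continuous_const ?_
    rintro w rfl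
    simp only [neg_zero, projIcc_left]
    exact (B.zero b).trans (B.zero c).symm
  have hβ1 : ∀ w (h0 : w ≤ 0) (h1 : -1 ≤ w), β w = B.γ b ⟨-w, by constructor <;> linarith⟩ := by
    intro w h0 h1
    simp only [β, if_pos h0]
    exact congrArg _ (projIcc_of_mem _ (by constructor <;> linarith))
  have hβ2 : ∀ w (h0 : 0 < w) (h1 : w ≤ 1), β w = B.γ c ⟨w, by constructor <;> linarith⟩ := by
    intro w h0 h1
    simp only [β, if_neg (not_le.2 h0)]
    exact congrArg _ (projIcc_of_mem _ (by constructor <;> linarith))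
  have hβi : ∀ w w', -1 ≤ w → w ≤ 1 → -1 ≤ w' → w' ≤ 1 → β w = β w' → w = w' := by
    intro w w' a1 a2 a3 a4 h
    rcases le_or_gt w 0 with h0 | h0 <;> rcases le_or_gt w' 0 with h0' | h0'
    · rw [hβ1 w h0 a1, hβ1 w' h0' a3] at h
      have : -w = -w' := congrArg Subtype.val (B.inj b h)
      linarith
    · rw [hβ1 w h0 a1, hβ2 w' h0' a4] at h
      rcases B.disj _ _ _ _ h.symm with h1 | h1
      · exact absurd h1.symm hbc
      · have : w' = 0 := congrArg Subtype.val h1
        linarith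
    · rw [hβ2 w h0 a2, hβ1 w' h0' a3] at h
      rcases B.disj _ _ _ _ h with h1 | h1
      · exact absurd h1.symm hbc
      · have : w = 0 := congrArg Subtype.val h1
        linarith
    · rw [hβ2 w h0 a2, hβ2 w' h0' a4] at h
      exact congrArg Subtype.val (B.inj c h)
  have hb1 : ∀ u : unitInterval, -1 ≤ -(s : ℝ) + u * (s + r) := fun u => by
    have := u.2.1; have := s.2.2
    nlinarith
  have hb2 : ∀ u : unitInterval, -(s : ℝ) + u * (s + r) ≤ 1 := fun u => by
    have := u.2.2; have := r.2.2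
    nlinarith
  refine ⟨_, fun u => β (-(s : ℝ) + u * (s + r)), hβ.comp (by fun_prop), ?_, ?_, ?_, rfl⟩
  · intro u v huv
    have h1 := hβi _ _ (hb1 u) (hb2 u) (hb1 v) (hb2 v) huv
    have h2 : ((u : ℝ) - v) * ((s : ℝ) + r) = 0 := by linarith
    rcases mul_eq_zero.1 h2 with h3 | h3
    · exact Subtype.ext (by linarith)
    · linarith
  · have : -(s : ℝ) + ((0 : unitInterval) : ℝ) * (s + r) = -s := by simp
    simp only [this]
    rw [hβ1 _ (by linarith) (by linarith [s.2.2])]
    congr 1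
    apply Subtype.ext
    simp
  · have : -(s : ℝ) + ((1 : unitInterval) : ℝ) * (s + r) = r := by simp
    simp only [this]
    rcases hr0.lt_or_eq with h | h
    · rw [hβ2 _ h r.2.2]
    · have h2 : r = 0 := Subtype.ext h.symm
      subst h2
      rw [hβ1 _ h.ge (by linarith), B.zero c, B.eq_t_iff]
      apply Subtype.ext
      simp

include B in
theorem exists_arc {x y : F} (h : x ≠ y) : ∃ A, IsArc A x y := by
  obtain ⟨b, s, rfl⟩ := B.cover x
  obtain ⟨c, r, rfl⟩ := B.cover y
  by_cases hbc : b = c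
  · subst hbc
    exact B.exists_arc_same b (fun hs => h (hs ▸ rfl))
  · by_cases hs : s = 0
    · subst hs
      rw [B.zero b, ← B.zero c] at h ⊢
      exact B.exists_arc_same c (fun hs => h (hs ▸ rfl))
    · exact B.exists_arc_diff hbc hs

theorem arc_from_top [CompactSpace F] {A : Set F} {b : V} {s : unitInterval}
    (h : IsArc A B.t (B.γ b s)) : A = B.γ b '' Iic s := by
  have h1 : B.γ b '' Iic s ⊆ A := by
    rintro _ ⟨r, hr, rfl⟩
    exact B.convex h.isClosed h.isPreconnected (B.zero b ▸ h.left_mem) h.right_mem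
      unitInterval.nonneg' hr
  obtain ⟨α, hc, hi, h0, h1', rfl⟩ := h
  refine (arc_eq_of_preconnected hc hi (B.preconnected_image b ordConnected_Iic) h1 ?_ ?_).symm
  · rw [h0]; exact ⟨0, unitInterval.nonneg', B.zero b⟩
  · rw [h1']; exact ⟨s, mem_Iic.2 le_rfl, rfl⟩

theorem seg_top [CompactSpace F] (b : V) (s : unitInterval) :
    seg B.t (B.γ b s) = B.γ b '' Iic s := by
  ext z
  constructor
  · rintro (rfl | ⟨A, hA, hz⟩)
    · exact ⟨0, unitInterval.nonneg', B.zero b⟩
    · rwa [B.arc_from_top hA] at hz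
  · rintro ⟨r, hr, rfl⟩
    by_cases hs : s = 0
    · left
      rw [B.eq_t_iff]
      subst hs
      exact le_antisymm hr unitInterval.nonneg'
    · right
      obtain ⟨A, hA⟩ := B.exists_arc (x := B.t) (y := B.γ b s)
        (fun h => hs ((B.eq_t_iff b s).1 h.symm))
      refine ⟨A, hA, ?_⟩
      rw [B.arc_from_top hA]
      exact ⟨r, hr, rfl⟩

theorem seg_top_one [CompactSpace F] (b : V) : seg B.t (B.γ b 1) = range (B.γ b) := by
  rw [B.seg_top, ← image_univ]
  congr 1
  exact eq_univ_of_forall fun s => unitInterval.le_one'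

include B in
theorem isDendroid [CompactSpace F] : IsDendroid F := by
  refine ⟨inferInstance, ?_, fun x y h => B.exists_arc h, ?_⟩
  · have : PreconnectedSpace F := ⟨isPreconnected_of_forall B.t fun y _ => by
      obtain ⟨b, s, rfl⟩ := B.cover y
      exact ⟨range (B.γ b), subset_univ _, ⟨0, B.zero b⟩, ⟨s, rfl⟩,
        isPreconnected_range (B.cont b)⟩⟩
    exact ⟨⟨B.t⟩⟩
  · rintro K A A' hK hA hA' rfl
    refine ⟨?_, B.inter_preconnected hA.1.isClosed hA.2.isPreconnected hA'.1.isClosed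
      hA'.2.isPreconnected⟩
    obtain ⟨a, ha⟩ := hA.2.nonempty
    obtain ⟨a', ha'⟩ := hA'.2.nonempty
    obtain ⟨z, -, hz⟩ := isPreconnected_closed_iff.1 hK.2.isPreconnected A A' hA.1.isClosed
      hA'.1.isClosed subset_rfl ⟨a, Or.inl ha, ha⟩ ⟨a', Or.inr ha', ha'⟩
    exact ⟨z, hz⟩

theorem side [CompactSpace F] {K : Set F} (hK : IsClosed K) (hc : IsPreconnected K) {b : V}
    {s : unitInterval} (hs : s ≠ 0) (h1 : B.γ b s ∈ K) {y : F} (hy : y ∈ K) (hne : y ≠ B.γ b s) :
    (∃ r, r < s ∧ B.γ b r ∈ K) ∨ (∃ r, s < r ∧ B.γ b r ∈ K) := by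
  by_cases ht : B.t ∈ K
  · exact Or.inl ⟨0, lt_of_le_of_ne unitInterval.nonneg' (Ne.symm hs), B.zero b ▸ ht⟩
  · obtain ⟨r, rfl⟩ := B.subset_blade hK hc ht h1 hy
    rcases lt_trichotomy r s with h | h | h
    · exact Or.inl ⟨r, h, hy⟩
    · exact absurd (h ▸ rfl) hne
    · exact Or.inr ⟨r, h, hy⟩

theorem isEndpoint_iff [CompactSpace F] (e : F) : IsEndpoint e ↔ ∃ b, e = B.γ b 1 := by
  constructor
  · intro he
    obtain ⟨b, s, rfl⟩ := B.cover e
    by_cases hs : s = 0
    · exfalso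
      subst hs
      rw [B.zero b] at he
      obtain ⟨y, hy⟩ := B.three
      have h01 : y 0 ≠ y 1 := fun h => absurd (hy h) (by decide)
      obtain ⟨A, hA⟩ := B.exists_arc_diff h01 (s := 1) (r := 1) one_ne_zero
      have ht : B.t ∈ A := by
        by_contra ht
        obtain ⟨r, hr⟩ := B.subset_blade hA.isClosed hA.isPreconnected ht hA.left_mem hA.right_mem
        rcases B.disj _ _ _ _ hr.symm with h | h
        · exact h01 h.symm
        · exact one_ne_zero h
      rcases he A _ _ hA ht with h | h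
      · exact one_ne_zero ((B.eq_t_iff _ _).1 h.symm)
      · exact one_ne_zero ((B.eq_t_iff _ _).1 h.symm)
    · rcases he _ _ _ (B.isArc_blade b) ⟨s, rfl⟩ with h | h
      · exact absurd ((B.eq_t_iff _ _).1 h) hs
      · exact ⟨b, h⟩
  · rintro ⟨b, rfl⟩ A x y ⟨α, hc, hi, rfl, rfl, rfl⟩ ⟨u, hu⟩
    by_contra hne
    push Not at hne
    have k1 : IsClosed (α '' Iic u) := ((isClosed_Iic.isCompact).image hc).isClosed
    have k2 : IsClosed (α '' Ici u) := ((isClosed_Ici.isCompact).image hc).isClosed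
    have c1 : IsPreconnected (α '' Iic u) := isPreconnected_Iic.image _ hc.continuousOn
    have c2 : IsPreconnected (α '' Ici u) := isPreconnected_Ici.image _ hc.continuousOn
    have m1 : B.γ b 1 ∈ α '' Iic u := ⟨u, mem_Iic.2 le_rfl, hu⟩
    have m2 : B.γ b 1 ∈ α '' Ici u := ⟨u, mem_Ici.2 le_rfl, hu⟩
    rcases B.side k1 c1 one_ne_zero m1 ⟨0, unitInterval.nonneg', rfl⟩ hne.1.symm with
      ⟨r₁, hr₁, hm₁⟩ | ⟨r, hr, -⟩
    · rcases B.side k2 c2 one_ne_zero m2 ⟨1, unitInterval.le_one', rfl⟩ hne.2.symm with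
        ⟨r₂, hr₂, hm₂⟩ | ⟨r, hr, -⟩
      · obtain ⟨v₁, hv₁, e₁⟩ := B.convex k1 c1 hm₁ m1 (le_max_left r₁ r₂) unitInterval.le_one'
        obtain ⟨v₂, hv₂, e₂⟩ := B.convex k2 c2 hm₂ m2 (le_max_right r₁ r₂) unitInterval.le_one'
        have h3 : v₁ = v₂ := hi (e₁.trans e₂.symm)
        have h4 : v₁ = u := le_antisymm hv₁ (h3 ▸ hv₂)
        rw [h4, hu] at e₁
        exact (max_lt hr₁ hr₂).ne (B.inj b e₁).symm
      · exact absurd hr (not_lt.2 unitInterval.le_one')
    · exact absurd hr (not_lt.2 unitInterval.le_one')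

theorem ramification_iff [CompactSpace F] (x : F) : IsRamificationPoint x ↔ x = B.t := by
  constructor
  · rintro ⟨A, y, hA, hd⟩
    obtain ⟨b, s, rfl⟩ := B.cover x
    by_contra hne
    have hs : s ≠ 0 := fun h => hne ((B.eq_t_iff b s).2 h)
    have hside := fun i => B.side (hA i).isClosed (hA i).isPreconnected hs (hA i).left_mem
      (hA i).right_mem (hA i).ne.symm
    have lo : ∀ i j, i ≠ j → (∃ r, r < s ∧ B.γ b r ∈ A i) → (∃ r, r < s ∧ B.γ b r ∈ A j) →
        False := by
      rintro i j hij ⟨r₁, hr₁, hm₁⟩ ⟨r₂, hr₂, hm₂⟩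
      have h1 : B.γ b (max r₁ r₂) ∈ A i ∩ A j :=
        ⟨B.convex (hA i).isClosed (hA i).isPreconnected hm₁ (hA i).left_mem (le_max_left _ _)
          (max_lt hr₁ hr₂).le,
        B.convex (hA j).isClosed (hA j).isPreconnected hm₂ (hA j).left_mem (le_max_right _ _)
          (max_lt hr₁ hr₂).le⟩
      rw [hd i j hij] at h1
      exact (max_lt hr₁ hr₂).ne (B.inj b h1)
    have hi : ∀ i j, i ≠ j → (∃ r, s < r ∧ B.γ b r ∈ A i) → (∃ r, s < r ∧ B.γ b r ∈ A j) →
        False := by
      rintro i j hij ⟨r₁, hr₁, hm₁⟩ ⟨r₂, hr₂, hm₂⟩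
      have h1 : B.γ b (min r₁ r₂) ∈ A i ∩ A j :=
        ⟨B.convex (hA i).isClosed (hA i).isPreconnected (hA i).left_mem hm₁
          (lt_min hr₁ hr₂).le (min_le_left _ _),
        B.convex (hA j).isClosed (hA j).isPreconnected (hA j).left_mem hm₂
          (lt_min hr₁ hr₂).le (min_le_right _ _)⟩
      rw [hd i j hij] at h1
      exact (lt_min hr₁ hr₂).ne' (B.inj b h1)
    rcases hside 0 with h0 | h0 <;> rcases hside 1 with h1 | h1 <;> rcases hside 2 with h2 | h2
    · exact lo 0 1 (by decide) h0 h1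
    · exact lo 0 1 (by decide) h0 h1
    · exact lo 0 2 (by decide) h0 h2
    · exact hi 1 2 (by decide) h1 h2
    · exact lo 1 2 (by decide) h1 h2
    · exact hi 0 2 (by decide) h0 h2
    · exact hi 0 1 (by decide) h0 h1
    · exact hi 0 1 (by decide) h0 h1
  · rintro rfl
    obtain ⟨y, hy⟩ := B.three
    refine ⟨fun i => range (B.γ (y i)), fun i => B.γ (y i) 1, fun i => B.isArc_blade _, ?_⟩
    intro i j hij
    ext z
    constructor
    · rintro ⟨⟨s, rfl⟩, ⟨r, hr⟩⟩
      rcases B.disj _ _ _ _ hr.symm with h | h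
      · exact absurd (hy h) hij
      · rw [h]; exact B.zero _
    · rintro rfl
      exact ⟨⟨0, B.zero _⟩, ⟨0, B.zero _⟩⟩

theorem isFan [CompactSpace F] : IsFan F B.t := ⟨B.isDendroid, B.ramification_iff⟩

end Blades

end Pool.Agent.Lib.MP_56c207_gt
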