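import Pool.Agent.Lib.MP_56c207_gt.Defs

set_option autoImplicit false

namespace Pool.Agent.Lib.MP_56c207_gt

open Set Filter Topology

/-- A compact space presented as a union of arcs glued at one point. -/
structure Blades (F : Type) [MetricSpace F] (V : Type) where
  t : F
  γ : V → unitInterval → F
  ht : V → F → ℝ
  cont : ∀ b, Continuous (γ b)
  zero : ∀ b, γ b 0 = t
  ht_cont : ∀ b, Continuous (ht b)
  ht_γ : ∀ b s, ht b (γ b s) = s
  cover : ∀ x, ∃ b s, x = γ b s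
  disj : ∀ b c s r, γ b s = γ c r → b = c ∨ s = 0
  sep : ∀ b c, b ≠ c → ∃ C : Set V, b ∈ C ∧ c ∉ C ∧ IsClosed (⋃ a ∈ C, range (γ a)) ∧
    IsClosed (⋃ a ∈ Cᶜ, range (γ a))
  closed_le : IsClosed {p : F × F | ∃ b s s', s ≤ s' ∧ p.1 = γ b s ∧ p.2 = γ b s'}
  three : ∃ y : Fin 3 → V, Function.Injective y

variable {F : Type} [MetricSpace F] {V : Type}

theorem arc_eq_of_preconnected {α : unitInterval → F} (hc : Continuous α)
    (hi : Function.Injective α) {J : Set F} (hJ : IsPreconnected J) (hsub : J ⊆ range α)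
    (h0 : α 0 ∈ J) (h1 : α 1 ∈ J) : J = range α := by
  have hind : IsInducing α := (hc.isClosedEmbedding hi).isInducing
  have h2 : α '' (α ⁻¹' J) = J := image_preimage_eq_of_subset hsub
  have h3 : IsPreconnected (α ⁻¹' J) := hind.isPreconnected_image.1 (h2.symm ▸ hJ)
  refine subset_antisymm hsub ?_
  rintro _ ⟨u, rfl⟩
  exact h3.ordConnected.out h0 h1 ⟨u.2.1, u.2.2⟩

namespace Blades

variable (B : Blades F V)

theorem inj (b : V) : Function.Injective (B.γ b) := by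
  intro s r h
  have := congrArg (B.ht b) h
  rw [B.ht_γ, B.ht_γ] at this
  exact Subtype.ext this

theorem ht_t (b : V) : B.ht b B.t = 0 := by
  rw [← B.zero b, B.ht_γ]; rfl

theorem eq_t_iff (b : V) (s : unitInterval) : B.γ b s = B.t ↔ s = 0 := by
  constructor
  · intro h
    exact B.inj b (h.trans (B.zero b).symm)
  · rintro rfl; exact B.zero b

theorem exists_sep [CompactSpace F] (b : V) {S : Set F} (hS : IsCompact S)
    (hd : ∀ z ∈ S, z ∉ range (B.γ b)) :
    ∃ P Q : Set F, IsClosed P ∧ IsClosed Q ∧ P ∪ Q = univ ∧ P ∩ Q ⊆ {B.t} ∧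
      range (B.γ b) ⊆ P ∧ Disjoint S P := by
  refine hS.induction_on (p := fun S => ∃ P Q : Set F, IsClosed P ∧ IsClosed Q ∧ P ∪ Q = univ ∧
    P ∩ Q ⊆ {B.t} ∧ range (B.γ b) ⊆ P ∧ Disjoint S P) ?_ ?_ ?_ ?_
  · exact ⟨univ, ∅, isClosed_univ, isClosed_empty, by simp, by simp, subset_univ _, by simp⟩
  · rintro s s' hss ⟨P, Q, h1, h2, h3, h4, h5, h6⟩
    exact ⟨P, Q, h1, h2, h3, h4, h5, h6.mono_left hss⟩
  · rintro s s' ⟨P, Q, h1, h2, h3, h4, h5, h6⟩ ⟨P', Q', h1', h2', h3', h4', h5', h6'⟩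
    refine ⟨P ∩ P', Q ∪ Q', h1.inter h1', h2.union h2', ?_, ?_, subset_inter h5 h5', ?_⟩
    · rw [eq_univ_iff_forall] at h3 h3' ⊢
      intro x
      have := h3 x
      have := h3' x
      simp only [mem_union, mem_inter_iff] at *
      tauto
    · rintro x ⟨⟨a1, a2⟩, a3 | a3⟩
      · exact h4 ⟨a1, a3⟩
      · exact h4' ⟨a2, a3⟩
    · exact disjoint_union_left.2 ⟨h6.mono_right inter_subset_left,
        h6'.mono_right inter_subset_right⟩
  · intro z hz
    obtain ⟨c, r, rfl⟩ := B.cover z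
    have hbc : b ≠ c := by
      rintro rfl
      exact hd _ hz ⟨r, rfl⟩
    have hr : r ≠ 0 := by
      rintro rfl
      exact hd _ hz ⟨0, (B.zero b).trans (B.zero c).symm⟩
    obtain ⟨C, hb, hc, h1, h2⟩ := B.sep b c hbc
    refine ⟨(⋃ a ∈ C, range (B.γ a))ᶜ, mem_nhdsWithin_of_mem_nhds (h1.isOpen_compl.mem_nhds ?_),
      _, _, h1, h2, ?_, ?_, ?_, disjoint_compl_left⟩
    · simp only [mem_compl_iff, mem_iUnion, mem_range, not_exists]
      intro a ha s hs
      rcases B.disj c a r s hs.symm with h | h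
      · exact hc (h ▸ ha)
      · exact hr h
    · rw [eq_univ_iff_forall]
      intro x
      obtain ⟨a, s, rfl⟩ := B.cover x
      by_cases ha : a ∈ C
      · exact Or.inl (mem_biUnion ha ⟨s, rfl⟩)
      · exact Or.inr (mem_biUnion (show a ∈ Cᶜ from ha) ⟨s, rfl⟩)
    · rintro x ⟨hx1, hx2⟩
      simp only [mem_iUnion, mem_range] at hx1 hx2
      obtain ⟨a, ha, s, rfl⟩ := hx1
      obtain ⟨a', ha', s', hs'⟩ := hx2
      rcases B.disj a a' s s' hs'.symm with h | h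
      · exact absurd (h ▸ ha) ha'
      · rw [h]; exact B.zero a
    · exact subset_biUnion_of_mem (u := fun a => range (B.γ a)) hb

theorem cut [CompactSpace F] {K : Set F} (hK : IsClosed K) (hc : IsPreconnected K) {b : V}
    {s s' : unitInterval} (h0 : 0 < s') (hs : s' < s) (h1 : B.γ b s' ∉ K) (h2 : B.γ b s ∈ K) :
    K ⊆ B.γ b '' Ioi s' := by
  intro y hy
  by_contra hny
  have hcl : IsClosed (range (B.γ b)) := (isCompact_range (B.cont b)).isClosed
  let Z : Set F := K ∩ {z | B.ht b z = s'}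
  have hZ : IsClosed Z := hK.inter (isClosed_eq (B.ht_cont b) continuous_const)
  have hZd : ∀ z ∈ Z, z ∉ range (B.γ b) := by
    rintro _ ⟨hz1, hz2⟩ ⟨r, rfl⟩
    have : r = s' := Subtype.ext ((B.ht_γ b r).symm.trans hz2)
    exact h1 (this ▸ hz1)
  have hs'0 : (0 : ℝ) < s' := h0
  have key : ∀ P Q : Set F, IsClosed P → IsClosed Q → P ∪ Q = univ → P ∩ Q ⊆ {B.t} →
      range (B.γ b) ⊆ P → Disjoint Z P → y ∈ Q ∪ {z | B.ht b z ≤ s'} → False := by
    intro P Q hP hQ hPQ hPQ' hr hZP hyQ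
    have := (isPreconnected_closed_iff.1 hc) (P ∩ {z | (s' : ℝ) ≤ B.ht b z})
      (Q ∪ {z | B.ht b z ≤ s'}) (hP.inter (isClosed_le continuous_const (B.ht_cont b)))
      (hQ.union (isClosed_le (B.ht_cont b) continuous_const)) ?_ ⟨B.γ b s, h2, hr ⟨s, rfl⟩, ?_⟩
      ⟨y, hy, hyQ⟩
    · obtain ⟨z, hz, ⟨hz1, hz2⟩, hz3 | hz3⟩ := this
      · have : z = B.t := hPQ' ⟨hz1, hz3⟩
        rw [this] at hz2
        have hz2' : (s' : ℝ) ≤ B.ht b B.t := hz2
        rw [B.ht_t] at hz2'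
        linarith
      · exact (disjoint_left.1 hZP) ⟨hz, le_antisymm hz3 hz2⟩ hz1
    · intro z _
      have hz : z ∈ P ∪ Q := hPQ ▸ mem_univ z
      rcases hz with hz | hz
      · rcases le_total (s' : ℝ) (B.ht b z) with h | h
        · exact Or.inl ⟨hz, h⟩
        · exact Or.inr (Or.inr h)
      · exact Or.inr (Or.inl hz)
    · change (s' : ℝ) ≤ B.ht b (B.γ b s)
      rw [B.ht_γ]
      exact hs.le
  by_cases hyb : y ∈ range (B.γ b)
  · obtain ⟨P, Q, hP, hQ, hPQ, hPQ', hr, hZP⟩ := B.exists_sep b hZ.isCompact hZd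
    refine key P Q hP hQ hPQ hPQ' hr hZP (Or.inr ?_)
    obtain ⟨r, rfl⟩ := hyb
    change B.ht b (B.γ b r) ≤ s'
    rw [B.ht_γ]
    by_contra hlt
    exact hny ⟨r, not_le.1 hlt, rfl⟩
  · obtain ⟨P, Q, hP, hQ, hPQ, hPQ', hr, hZP⟩ := B.exists_sep b
      (hZ.isCompact.union (isCompact_singleton (x := y))) (by
        rintro z (hz | hz)
        · exact hZd z hz
        · rw [hz]; exact hyb)
    refine key P Q hP hQ hPQ hPQ' hr (hZP.mono_left subset_union_left) (Or.inl ?_)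
    have hz : y ∈ P ∪ Q := hPQ ▸ mem_univ y
    rcases hz with hz | hz
    · exact absurd hz ((disjoint_left.1 hZP) (Or.inr rfl))
    · exact hz

theorem convex [CompactSpace F] {K : Set F} (hK : IsClosed K) (hc : IsPreconnected K) {b : V}
    {s₁ s s₂ : unitInterval} (h1 : B.γ b s₁ ∈ K) (h2 : B.γ b s₂ ∈ K) (hs1 : s₁ ≤ s)
    (hs2 : s ≤ s₂) : B.γ b s ∈ K := by
  by_contra hs
  have a1 : s₁ < s := lt_of_le_of_ne hs1 (by rintro rfl; exact hs h1)
  have a2 : s < s₂ := lt_of_le_of_ne hs2 (by rintro rfl; exact hs h2)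
  obtain ⟨r, hr, hr'⟩ := B.cut hK hc (lt_of_le_of_lt (unitInterval.nonneg' (t := s₁)) a1) a2 hs h2 h1
  rw [B.inj b hr'] at hr
  exact lt_asymm a1 hr

theorem subset_blade [CompactSpace F] {K : Set F} (hK : IsClosed K) (hc : IsPreconnected K)
    (ht : B.t ∉ K) {b : V} {s : unitInterval} (h2 : B.γ b s ∈ K) : K ⊆ range (B.γ b) := by
  have hs : 0 < s := by
    refine lt_of_le_of_ne unitInterval.nonneg' ?_
    rintro rfl
    exact ht (B.zero b ▸ h2)
  have h1 : (B.γ b) ⁻¹' Kᶜ ∈ 𝓝 (0 : unitInterval) :=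
    (B.cont b).continuousAt.preimage_mem_nhds (by
      rw [B.zero b]; exact hK.isOpen_compl.mem_nhds ht)
  obtain ⟨u, hu, hsub⟩ := exists_Ico_subset_of_mem_nhds' h1 hs
  obtain ⟨r, hr0, hru⟩ := exists_between hu.1
  exact (B.cut hK hc hr0 (hru.trans_le hu.2) (hsub ⟨hr0.le, hru⟩) h2).trans (image_subset_range _ _)

theorem preconnected_image (b : V) {S : Set unitInterval} (hS : S.OrdConnected) :
    IsPreconnected (B.γ b '' S) :=
  hS.isPreconnected.image _ (B.cont b).continuousOn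

theorem inter_aux [CompactSpace F] {A A' : Set F} (hA : IsClosed A) (hc : IsPreconnected A)
    (hA' : IsClosed A') (hc' : IsPreconnected A') (ht : B.t ∉ A) : IsPreconnected (A ∩ A') := by
  rcases A.eq_empty_or_nonempty with rfl | ⟨x, hx⟩
  · simpa using isPreconnected_empty
  obtain ⟨b, s, rfl⟩ := B.cover x
  have h1 := B.subset_blade hA hc ht hx
  have h2 : A ∩ A' = B.γ b '' ((B.γ b) ⁻¹' (A ∩ A')) :=
    (image_preimage_eq_of_subset (inter_subset_left.trans h1)).symm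
  rw [h2]
  exact B.preconnected_image b ⟨fun s₁ h₁ s₂ h₂ r hr =>
    ⟨B.convex hA hc h₁.1 h₂.1 hr.1 hr.2, B.convex hA' hc' h₁.2 h₂.2 hr.1 hr.2⟩⟩

include B in
theorem inter_preconnected [CompactSpace F] {A A' : Set F} (hA : IsClosed A)
    (hc : IsPreconnected A) (hA' : IsClosed A') (hc' : IsPreconnected A') :
    IsPreconnected (A ∩ A') := by
  by_cases ht : B.t ∈ A
  · by_cases ht' : B.t ∈ A'
    · refine isPreconnected_of_forall B.t fun y hy => ?_
      obtain ⟨b, s, rfl⟩ := B.cover y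
      refine ⟨B.γ b '' Icc 0 s, ?_, ⟨0, ⟨le_rfl, unitInterval.nonneg'⟩, B.zero b⟩,
        ⟨s, ⟨unitInterval.nonneg', le_rfl⟩, rfl⟩, B.preconnected_image b ordConnected_Icc⟩
      rintro _ ⟨r, hr, rfl⟩
      exact ⟨B.convex hA hc (B.zero b ▸ ht) hy.1 hr.1 hr.2,
        B.convex hA' hc' (B.zero b ▸ ht') hy.2 hr.1 hr.2⟩
    · rw [inter_comm]
      exact B.inter_aux hA' hc' hA hc ht'
  · exact B.inter_aux hA hc hA' hc' ht

end Blades

end Pool.Agent.Lib.MP_56c207_gt
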