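import Pool.Agent.Lib.MP_56c207_gt.Smooth

set_option autoImplicit false

namespace Pool.Agent.Lib.MP_56c207_gt.Cl

open Set Filter Topology Metric

/-- A smooth fan with top `t`. -/
structure SF (F : Type) [MetricSpace F] (t : F) : Prop where
  fan : IsFan F t
  smooth : IsSmooth F t

variable {F : Type} [MetricSpace F] {t : F}

theorem top_mem (x : F) : t ∈ seg t x := Or.inl rfl

theorem seg_top : seg t t = {t} := by
  ext z
  refine ⟨?_, fun h => Or.inl h⟩
  rintro (h | ⟨A, hA, -⟩)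
  · exact h
  · exact absurd rfl hA.ne

theorem IsArc.isCompact' {A : Set F} {x y : F} (h : IsArc A x y) : IsCompact A := by
  obtain ⟨α, hc, -, -, -, rfl⟩ := h
  exact isCompact_range hc

namespace SF

variable (h : SF F t)
include h

theorem compact : CompactSpace F := h.fan.1.1

theorem inter_conn {A C : Set F} (hA : IsCompact A) (ha : IsPreconnected A) (hC : IsCompact C)
    (hc : IsPreconnected C) {x : F} (h1 : x ∈ A) (h2 : x ∈ C) : IsPreconnected (A ∩ C) :=
  (h.fan.1.2.2.2 (A ∪ C) A C ⟨hA.union hC, ⟨x, Or.inl h1⟩, ha.union x h1 h2 hc⟩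
    ⟨hA, ⟨x, h1⟩, ha⟩ ⟨hC, ⟨x, h2⟩, hc⟩ rfl).isPreconnected

theorem arc_sub {A C : Set F} {x y : F} (hA : IsArc A x y) (hC : IsCompact C)
    (hc : IsPreconnected C) (hx : x ∈ C) (hy : y ∈ C) : A ⊆ C := by
  have h1 := h.inter_conn (IsArc.isCompact' hA) hA.isPreconnected hC hc hA.left_mem hx
  obtain ⟨α, hα, hi, rfl, rfl, rfl⟩ := hA
  have := arc_eq_of_preconnected hα hi h1 inter_subset_left ⟨⟨0, rfl⟩, hx⟩ ⟨⟨1, rfl⟩, hy⟩
  exact this ▸ inter_subset_right

theorem seg_eq {A : Set F} {x : F} (hA : IsArc A t x) : seg t x = A := by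
  ext z
  refine ⟨?_, fun hz => Or.inr ⟨A, hA, hz⟩⟩
  rintro (rfl | ⟨B, hB, hz⟩)
  · exact hA.left_mem
  · exact h.arc_sub hB (IsArc.isCompact' hA) hA.isPreconnected hA.left_mem hA.right_mem hz

theorem isArc_seg {x : F} (hx : x ≠ t) : IsArc (seg t x) t x := by
  obtain ⟨A, hA⟩ := h.fan.1.2.2.1 t x hx.symm
  rwa [h.seg_eq hA]

theorem seg_compact (x : F) : IsCompact (seg t x) := by
  by_cases hx : x = t
  · rw [hx, seg_top]; exact isCompact_singleton
  · exact IsArc.isCompact' (h.isArc_seg hx)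

theorem seg_conn (x : F) : IsPreconnected (seg t x) := by
  by_cases hx : x = t
  · rw [hx, seg_top]; exact isPreconnected_singleton
  · exact (h.isArc_seg hx).isPreconnected

theorem self_mem (x : F) : x ∈ seg t x := by
  by_cases hx : x = t
  · exact Or.inl hx
  · exact (h.isArc_seg hx).right_mem

theorem seg_min {C : Set F} {x : F} (hC : IsCompact C) (hc : IsPreconnected C) (ht : t ∈ C)
    (hx : x ∈ C) : seg t x ⊆ C := by
  by_cases hx' : x = t
  · rw [hx', seg_top]; exact singleton_subset_iff.2 ht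
  · exact h.arc_sub (h.isArc_seg hx') hC hc ht hx

theorem trans {x y z : F} (h1 : x ∈ seg t y) (h2 : y ∈ seg t z) : x ∈ seg t z :=
  h.seg_min (h.seg_compact z) (h.seg_conn z) (top_mem z) h2 h1

theorem seg_param {α : unitInterval → F} (hc : Continuous α) (hi : Function.Injective α)
    (h0 : α 0 = t) (s : unitInterval) : seg t (α s) = α '' Iic s := by
  have h1 : seg t (α s) ⊆ α '' Iic s :=
    h.seg_min (isClosed_Iic.isCompact.image hc) (isPreconnected_Iic.image _ hc.continuousOn)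
      ⟨0, unitInterval.nonneg', h0⟩ ⟨s, mem_Iic.2 le_rfl, rfl⟩
  refine subset_antisymm h1 ?_
  have hind : IsInducing α := (hc.isClosedEmbedding hi).isInducing
  have h2 : α '' (α ⁻¹' seg t (α s)) = seg t (α s) :=
    image_preimage_eq_of_subset (h1.trans (image_subset_range _ _))
  have h3 : IsPreconnected (α ⁻¹' seg t (α s)) :=
    hind.isPreconnected_image.1 (h2.symm ▸ h.seg_conn _)
  rintro _ ⟨u, hu, rfl⟩
  exact h3.ordConnected.out (x := 0) (y := s) (by rw [mem_preimage, h0]; exact top_mem _)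
    (h.self_mem _) ⟨unitInterval.nonneg', hu⟩

theorem antisymm {x y : F} (h1 : x ∈ seg t y) (h2 : y ∈ seg t x) : x = y := by
  by_cases hy : y = t
  · rw [hy, seg_top] at h1; rw [h1, hy]
  obtain ⟨α, hc, hi, h0, rfl, hr⟩ := h.isArc_seg hy
  rw [← hr] at h1
  obtain ⟨s, rfl⟩ := h1
  rw [h.seg_param hc hi h0] at h2
  obtain ⟨u, hu, he⟩ := h2
  rw [hi he] at hu
  rw [le_antisymm unitInterval.le_one' hu]

theorem total {x y z : F} (h1 : x ∈ seg t z) (h2 : y ∈ seg t z) : x ∈ seg t y ∨ y ∈ seg t x := by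
  by_cases hz : z = t
  · rw [hz, seg_top] at h1; exact Or.inl (Or.inl h1)
  obtain ⟨α, hc, hi, h0, rfl, hr⟩ := h.isArc_seg hz
  rw [← hr] at h1 h2
  obtain ⟨s, rfl⟩ := h1
  obtain ⟨r, rfl⟩ := h2
  rw [h.seg_param hc hi h0, h.seg_param hc hi h0]
  rcases le_total s r with h3 | h3
  · exact Or.inl ⟨s, h3, rfl⟩
  · exact Or.inr ⟨r, h3, rfl⟩

theorem infDist_le (q x y : F) :
    infDist q (seg t x) ≤ infDist q (seg t y) + hausdorffDist (seg t y) (seg t x) :=
  infDist_le_infDist_add_hausdorffDist (hausdorffEDist_ne_top_of_nonempty_of_bounded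
    ⟨t, top_mem _⟩ ⟨t, top_mem _⟩ (h.seg_compact _).isBounded (h.seg_compact _).isBounded)

theorem cont_infDist (q : F) : Continuous fun x => infDist q (seg t x) := by
  refine continuous_iff_seqContinuous.2 fun x a hx => ?_
  rw [tendsto_iff_dist_tendsto_zero]
  refine squeeze_zero (fun _ => dist_nonneg) (fun n => ?_) (h.smooth x a hx)
  have h1 := h.infDist_le q (x n) a
  have h2 := h.infDist_le q a (x n)
  rw [hausdorffDist_comm] at h1
  rw [Real.dist_eq, abs_le]
  simp only [Function.comp]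
  constructor <;> linarith

theorem closed_le : IsClosed {p : F × F | p.1 ∈ seg t p.2} := by
  refine IsSeqClosed.isClosed fun p a hp ha => ?_
  have h1 := h.smooth _ _ ((continuous_snd.tendsto a).comp ha)
  have h2 : Tendsto (fun n => infDist (p n).1 (seg t a.2)) atTop (𝓝 (infDist a.1 (seg t a.2))) :=
    ((continuous_infDist_pt _).tendsto _).comp ((continuous_fst.tendsto a).comp ha)
  have h3 : infDist a.1 (seg t a.2) ≤ 0 := le_of_tendsto_of_tendsto' h2 h1 fun n => by
    have := h.infDist_le (p n).1 a.2 (p n).2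
    rw [infDist_zero_of_mem (show (p n).1 ∈ seg t (p n).2 from hp n), zero_add] at this
    exact this
  exact ((h.seg_compact _).isClosed.mem_iff_infDist_zero ⟨t, top_mem _⟩).2
    (le_antisymm h3 infDist_nonneg)

theorem le_lim {ι : Type} {l : Filter ι} [l.NeBot] {x y : ι → F} {a b : F}
    (hx : Tendsto x l (𝓝 a)) (hy : Tendsto y l (𝓝 b)) (hl : ∀ᶠ i in l, x i ∈ seg t (y i)) :
    a ∈ seg t b :=
  h.closed_le.mem_of_tendsto (hx.prodMk_nhds hy) hl

theorem exists_ht : ∃ τ : F → ℝ, Continuous τ ∧ τ t = 0 ∧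
    ∀ x y, x ∈ seg t y → x ≠ y → τ x < τ y := by
  have := h.compact
  have : Nonempty F := ⟨t⟩
  let q := TopologicalSpace.denseSeq F
  let f : ℕ → F → ℝ := fun n x => (1 / 2 : ℝ) ^ n * (dist (q n) t - infDist (q n) (seg t x))
  have hs : Summable fun n : ℕ => (1 / 2 : ℝ) ^ n * diam (univ : Set F) :=
    summable_geometric_two.mul_right _
  have hb : ∀ n x, ‖f n x‖ ≤ (1 / 2 : ℝ) ^ n * diam (univ : Set F) := fun n x => by
    have h1 : infDist (q n) (seg t x) ≤ dist (q n) t := infDist_le_dist_of_mem (top_mem x)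
    have h2 : dist (q n) t ≤ diam (univ : Set F) :=
      dist_le_diam_of_mem isCompact_univ.isBounded (mem_univ _) (mem_univ _)
    have h3 : 0 ≤ infDist (q n) (seg t x) := infDist_nonneg
    rw [Real.norm_of_nonneg (mul_nonneg (by positivity) (by linarith))]
    exact mul_le_mul_of_nonneg_left (by linarith) (by positivity)
  refine ⟨fun x => ∑' n, f n x, continuous_tsum (fun n => ?_) hs hb, ?_, fun x y hxy hne => ?_⟩
  · exact continuous_const.mul (continuous_const.sub (h.cont_infDist _))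
  · simp [f, seg_top]
  · have hy : y ∉ seg t x := fun hy => hne (h.antisymm hxy hy)
    have hδ : 0 < infDist y (seg t x) :=
      ((h.seg_compact _).isClosed.notMem_iff_infDist_pos ⟨t, top_mem _⟩).1 hy
    obtain ⟨n, hn⟩ := (TopologicalSpace.denseRange_denseSeq F).exists_dist_lt y (half_pos hδ)
    refine Summable.tsum_lt_tsum (i := n) (fun m => ?_) ?_
      (Summable.of_norm_bounded hs (hb · x)) (Summable.of_norm_bounded hs (hb · y))
    · have : infDist (q m) (seg t y) ≤ infDist (q m) (seg t x) :=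
        infDist_le_infDist_of_subset (fun z hz => h.trans hz hxy) ⟨t, top_mem _⟩
      exact mul_le_mul_of_nonneg_left (by linarith) (by positivity)
    · have h1 : infDist (q n) (seg t y) ≤ dist (q n) y := infDist_le_dist_of_mem (h.self_mem y)
      have h2 : infDist y (seg t x) ≤ infDist (q n) (seg t x) + dist y (q n) :=
        infDist_le_infDist_add_dist
      rw [dist_comm] at h1
      exact mul_lt_mul_of_pos_left (by linarith) (by positivity)

/-- A height function. -/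
noncomputable def ht : F → ℝ := h.exists_ht.choose

theorem ht_cont : Continuous h.ht := h.exists_ht.choose_spec.1
theorem ht_top : h.ht t = 0 := h.exists_ht.choose_spec.2.1
theorem ht_lt {x y : F} (h1 : x ∈ seg t y) (h2 : x ≠ y) : h.ht x < h.ht y :=
  h.exists_ht.choose_spec.2.2 x y h1 h2

theorem ht_le {x y : F} (h1 : x ∈ seg t y) : h.ht x ≤ h.ht y := by
  by_cases h2 : x = y
  · rw [h2]
  · exact (h.ht_lt h1 h2).le

theorem ht_nonneg (x : F) : 0 ≤ h.ht x := h.ht_top ▸ h.ht_le (top_mem x)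

theorem ht_pos {x : F} (hx : x ≠ t) : 0 < h.ht x := h.ht_top ▸ h.ht_lt (top_mem x) hx.symm

theorem eq_top {x : F} (hx : h.ht x ≤ 0) : x = t := by
  by_contra h1
  exact absurd (h.ht_pos h1) (not_lt.2 hx)

theorem le_of_ht {x y z : F} (h1 : x ∈ seg t z) (h2 : y ∈ seg t z) (h3 : h.ht x ≤ h.ht y) :
    x ∈ seg t y := by
  rcases h.total h1 h2 with h4 | h4
  · exact h4
  · by_cases h5 : y = x
    · rw [h5]; exact h.self_mem x
    · exact absurd (h.ht_lt h4 h5) (not_lt.2 h3)

theorem eq_of_ht {x y z : F} (h1 : x ∈ seg t z) (h2 : y ∈ seg t z) (h3 : h.ht x = h.ht y) :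
    x = y := h.antisymm (h.le_of_ht h1 h2 h3.le) (h.le_of_ht h2 h1 h3.ge)

open Classical in
/-- The point below `y` at height `r`. -/
noncomputable def low (y : F) (r : ℝ) : F :=
  if hx : ∃ x ∈ seg t y, h.ht x = r then hx.choose else t

theorem low_mem (y : F) (r : ℝ) : h.low y r ∈ seg t y := by
  unfold low
  split_ifs with hx
  · exact hx.choose_spec.1
  · exact top_mem y

theorem ht_low {y : F} {r : ℝ} (h0 : 0 ≤ r) (h1 : r ≤ h.ht y) : h.ht (h.low y r) = r := by
  have hx : ∃ x ∈ seg t y, h.ht x = r :=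
    (h.seg_conn y).intermediate_value (top_mem y) (h.self_mem y) h.ht_cont.continuousOn
      ⟨h.ht_top ▸ h0, h1⟩
  unfold low
  rw [dif_pos hx]
  exact hx.choose_spec.2

theorem low_eq {x y : F} (hx : x ∈ seg t y) {r : ℝ} (hr : h.ht x = r) : h.low y r = x := by
  subst hr
  exact h.eq_of_ht (h.low_mem _ _) hx (h.ht_low (h.ht_nonneg x) (h.ht_le hx))

theorem tendsto_of_ht {ι : Type} {l : Filter ι} {x y : ι → F} {a b : F}
    (hy : Tendsto y l (𝓝 b)) (hl : ∀ᶠ i in l, x i ∈ seg t (y i)) (ha : a ∈ seg t b)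
    (hr : Tendsto (fun i => h.ht (x i)) l (𝓝 (h.ht a))) : Tendsto x l (𝓝 a) := by
  have := h.compact
  refine tendsto_iff_ultrafilter _ _ _ |>.2 fun 𝓤 hU => ?_
  obtain ⟨z, -, hz⟩ := isCompact_univ.ultrafilter_le_nhds (𝓤.map x) (by simp)
  have hz' : Tendsto x 𝓤 (𝓝 z) := hz
  have h1 := h.le_lim hz' (hy.mono_left hU) (hl.filter_mono hU)
  have h2 := tendsto_nhds_unique ((h.ht_cont.tendsto z).comp hz') (hr.mono_left hU)
  rwa [h.eq_of_ht h1 ha h2] at hz'

theorem tendsto_low {ι : Type} {l : Filter ι} {y : ι → F} {r : ι → ℝ} {b : F} {s : ℝ}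
    (hy : Tendsto y l (𝓝 b)) (hr : Tendsto r l (𝓝 s))
    (hl : ∀ᶠ i in l, 0 ≤ r i ∧ r i ≤ h.ht (y i)) : Tendsto (fun i => h.low (y i) (r i)) l
      (𝓝 (h.low b s)) := by
  rcases l.eq_or_neBot with rfl | hne
  · exact tendsto_bot
  refine h.tendsto_of_ht hy (Eventually.of_forall fun i => h.low_mem _ _) (h.low_mem _ _) ?_
  rw [h.ht_low (ge_of_tendsto hr (hl.mono fun _ hi => hi.1))
    (le_of_tendsto_of_tendsto hr ((h.ht_cont.tendsto b).comp hy) (hl.mono fun _ hi => hi.2))]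
  exact hr.congr' (hl.mono fun i hi => (h.ht_low hi.1 hi.2).symm)

theorem tendsto_top {ι : Type} {l : Filter ι} {x : ι → F}
    (hr : Tendsto (fun i => h.ht (x i)) l (𝓝 0)) : Tendsto x l (𝓝 t) := by
  have := h.compact
  refine tendsto_iff_ultrafilter _ _ _ |>.2 fun 𝓤 hU => ?_
  obtain ⟨z, -, hz⟩ := isCompact_univ.ultrafilter_le_nhds (𝓤.map x) (by simp)
  have hz' : Tendsto x 𝓤 (𝓝 z) := hz
  have h2 := tendsto_nhds_unique ((h.ht_cont.tendsto z).comp hz') (hr.mono_left hU)
  rwa [h.eq_top h2.le] at hz'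

omit h in
theorem sub_arc {α : unitInterval → F} (hc : Continuous α) (hi : Function.Injective α)
    {s r : unitInterval} (hsr : s ≠ r) : IsArc (α '' uIcc s r) (α s) (α r) := by
  let m : unitInterval → unitInterval := fun u => ⟨(1 - u) * s + u * r, by
    have := u.2.1; have := u.2.2; have := s.2.1; have := s.2.2; have := r.2.1; have := r.2.2
    constructor <;> nlinarith⟩
  have hm : Continuous m := Continuous.subtype_mk (by fun_prop) _
  have m0 : m 0 = s := Subtype.ext (by simp [m])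
  have m1 : m 1 = r := Subtype.ext (by simp [m])
  refine ⟨α ∘ m, hc.comp hm, hi.comp fun u v huv => ?_, by simp [m0], by simp [m1], ?_⟩
  · have h1 : (1 - u : ℝ) * s + u * r = (1 - v) * s + v * r := congrArg Subtype.val huv
    have h2 : ((u : ℝ) - v) * (r - s) = 0 := by linarith
    rcases mul_eq_zero.1 h2 with h3 | h3
    · exact Subtype.ext (by linarith)
    · exact absurd (Subtype.ext (by linarith)) hsr
  · rw [range_comp]
    congr 1
    refine subset_antisymm ?_ ?_
    · rintro _ ⟨u, rfl⟩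
      have := u.2.1; have := u.2.2
      rcases le_total s r with h1 | h1
      · have h2 : (s : ℝ) ≤ r := h1
        rw [uIcc_of_le h1]
        exact ⟨show (s : ℝ) ≤ (1 - u) * s + u * r by nlinarith,
          show (1 - u : ℝ) * s + u * r ≤ r by nlinarith⟩
      · have h2 : (r : ℝ) ≤ s := h1
        rw [uIcc_of_ge h1]
        exact ⟨show (r : ℝ) ≤ (1 - u) * s + u * r by nlinarith,
          show (1 - u : ℝ) * s + u * r ≤ s by nlinarith⟩
    · exact (isPreconnected_range hm).ordConnected.uIcc_subset ⟨0, m0⟩ ⟨1, m1⟩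

theorem up_arc {w y : F} (hw : w ∈ seg t y) (hne : w ≠ y) :
    ∃ A, IsArc A w y ∧ ∀ p ∈ A, p ∈ seg t y ∧ w ∈ seg t p := by
  have hy : y ≠ t := by
    rintro rfl
    rw [seg_top] at hw
    exact hne hw
  obtain ⟨α, hc, hi, h0, rfl, hr⟩ := h.isArc_seg hy
  rw [← hr] at hw ⊢
  obtain ⟨s, rfl⟩ := hw
  refine ⟨_, sub_arc hc hi (fun h1 => hne (by rw [h1])), ?_⟩
  rintro _ ⟨u, hu, rfl⟩
  rw [uIcc_of_le unitInterval.le_one'] at hu
  rw [h.seg_param hc hi h0]
  exact ⟨⟨u, rfl⟩, s, hu.1, rfl⟩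

theorem no_branch {x y z : F} (h1 : x ∈ seg t y) (h2 : x ∈ seg t z) (hx : x ≠ t) :
    y ∈ seg t z ∨ z ∈ seg t y := by
  obtain ⟨w, ⟨hwy, hwz⟩, hw⟩ := ((h.seg_compact y).inter_right
    (h.seg_compact z).isClosed).exists_isMaxOn ⟨x, h1, h2⟩ h.ht_cont.continuousOn
  by_contra hne
  push Not at hne
  have hwt : w ≠ t := by
    rintro rfl
    have := hw ⟨h1, h2⟩
    exact hx (h.eq_top (h.ht_top ▸ this))
  obtain ⟨A, hA, hA'⟩ := h.up_arc hwy (fun e => hne.1 (e ▸ hwz))
  obtain ⟨B, hB, hB'⟩ := h.up_arc hwz (fun e => hne.2 (e ▸ hwy))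
  have hC : IsArc (seg t w) w t := by
    obtain ⟨α, hc, hi, h0, rfl, hr⟩ := h.isArc_seg hwt
    have := sub_arc hc hi (s := 1) (r := 0) one_ne_zero
    rw [h0, uIcc_of_ge unitInterval.nonneg'] at this
    rw [← hr, ← image_univ, ← unitInterval.univ_eq_Icc] at *
    exact this
  have eAB : A ∩ B = {w} := by
    refine subset_antisymm (fun p hp => ?_) (singleton_subset_iff.2 ⟨hA.left_mem, hB.left_mem⟩)
    exact h.antisymm (h.le_of_ht (hA' p hp.1).1 hwy (hw ⟨(hA' p hp.1).1, (hB' p hp.2).1⟩))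
      (hA' p hp.1).2
  have eAC : A ∩ seg t w = {w} :=
    subset_antisymm (fun p hp => h.antisymm hp.2 (hA' p hp.1).2)
      (singleton_subset_iff.2 ⟨hA.left_mem, h.self_mem w⟩)
  have eBC : B ∩ seg t w = {w} :=
    subset_antisymm (fun p hp => h.antisymm hp.2 (hB' p hp.1).2)
      (singleton_subset_iff.2 ⟨hB.left_mem, h.self_mem w⟩)
  refine hwt ((h.fan.2 w).1 ⟨![A, B, seg t w], ![y, z, t], fun i => ?_, fun i j hij => ?_⟩)
  · fin_cases i
    exacts [hA, hB, hC]
  · fin_cases i <;> fin_cases j <;> first | exact absurd rfl hij | simp [eAB, eAC, eBC, inter_comm]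

theorem top_not_end : ¬ IsEndpoint t := by
  intro he
  obtain ⟨A, y, hA, hd⟩ := (h.fan.2 t).2 rfl
  have hy : y 0 ≠ y 1 := fun e => by
    have : y 0 ∈ A 0 ∩ A 1 := ⟨(hA 0).right_mem, e ▸ (hA 1).right_mem⟩
    rw [hd 0 1 (by decide)] at this
    exact (hA 0).ne this.symm
  obtain ⟨B, hB⟩ := h.fan.1.2.2.1 _ _ hy
  have h1 : B ⊆ A 0 ∪ A 1 := h.arc_sub hB ((IsArc.isCompact' (hA 0)).union (IsArc.isCompact' (hA 1)))
    ((hA 0).isPreconnected.union t (hA 0).left_mem (hA 1).left_mem (hA 1).isPreconnected)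
    (Or.inl (hA 0).right_mem) (Or.inr (hA 1).right_mem)
  obtain ⟨z, hz, hz'⟩ := isPreconnected_closed_iff.1 hB.isPreconnected _ _ (hA 0).isClosed
    (hA 1).isClosed h1 ⟨_, hB.left_mem, (hA 0).right_mem⟩ ⟨_, hB.right_mem, (hA 1).right_mem⟩
  rw [hd 0 1 (by decide)] at hz'
  rw [hz'] at hz
  rcases he B _ _ hB hz with e | e
  · exact (hA 0).ne e
  · exact (hA 1).ne e

theorem end_iff (e : F) : IsEndpoint e ↔ e ≠ t ∧ ∀ y, e ∈ seg t y → y = e := by
  constructor
  · intro he
    have h1 : e ≠ t := fun h1 => h.top_not_end (h1 ▸ he)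
    refine ⟨h1, fun y hy => ?_⟩
    have h2 : y ≠ t := by
      rintro rfl
      rw [seg_top] at hy
      exact h1 hy
    exact ((he _ _ _ (h.isArc_seg h2) hy).resolve_left h1).symm
  · rintro ⟨-, h2⟩ A x y hA he
    rcases h.arc_sub hA ((h.seg_compact x).union (h.seg_compact y))
      ((h.seg_conn x).union t (top_mem x) (top_mem y) (h.seg_conn y)) (Or.inl (h.self_mem x))
      (Or.inr (h.self_mem y)) he with h3 | h3
    · exact Or.inl (h2 x h3).symm
    · exact Or.inr (h2 y h3).symm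

theorem exists_end {x : F} (hx : x ≠ t) : ∃ e, IsEndpoint e ∧ x ∈ seg t e := by
  have := h.compact
  have h1 : IsClosed {y | x ∈ seg t y} := h.closed_le.preimage (Continuous.prodMk_right x)
  obtain ⟨e, he, hm⟩ := h1.isCompact.exists_isMaxOn ⟨x, h.self_mem x⟩ h.ht_cont.continuousOn
  refine ⟨e, (h.end_iff e).2 ⟨?_, fun y hy => ?_⟩, he⟩
  · rintro rfl
    rw [mem_ofPred_eq, seg_top] at he
    exact hx he
  · by_contra hne
    exact absurd (h.ht_lt hy (Ne.symm hne)) (not_lt.2 (hm (h.trans he hy)))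

theorem end_unique {x e e' : F} (he : IsEndpoint e) (he' : IsEndpoint e') (h1 : x ∈ seg t e)
    (h2 : x ∈ seg t e') (hx : x ≠ t) : e = e' := by
  rcases h.no_branch h1 h2 hx with h3 | h3
  · exact (((h.end_iff e).1 he).2 _ h3).symm
  · exact ((h.end_iff e').1 he').2 _ h3

theorem exists_ne_top : ∃ x : F, x ≠ t := by
  obtain ⟨A, y, hA, -⟩ := (h.fan.2 t).2 rfl
  exact ⟨y 0, (hA 0).ne.symm⟩

theorem isGδ_end : IsGδ {e : F | IsEndpoint e} := by
  have := h.compact
  have h1 : {e : F | IsEndpoint e} = {t}ᶜ ∩ ⋂ n : ℕ,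
      (Prod.fst '' ({p : F × F | p.1 ∈ seg t p.2} ∩
        {p | h.ht p.1 + 1 / ((n : ℝ) + 1) ≤ h.ht p.2}))ᶜ := by
    ext e
    simp only [mem_ofPred_eq, h.end_iff, mem_inter_iff, mem_compl_iff, mem_singleton_iff,
      mem_iInter, mem_image, Prod.exists, exists_and_right, exists_eq_right, not_exists, not_and]
    refine and_congr_right fun _ => ⟨fun h2 n y hy h3 => ?_, fun h2 y hy => ?_⟩
    · rw [h2 y hy] at h3
      have : (0 : ℝ) < 1 / ((n : ℝ) + 1) := by positivity
      linarith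
    · by_contra hne
      obtain ⟨n, hn⟩ := exists_nat_one_div_lt (sub_pos.2 (h.ht_lt hy (Ne.symm hne)))
      exact h2 n y hy (by linarith)
  rw [h1]
  refine isOpen_compl_singleton.isGδ.inter (IsGδ.iInter fun n => IsOpen.isGδ ?_)
  have := h.ht_cont
  exact (isClosedMap_fst_of_compactSpace _
    (h.closed_le.inter (isClosed_le (by fun_prop) (by fun_prop)))).isOpen_compl

end SF

theorem arc_map {G : Type} [MetricSpace G] (g : F ≃ₜ G) {A : Set F} {x y : F} (hA : IsArc A x y) :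
    IsArc (g '' A) (g x) (g y) := by
  obtain ⟨α, hc, hi, rfl, rfl, rfl⟩ := hA
  exact ⟨g ∘ α, g.continuous.comp hc, g.injective.comp hi, rfl, rfl, range_comp _ _⟩

theorem top_map {G : Type} [MetricSpace G] {u : G} (hF : IsFan F t) (hG : IsFan G u)
    (g : F ≃ₜ G) : g t = u := by
  obtain ⟨A, y, hA, hd⟩ := (hF.2 t).2 rfl
  refine (hG.2 _).1 ⟨fun i => g '' A i, fun i => g (y i), fun i => arc_map g (hA i),
    fun i j hij => ?_⟩
  rw [← image_inter g.injective, hd i j hij, image_singleton]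

theorem seg_map {G : Type} [MetricSpace G] (g : F ≃ₜ G) {x y z : F} (hz : z ∈ seg x y) :
    g z ∈ seg (g x) (g y) := by
  rcases hz with rfl | ⟨A, hA, hz⟩
  · exact Or.inl rfl
  · exact Or.inr ⟨_, arc_map g hA, z, hz, rfl⟩

theorem seg_map_iff {G : Type} [MetricSpace G] (g : F ≃ₜ G) {x y z : F} :
    g z ∈ seg (g x) (g y) ↔ z ∈ seg x y :=
  ⟨fun h => by simpa using seg_map g.symm h, seg_map g⟩

theorem end_map {G : Type} [MetricSpace G] (g : F ≃ₜ G) {e : F} (he : IsEndpoint e) :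
    IsEndpoint (g e) := by
  intro A x y hA hm
  have := he _ _ _ (arc_map g.symm hA) ⟨_, hm, g.symm_apply_apply e⟩
  rcases this with rfl | rfl
  · exact Or.inl (g.apply_symm_apply x)
  · exact Or.inr (g.apply_symm_apply y)

theorem end_map_iff {G : Type} [MetricSpace G] (g : F ≃ₜ G) {e : F} :
    IsEndpoint (g e) ↔ IsEndpoint e :=
  ⟨fun h => by simpa using end_map g.symm h, end_map g⟩

theorem cl_map_iff {G : Type} [MetricSpace G] (g : F ≃ₜ G) {x : F} :
    g x ∈ closure {e : G | IsEndpoint e} ↔ x ∈ closure {e : F | IsEndpoint e} := by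
  have : {e : F | IsEndpoint e} = g ⁻¹' {e : G | IsEndpoint e} := by
    ext e; exact (end_map_iff g).symm
  rw [this, ← g.preimage_closure]
  rfl

end Pool.Agent.Lib.MP_56c207_gt.Cl
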