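import Pool.Agent.Lib.MP_56c207_gt.C1

set_option autoImplicit false

namespace Pool.Agent.Lib.MP_56c207_gt.Cl

open Set Filter Topology Metric

/-- The set of end points. -/
abbrev En (F : Type) [MetricSpace F] : Set F := {e : F | IsEndpoint e}

variable {F : Type} [MetricSpace F] {t : F}

/-- The limits of end points on the blade of `e` are `t`, `e` and the segment from `v` to `w`. -/
def Mk (t e v w : F) : Prop :=
  v ∈ seg t w ∧ w ∈ seg t e ∧ v ≠ t ∧ w ≠ e ∧
    ∀ x ∈ seg t e, x ∈ closure (En F) ↔ x = t ∨ x = e ∨ (v ∈ seg t x ∧ x ∈ seg t w)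

/-- A homogeneous smooth fan whose marked set is a point or an interval. -/
structure MF (F : Type) [MetricSpace F] (t : F) (d o : Prop) : Prop extends SF F t where
  homog : IsEndpointHomogeneous F
  mark : ∀ e, IsEndpoint e → ∃ p : F × F, Mk t e p.1 p.2 ∧ (p.1 = p.2 ↔ d)
  one : ∀ e, IsEndpoint e → (e ∈ closure (En F \ {e}) ↔ o)

theorem SF.seg_inter_end (h : SF F t) (e : F) : En F \ seg t e = En F \ {e} := by
  ext x
  refine and_congr_right fun hx => not_congr ⟨fun h1 => ?_, fun h1 => ?_⟩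
  · exact (((h.end_iff x).1 hx).2 e h1).symm
  · rw [h1]; exact h.self_mem e

theorem mf_of_epg (h : SF F t) (hh : IsEndpointHomogeneous F) {X : Set unitInterval}
    (hX : IsEPG F t X) (h0 : 0 ∈ X) {a b : unitInterval} (hab : a ≤ b)
    (hI : X \ {0, 1} = Icc a b) : MF F t (a = b) (1 ∈ X) := by
  have ha : a ∈ X \ {0, 1} := hI ▸ left_mem_Icc.2 hab
  have hb : b ∈ X \ {0, 1} := hI ▸ right_mem_Icc.2 hab
  refine ⟨h, hh, fun e he => ?_, fun e he => ?_⟩
  · obtain ⟨φ, hc, hi, e0, rfl, hr, hm⟩ := hX e he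
    have hle : ∀ s r, φ s ∈ seg t (φ r) ↔ s ≤ r := fun s r => by
      rw [h.seg_param hc hi e0, hi.mem_set_image]; rfl
    refine ⟨(φ a, φ b), ⟨(hle _ _).2 hab, (hle _ _).2 unitInterval.le_one',
      fun e => ha.2 (Or.inl (hi (e.trans e0.symm))), fun e => hb.2 (Or.inr (hi e)), ?_⟩, hi.eq_iff⟩
    intro x hx
    rw [← hr] at hx
    obtain ⟨s, rfl⟩ := hx
    have h1 : En F = (En F \ seg t (φ 1)) ∪ {φ 1} := by
      rw [h.seg_inter_end, sdiff_union_of_subset (singleton_subset_iff.2 he)]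
    have h2 : s ∈ X ↔ φ s ∈ closure (En F \ seg t (φ 1)) := by
      rw [← hi.mem_set_image, hm]
      exact ⟨fun h => h.2, fun h => ⟨hr ▸ ⟨s, rfl⟩, h⟩⟩
    have h3 : s ∈ X \ {0, 1} ↔ s ∈ Icc a b := by rw [hI]
    rw [h1, closure_union, closure_singleton, mem_union, ← h2, hle, hle, ← e0, hi.eq_iff,
      mem_singleton_iff, hi.eq_iff]
    simp only [Set.mem_sdiff, mem_insert_iff, mem_singleton_iff, mem_Icc] at h3
    constructor
    · rintro (h4 | h4)
      · by_cases h5 : s = 0 ∨ s = 1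
        · tauto
        · exact Or.inr (Or.inr (h3.1 ⟨h4, h5⟩))
      · exact Or.inr (Or.inl h4)
    · rintro (rfl | h4 | h4)
      · exact Or.inl h0
      · exact Or.inr h4
      · exact Or.inl (h3.2 h4).1
  · obtain ⟨φ, hc, hi, e0, rfl, hr, hm⟩ := hX e he
    rw [← h.seg_inter_end, ← hi.mem_set_image (s := X), hm]
    exact ⟨fun h1 => ⟨h.self_mem _, h1⟩, fun h1 => h1.2⟩

theorem SF.mk_unique (h : SF F t) {e v w v' w' : F} (h1 : Mk t e v w) (h2 : Mk t e v' w') :
    v = v' ∧ w = w' := by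
  have key : ∀ {v w v' w' : F}, Mk t e v w → Mk t e v' w' → v ∈ seg t v' ∧ w' ∈ seg t w := by
    rintro v w v' w' ⟨-, -, -, -, a5⟩ ⟨b1, b2, b3, b4, b5⟩
    have c1 := h.trans b1 b2
    constructor
    · rcases (a5 v' c1).1 ((b5 v' c1).2 (Or.inr (Or.inr ⟨h.self_mem _, b1⟩))) with c | c | c
      · exact absurd c b3
      · exact absurd (h.antisymm b2 (c ▸ b1)) b4
      · exact c.1
    · rcases (a5 w' b2).1 ((b5 w' b2).2 (Or.inr (Or.inr ⟨b1, h.self_mem _⟩))) with c | c | c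
      · rw [c, seg_top] at b1; exact absurd b1 b3
      · exact absurd c b4
      · exact c.2
  exact ⟨h.antisymm (key h1 h2).1 (key h2 h1).1, h.antisymm (key h2 h1).2 (key h1 h2).2⟩

theorem SF.mk_map (h : SF F t) (g : F ≃ₜ F) {e v w : F} (h1 : Mk t e v w) :
    Mk t (g e) (g v) (g w) := by
  have e0 := top_map h.fan h.fan g
  have hs : ∀ x y, g x ∈ seg t (g y) ↔ x ∈ seg t y := fun x y => by
    conv_lhs => rw [← e0]
    exact seg_map_iff g
  obtain ⟨a1, a2, a3, a4, a5⟩ := h1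
  refine ⟨(hs _ _).2 a1, (hs _ _).2 a2, fun e => a3 (g.injective (e.trans e0.symm)),
    fun e => a4 (g.injective e), fun x hx => ?_⟩
  obtain ⟨x, rfl⟩ := g.surjective x
  rw [cl_map_iff, a5 x ((hs _ _).1 hx), hs, hs, g.injective.eq_iff]
  conv_rhs => rw [← e0, g.injective.eq_iff, e0]

theorem exists_baire {Y Z : Type} [TopologicalSpace Y] [BaireSpace Y] [Nonempty Y] [MetricSpace Z]
    [SecondCountableTopology Z] (f : Y → Z) :
    ∃ y, ∀ ε > 0, y ∈ interior (closure (f ⁻¹' ball (f y) ε)) := by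
  have hd : Dense (⋂ U ∈ TopologicalSpace.countableBasis Z,
      interior (closure (f ⁻¹' U)) ∪ (closure (f ⁻¹' U))ᶜ) := by
    refine dense_biInter_of_isOpen
      (fun U _ => isOpen_interior.union isClosed_closure.isOpen_compl)
      (TopologicalSpace.countable_countableBasis Z) fun U _ => ?_
    rw [dense_iff_inter_open]
    intro W hW hne
    by_cases h1 : W ⊆ closure (f ⁻¹' U)
    · obtain ⟨y, hy⟩ := hne
      exact ⟨y, hy, Or.inl (interior_maximal h1 hW hy)⟩
    · obtain ⟨y, hy, hy'⟩ := not_subset.1 h1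
      exact ⟨y, hy, Or.inr hy'⟩
  obtain ⟨y, hy⟩ := hd.nonempty
  refine ⟨y, fun ε hε => ?_⟩
  obtain ⟨U, hU, h1, h2⟩ := (TopologicalSpace.isBasis_countableBasis Z).exists_subset_of_mem_open
    (mem_ball_self hε : f y ∈ _) isOpen_ball
  rcases mem_iInter₂.1 hy U hU with h3 | h3
  · exact interior_mono (closure_mono (preimage_mono h2)) h3
  · exact absurd (subset_closure (show y ∈ f ⁻¹' U from h1)) h3

theorem SF.exists_end' (h : SF F t) (x : F) : ∃ e, IsEndpoint e ∧ x ∈ seg t e := by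
  by_cases hx : x = t
  · obtain ⟨y, hy⟩ := h.exists_ne_top
    obtain ⟨e, he, -⟩ := h.exists_end hy
    exact ⟨e, he, Or.inl hx⟩
  · exact h.exists_end hx

/-- An end point above `x`. -/
noncomputable def SF.bl (h : SF F t) (x : F) : F := (h.exists_end' x).choose

theorem SF.bl_end (h : SF F t) (x : F) : IsEndpoint (h.bl x) := (h.exists_end' x).choose_spec.1
theorem SF.le_bl (h : SF F t) (x : F) : x ∈ seg t (h.bl x) := (h.exists_end' x).choose_spec.2

theorem SF.low_contOn (h : SF F t) (e : F) : ContinuousOn (h.low e) (Icc 0 (h.ht e)) :=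
  fun _ _ => h.tendsto_low tendsto_const_nhds (tendsto_id.mono_left nhdsWithin_le_nhds)
    self_mem_nhdsWithin

theorem SF.exists_lim (h : SF F t) {ι : Type} (𝓤 : Ultrafilter ι) (x : ι → F) :
    ∃ z, Tendsto x 𝓤 (𝓝 z) := by
  have := h.compact
  obtain ⟨z, -, hz⟩ := isCompact_univ.ultrafilter_le_nhds (𝓤.map x) (by simp)
  exact ⟨z, hz⟩

namespace MF

variable {d o : Prop} (h : MF F t d o)

open Classical in
/-- The ends of the marked interval. -/
noncomputable def vw (e : F) : F × F := if he : IsEndpoint e then (h.mark e he).choose else (t, t)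

/-- The lower end of the marked interval. -/
noncomputable def vv (e : F) : F := (h.vw e).1
/-- The upper end of the marked interval. -/
noncomputable def ww (e : F) : F := (h.vw e).2

theorem mk' {e : F} (he : IsEndpoint e) : Mk t e (h.vv e) (h.ww e) ∧ (h.vv e = h.ww e ↔ d) := by
  unfold vv ww vw
  rw [dif_pos he]
  exact (h.mark e he).choose_spec

/-- Height of the lower end. -/
noncomputable def A (e : F) : ℝ := h.ht (h.vv e)
/-- Height of the upper end. -/
noncomputable def B (e : F) : ℝ := h.ht (h.ww e)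

theorem A_pos {e : F} (he : IsEndpoint e) : 0 < h.A e := h.ht_pos (h.mk' he).1.2.2.1
theorem A_le {e : F} (he : IsEndpoint e) : h.A e ≤ h.B e := h.ht_le (h.mk' he).1.1
theorem B_lt {e : F} (he : IsEndpoint e) : h.B e < h.ht e :=
  h.ht_lt (h.mk' he).1.2.1 (h.mk' he).1.2.2.2.1
theorem ww_le {e : F} (he : IsEndpoint e) : h.ww e ∈ seg t e := (h.mk' he).1.2.1
theorem vv_le {e : F} (he : IsEndpoint e) : h.vv e ∈ seg t e := h.trans (h.mk' he).1.1 (h.ww_le he)

theorem A_eq_iff {e : F} (he : IsEndpoint e) : h.A e = h.B e ↔ d := by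
  refine Iff.trans ?_ (h.mk' he).2
  exact ⟨h.eq_of_ht (h.vv_le he) (h.ww_le he), fun e => by unfold A B; rw [e]⟩

theorem mark_iff {e x : F} (he : IsEndpoint e) (hx : x ∈ seg t e) : x ∈ closure (En F) ↔
    h.ht x = 0 ∨ h.ht x = h.ht e ∨ (h.A e ≤ h.ht x ∧ h.ht x ≤ h.B e) := by
  rw [(h.mk' he).1.2.2.2.2 x hx]
  refine or_congr ⟨fun e => e ▸ h.ht_top, fun e => h.eq_top e.le⟩ (or_congr
    ⟨fun e => e ▸ rfl, h.eq_of_ht hx (h.self_mem e)⟩ (and_congr
      ⟨h.ht_le, h.le_of_ht (h.vv_le he) hx⟩ ⟨h.ht_le, h.le_of_ht hx (h.ww_le he)⟩))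

theorem lim_mark {ι : Type} {l : Filter ι} [l.NeBot] {e : ι → F} (he : ∀ i, IsEndpoint (e i))
    {y : F} (hy : Tendsto e l (𝓝 y)) (hy' : IsEndpoint y) {p : ℝ × ℝ}
    (hp : Tendsto (fun i => (h.A (e i), h.B (e i))) l (𝓝 p)) {r : ℝ} (h1 : p.1 ≤ r)
    (h2 : r ≤ p.2) : r = 0 ∨ r = h.ht y ∨ (h.A y ≤ r ∧ r ≤ h.B y) := by
  have hA : Tendsto (fun i => h.A (e i)) l (𝓝 p.1) := (continuous_fst.tendsto p).comp hp
  have hB : Tendsto (fun i => h.B (e i)) l (𝓝 p.2) := (continuous_snd.tendsto p).comp hp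
  have h3 : Tendsto (fun i => max (h.A (e i)) (min r (h.B (e i)))) l (𝓝 r) := by
    have := hA.max ((tendsto_const_nhds (x := r)).min hB)
    rwa [min_eq_left h2, max_eq_right h1] at this
  have h4 : ∀ i, max (h.A (e i)) (min r (h.B (e i))) ≤ h.B (e i) := fun i =>
    max_le (h.A_le (he i)) (min_le_right _ _)
  have h5 : ∀ i, 0 ≤ max (h.A (e i)) (min r (h.B (e i))) ∧
      max (h.A (e i)) (min r (h.B (e i))) ≤ h.ht (e i) := fun i =>
    ⟨(h.A_pos (he i)).le.trans (le_max_left _ _), (h4 i).trans (h.B_lt (he i)).le⟩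
  have h6 := isClosed_closure.mem_of_tendsto (h.tendsto_low hy h3 (Eventually.of_forall h5))
    (Eventually.of_forall fun i => (h.mark_iff (he i) (h.low_mem _ _)).2 (Or.inr (Or.inr (by
      rw [h.ht_low (h5 i).1 (h5 i).2]
      exact ⟨le_max_left _ _, h4 i⟩))))
  rwa [h.mark_iff hy' (h.low_mem _ _), h.ht_low (ge_of_tendsto' h3 fun i => (h5 i).1)
    (le_of_tendsto_of_tendsto' h3 ((h.ht_cont.tendsto y).comp hy) fun i => (h5 i).2)] at h6

theorem exists_limAB {ι : Type} (𝓤 : Ultrafilter ι) (e : ι → F) :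
    ∃ p : ℝ × ℝ, Tendsto (fun i => (h.A (e i), h.B (e i))) 𝓤 (𝓝 p) := by
  obtain ⟨v, hv⟩ := h.exists_lim 𝓤 fun i => h.vv (e i)
  obtain ⟨w, hw⟩ := h.exists_lim 𝓤 fun i => h.ww (e i)
  exact ⟨_, ((h.ht_cont.tendsto v).comp hv).prodMk_nhds ((h.ht_cont.tendsto w).comp hw)⟩

theorem exists_contAt : ∃ e : En F, ContinuousAt (fun x : En F => (h.A x, h.B x)) e := by
  have := h.compact
  have : BaireSpace (En F) := h.isGδ_end.baireSpace_of_t2Space_locallyCompactSpace
  have : Nonempty (En F) := ⟨⟨_, h.bl_end t⟩⟩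
  obtain ⟨e, he⟩ := exists_baire (fun x : En F => (h.A x, h.B x))
  have key : ∀ ε > 0, ε < h.A e → ε < h.ht e - h.B e →
      ∀ᶠ y : En F in 𝓝 e, h.A y ≤ h.A e + ε ∧ h.B e - ε ≤ h.B y := by
    intro ε hε h1 h2
    have h3 : ∀ᶠ y : En F in 𝓝 e, h.B e + ε < h.ht y :=
      (h.ht_cont.comp continuous_subtype_val).continuousAt.eventually
        (lt_mem_nhds (show h.B e + ε < h.ht e by linarith))
    filter_upwards [h3, mem_interior_iff_mem_nhds.1 (he ε hε)] with y h4 h5
    obtain ⟨𝓤, hU, hy⟩ := mem_closure_iff_ultrafilter.1 h5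
    obtain ⟨p, hp⟩ := h.exists_limAB 𝓤 fun x : En F => x.1
    have h6 : p ∈ closedBall (h.A e, h.B e) ε :=
      isClosed_closedBall.mem_of_tendsto hp (mem_of_superset hU fun _ hx => ball_subset_closedBall hx)
    rw [mem_closedBall, Prod.dist_eq, max_le_iff, Real.dist_eq, Real.dist_eq, abs_le, abs_le] at h6
    have h7 : p.1 ≤ p.2 := le_of_tendsto_of_tendsto' ((continuous_fst.tendsto p).comp hp)
      ((continuous_snd.tendsto p).comp hp) fun x => h.A_le x.2
    have hy' : Tendsto (fun x : En F => x.1) 𝓤 (𝓝 y) := (continuous_subtype_val.tendsto y).mono_left hy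
    obtain ⟨⟨a1, a2⟩, a3, a4⟩ := h6
    simp only at a1 a2 a3 a4
    constructor
    · rcases h.lim_mark (fun x : En F => x.2) hy' y.2 hp le_rfl h7 with c | c | c <;> linarith [c]
    · rcases h.lim_mark (fun x : En F => x.2) hy' y.2 hp h7 le_rfl with c | c | c <;> linarith [c]
  refine ⟨e, tendsto_iff_ultrafilter _ _ _ |>.2 fun 𝓤 hU => ?_⟩
  obtain ⟨p, hp⟩ := h.exists_limAB 𝓤 fun x : En F => x.1
  have hA : Tendsto (fun x : En F => h.A x) 𝓤 (𝓝 p.1) := (continuous_fst.tendsto p).comp hp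
  have hB : Tendsto (fun x : En F => h.B x) 𝓤 (𝓝 p.2) := (continuous_snd.tendsto p).comp hp
  have hy' : Tendsto (fun x : En F => x.1) 𝓤 (𝓝 e) := (continuous_subtype_val.tendsto e).mono_left hU
  have b1 := h.A_pos e.2
  have b2 := h.A_le e.2
  have b3 := h.B_lt e.2
  have hδ : 0 < min (h.A e) (h.ht e - h.B e) := lt_min b1 (by linarith)
  have key2 : ∀ ε > 0, p.1 ≤ h.A e + ε ∧ h.B e - ε ≤ p.2 := fun ε hε => by
    have c1 := min_le_left (h.A e) (h.ht e - h.B e)
    have c2 := min_le_right (h.A e) (h.ht e - h.B e)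
    have c3 := min_le_left ε (min (h.A e) (h.ht e - h.B e) / 2)
    have c4 := min_le_right ε (min (h.A e) (h.ht e - h.B e) / 2)
    have c5 := (key _ (lt_min hε (half_pos hδ)) (by linarith) (by linarith)).filter_mono hU
    have c6 := le_of_tendsto hA (c5.mono fun _ hx => hx.1)
    have c7 := ge_of_tendsto hB (c5.mono fun _ hx => hx.2)
    constructor <;> linarith
  have d1 : p.1 ≤ h.A e := le_of_forall_pos_le_add fun ε hε => (key2 ε hε).1
  have d2 : h.B e ≤ p.2 := le_of_forall_pos_le_add fun ε hε => by linarith [(key2 ε hε).2]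
  have d3 : 0 ≤ p.1 := ge_of_tendsto' hA fun x => (h.A_pos x.2).le
  have d4 : p.2 ≤ h.ht e := le_of_tendsto_of_tendsto' hB ((h.ht_cont.tendsto _).comp hy')
    fun x => (h.B_lt x.2).le
  have d5 : p = (h.A e, h.B e) := by
    refine Prod.ext (le_antisymm d1 ?_) (le_antisymm ?_ d2)
    · rcases h.lim_mark (fun x : En F => x.2) hy' e.2 hp (r := (p.1 + h.A e) / 2) (by linarith)
        (by linarith) with c | c | c <;> simp only <;> linarith [c]
    · rcases h.lim_mark (fun x : En F => x.2) hy' e.2 hp (r := (p.2 + h.B e) / 2) (by linarith)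
        (by linarith) with c | c | c <;> simp only <;> linarith [c]
  rwa [d5] at hp

theorem map_vw (g : F ≃ₜ F) {e : F} (he : IsEndpoint e) :
    h.vv (g e) = g (h.vv e) ∧ h.ww (g e) = g (h.ww e) :=
  h.mk_unique (h.mk' (end_map g he)).1 (h.mk_map g (h.mk' he).1)

theorem cont_vw : ContinuousOn h.vv (En F) ∧ ContinuousOn h.ww (En F) := by
  obtain ⟨e, he⟩ := h.exists_contAt
  have h1 : ContinuousWithinAt h.vv (En F) e := by
    rw [continuousWithinAt_iff_continuousAt_domRestrict _ e.2]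
    exact h.tendsto_of_ht (continuous_subtype_val.tendsto e)
      (Eventually.of_forall fun x => h.vv_le x.2) (h.vv_le e.2) he.fst
  have h2 : ContinuousWithinAt h.ww (En F) e := by
    rw [continuousWithinAt_iff_continuousAt_domRestrict _ e.2]
    exact h.tendsto_of_ht (continuous_subtype_val.tendsto e)
      (Eventually.of_forall fun x => h.ww_le x.2) (h.ww_le e.2) he.snd
  have key : ∀ f : F → F, (∀ (g : F ≃ₜ F) (x : F), IsEndpoint x → f (g x) = g (f x)) →
      ContinuousWithinAt f (En F) e → ContinuousOn f (En F) := by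
    intro f hf hc x hx
    obtain ⟨g, hg⟩ := h.homog x e hx e.2
    have h3 : ContinuousWithinAt (fun z => g.symm (f (g z))) (En F) x :=
      g.symm.continuous.continuousAt.comp_continuousWithinAt
        (ContinuousWithinAt.comp (t := En F) (hg ▸ hc) g.continuous.continuousWithinAt
          fun z hz => end_map g hz)
    exact h3.congr (fun z hz => by rw [hf g z hz, g.symm_apply_apply])
      (by rw [hf g x hx, g.symm_apply_apply])
  exact ⟨key _ (fun g x hx => (h.map_vw g hx).1) h1, key _ (fun g x hx => (h.map_vw g hx).2) h2⟩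

/-- The limits of end points that are not end points. -/
abbrev Yy (F : Type) [MetricSpace F] : Set F := closure (En F) \ En F

theorem top_mem_Y (h : MF F t d o) : t ∈ Yy F :=
  ⟨((h.mk' (h.bl_end t)).1.2.2.2.2 t (top_mem _)).2 (Or.inl rfl), h.top_not_end⟩

theorem between {y e : F} (hy : y ∈ Yy F) (ht : y ≠ t) (he : IsEndpoint e) (h1 : y ∈ seg t e) :
    h.vv e ∈ seg t y ∧ y ∈ seg t (h.ww e) := by
  rcases ((h.mk' he).1.2.2.2.2 y h1).1 hy.1 with c | c | c
  · exact absurd c ht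
  · exact absurd (c ▸ he) hy.2
  · exact c

theorem mem_Y {y e : F} (he : IsEndpoint e) (h1 : h.vv e ∈ seg t y) (h2 : y ∈ seg t (h.ww e)) :
    y ∈ Yy F := by
  have h3 := h.trans h2 (h.ww_le he)
  refine ⟨((h.mk' he).1.2.2.2.2 y h3).2 (Or.inr (Or.inr ⟨h1, h2⟩)), fun hy => ?_⟩
  have h4 := ((h.end_iff y).1 hy).2 e h3
  subst h4
  exact (h.mk' he).1.2.2.2.1 (h.antisymm (h.ww_le he) h2)

theorem ww_mem_Y {e : F} (he : IsEndpoint e) : h.ww e ∈ Yy F :=
  h.mem_Y he (h.mk' he).1.1 (h.self_mem _)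

theorem closed_Y (h : MF F t d o) : IsClosed (Yy F) := by
  refine isClosed_of_closure_subset fun y hy => ⟨closure_minimal sdiff_subset isClosed_closure hy, ?_⟩
  intro hy'
  obtain ⟨𝓤, hU, hl⟩ := mem_closure_iff_ultrafilter.1 hy
  have hl' : Tendsto id 𝓤 (𝓝 y) := hl
  obtain ⟨z, hz⟩ := h.exists_lim 𝓤 h.bl
  have h1 := ((h.end_iff y).1 hy').2 z (h.le_lim hl' hz (Eventually.of_forall h.le_bl))
  subst h1
  have h2 : Tendsto (fun x => h.ww (h.bl x)) 𝓤 (𝓝 (h.ww z)) :=
    (h.cont_vw.2 z hy').tendsto.comp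
      (tendsto_nhdsWithin_iff.2 ⟨hz, Eventually.of_forall h.bl_end⟩)
  have h3 : ∀ᶠ x in (𝓤 : Filter F), id x ∈ seg t (h.ww (h.bl x)) := by
    filter_upwards [hU, hl (isOpen_compl_singleton.mem_nhds ((h.end_iff z).1 hy').1)] with x a1 a2
    exact (h.between a1 a2 (h.bl_end x) (h.le_bl x)).2
  exact (h.mk' hy').1.2.2.2.1 (h.antisymm (h.ww_le hy') (h.le_lim hl' h2 h3))

theorem top_notMem (h : MF F t d o) {C : Set F} (hC : IsCompact C) (hc : IsPreconnected C)
    (hM : C ⊆ closure (En F)) {x : F} (hx : x ∈ C) (ht : x ≠ t) : t ∉ C := by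
  intro h1
  have h2 := (h.seg_min hC hc h1 hx).trans hM
  have he := h.bl_end x
  have b1 := h.A_pos he
  have b2 := h.A_le he
  have b3 := h.B_lt he
  have b4 := h.ht_pos ht
  have h3 : h.A (h.bl x) ≤ h.ht x := by
    rcases (h.mark_iff he (h.le_bl x)).1 (hM hx) with c | c | c <;> linarith [c]
  have h4 := (h.mark_iff he (h.trans (h.low_mem x (h.A (h.bl x) / 2)) (h.le_bl x))).1
    (h2 (h.low_mem _ _))
  rw [h.ht_low (by linarith) (by linarith)] at h4
  rcases h4 with c | c | c <;> linarith [c]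

theorem same_blade (h : MF F t d o) {C : Set F} (hC : IsCompact C) (hc : IsPreconnected C)
    (hM : C ⊆ closure (En F)) {x x' e e' : F} (hx : x ∈ C) (hx' : x' ∈ C) (ht : x ≠ t)
    (he : IsEndpoint e) (he' : IsEndpoint e') (h1 : x ∈ seg t e) (h2 : x' ∈ seg t e') : e = e' := by
  have h3 := h.inter_conn hC hc ((h.seg_compact e).union (h.seg_compact e'))
    ((h.seg_conn e).union t (top_mem _) (top_mem _) (h.seg_conn e')) hx (Or.inl h1)
  obtain ⟨z, hz, a1, a2⟩ := isPreconnected_closed_iff.1 h3 _ _ (h.seg_compact e).isClosed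
    (h.seg_compact e').isClosed inter_subset_right ⟨x, ⟨hx, Or.inl h1⟩, h1⟩
    ⟨x', ⟨hx', Or.inr h2⟩, h2⟩
  exact h.end_unique he he' a1 a2 fun c => h.top_notMem hC hc hM hx ht (c ▸ hz.1)

/-- End points far from the other limit points. -/
def far (F : Type) [MetricSpace F] (m : ℕ) : Set F :=
  closure (En F) ∩ {x | 1 / ((m : ℝ) + 1) ≤ infDist x (Yy F)}

theorem far_compact (h : MF F t d o) (m : ℕ) : IsCompact (far F m) := by
  have := h.compact
  exact (isClosed_closure.inter (isClosed_le continuous_const (continuous_infDist_pt _))).isCompact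

theorem far_sub (m : ℕ) : far F m ⊆ En F := by
  rintro x ⟨h1, h2⟩
  by_contra h3
  rw [mem_ofPred_eq, infDist_zero_of_mem (show x ∈ Yy F from ⟨h1, h3⟩)] at h2
  exact absurd h2 (not_le.2 (by positivity))

theorem infDist_pos (h : MF F t d o) {e : F} (he : IsEndpoint e) : 0 < infDist e (Yy F) :=
  (h.closed_Y.notMem_iff_infDist_pos ⟨t, h.top_mem_Y⟩).1 fun c => c.2 he

theorem exists_far (h : MF F t d o) {e : F} (he : IsEndpoint e) : ∃ m, e ∈ far F m := by
  obtain ⟨m, hm⟩ := exists_nat_one_div_lt (h.infDist_pos he)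
  exact ⟨m, subset_closure he, hm.le⟩

/-- Marked intervals near that of `e` belong to a compact set of end points. -/
def Good (e : F) : Prop := ∃ K, IsCompact K ∧ K ⊆ En F ∧ ∀ z, h.vv e ∈ seg t z →
  z ∈ seg t (h.ww e) → ∀ᶠ y in 𝓝 z, ∀ e', IsEndpoint e' → y ∈ Yy F → y ∈ seg t e' → e' ∈ K

theorem J_conn {e : F} (he : IsEndpoint e) :
    IsPreconnected {z | h.vv e ∈ seg t z ∧ z ∈ seg t (h.ww e)} := by
  have b1 := h.A_pos he
  have b3 := h.B_lt he
  have h1 : {z | h.vv e ∈ seg t z ∧ z ∈ seg t (h.ww e)} = h.low e '' Icc (h.A e) (h.B e) := by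
    ext z
    constructor
    · rintro ⟨a1, a2⟩
      exact ⟨_, ⟨h.ht_le a1, h.ht_le a2⟩, h.low_eq (h.trans a2 (h.ww_le he)) rfl⟩
    · rintro ⟨r, ⟨a1, a2⟩, rfl⟩
      have := h.ht_low (y := e) (r := r) (by linarith) (by linarith)
      exact ⟨h.le_of_ht (h.vv_le he) (h.low_mem _ _) (this.symm ▸ a1),
        h.le_of_ht (h.low_mem _ _) (h.ww_le he) (this.symm ▸ a2)⟩
  rw [h1]
  exact isPreconnected_Icc.image _ ((h.low_contOn e).mono (Icc_subset_Icc b1.le b3.le))

theorem exists_good : ∃ e, IsEndpoint e ∧ h.Good e := by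
  have := h.compact
  have : CompactSpace (Yy F) := isCompact_iff_compactSpace.1 h.closed_Y.isCompact
  let π : Yy F → ConnectedComponents (Yy F) := ConnectedComponents.mk
  have hπ : Continuous π := ConnectedComponents.continuous_coe
  let J : ℕ → Set F := fun m => {y | ∃ e ∈ far F m, h.vv e ∈ seg t y ∧ y ∈ seg t (h.ww e)}
  have hJ : ∀ m, IsClosed (J m) := fun m => IsSeqClosed.isClosed fun y z hy hz => by
    choose e he h1 h2 using hy
    obtain ⟨e', he', φ, hφ, hl⟩ := (h.far_compact m).tendsto_subseq he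
    have hl' : Tendsto (e ∘ φ) atTop (𝓝[En F] e') :=
      tendsto_nhdsWithin_iff.2 ⟨hl, Eventually.of_forall fun n => far_sub m (he _)⟩
    have hz' := hz.comp hφ.tendsto_atTop
    exact ⟨e', he', h.le_lim ((h.cont_vw.1 e' (far_sub m he')).tendsto.comp hl') hz'
      (Eventually.of_forall fun n => h1 _), h.le_lim hz'
      ((h.cont_vw.2 e' (far_sub m he')).tendsto.comp hl') (Eventually.of_forall fun n => h2 _)⟩
  have comp : ∀ y y' : Yy F, π y = π y' → y.1 ≠ t → y'.1 ≠ t ∧ ∀ e e', IsEndpoint e →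
      IsEndpoint e' → y.1 ∈ seg t e → y'.1 ∈ seg t e' → e = e' := by
    intro y y' hyy ht
    have c1 : IsCompact (Subtype.val '' connectedComponent y') :=
      isClosed_connectedComponent.isCompact.image continuous_subtype_val
    have c2 : IsPreconnected (Subtype.val '' connectedComponent y') :=
      isPreconnected_connectedComponent.image _ continuous_subtype_val.continuousOn
    have c3 : Subtype.val '' connectedComponent y' ⊆ closure (En F) := by
      rintro _ ⟨z, -, rfl⟩; exact z.2.1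
    have c4 : y.1 ∈ Subtype.val '' connectedComponent y' :=
      ⟨y, ConnectedComponents.coe_eq_coe'.1 hyy, rfl⟩
    have c5 : y'.1 ∈ Subtype.val '' connectedComponent y' := ⟨y', mem_connectedComponent, rfl⟩
    exact ⟨fun c => h.top_notMem c1 c2 c3 c4 ht (c ▸ c5),
      fun e e' he he' => h.same_blade c1 c2 c3 c4 c5 ht he he'⟩
  let t' : Yy F := ⟨t, h.top_mem_Y⟩
  have hd := dense_iUnion_interior_of_closed
    (f := fun m => π '' (Subtype.val ⁻¹' J m) ∪ {π t'}) (fun m =>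
      (((hJ m).preimage continuous_subtype_val).isCompact.image hπ).isClosed.union
        isClosed_singleton) (by
      refine eq_univ_of_forall fun c => ?_
      obtain ⟨y, rfl⟩ := ConnectedComponents.surjective_coe c
      by_cases hy : y.1 = t
      · exact mem_iUnion.2 ⟨0, Or.inr (congrArg π (Subtype.ext hy))⟩
      · obtain ⟨m, hm⟩ := h.exists_far (h.bl_end y.1)
        exact mem_iUnion.2 ⟨m, Or.inl ⟨y, ⟨_, hm, h.between y.2 hy (h.bl_end _) (h.le_bl _)⟩, rfl⟩⟩)
  have he0 := h.bl_end t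
  obtain ⟨c, hc1, hc2⟩ := hd.inter_open_nonempty {π t'}ᶜ isOpen_compl_singleton
    ⟨π ⟨_, h.mem_Y he0 (h.self_mem _) (h.mk' he0).1.1⟩,
      fun c => (comp _ _ c (h.mk' he0).1.2.2.1).1 rfl⟩
  obtain ⟨y, rfl⟩ := ConnectedComponents.surjective_coe c
  obtain ⟨m, hm⟩ := mem_iUnion.1 hc2
  have hy : y.1 ≠ t := fun c => hc1 (congrArg π (Subtype.ext c))
  have he := h.bl_end y.1
  refine ⟨_, he, far F m, h.far_compact m, far_sub m, fun z z1 z2 => ?_⟩
  let z' : Yy F := ⟨z, h.mem_Y he z1 z2⟩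
  have hz : π z' = π y := by
    have c1 : IsPreconnected (Subtype.val ⁻¹' {z | h.vv (h.bl y.1) ∈ seg t z ∧
        z ∈ seg t (h.ww (h.bl y.1))} : Set (Yy F)) := by
      rw [← IsInducing.subtypeVal.isPreconnected_image, image_preimage_eq_of_subset]
      · exact h.J_conn he
      · exact fun w hw => ⟨⟨w, h.mem_Y he hw.1 hw.2⟩, rfl⟩
    exact ConnectedComponents.coe_eq_coe'.2 (c1.subset_connectedComponent
      (h.between y.2 hy he (h.le_bl _)) (show z' ∈ _ from ⟨z1, z2⟩))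
  have h1 : π ⁻¹' (interior (π '' (Subtype.val ⁻¹' J m) ∪ {π t'}) ∩ {π t'}ᶜ) ∈ 𝓝 z' :=
    ((isOpen_interior.inter isOpen_compl_singleton).preimage hπ).mem_nhds
      (by rw [mem_preimage, hz]; exact ⟨hm, hc1⟩)
  rw [nhds_subtype, mem_comap] at h1
  obtain ⟨W, hW, hW'⟩ := h1
  filter_upwards [hW] with w hw e' he' hwY hwe
  obtain ⟨a1, a2⟩ := hW' (show (⟨w, hwY⟩ : Yy F) ∈ _ from hw)
  obtain ⟨w', ⟨e'', b1, b2, b3⟩, b4⟩ := (interior_subset a1).resolve_right a2
  have b5 : w ≠ t := fun c => a2 (congrArg π (Subtype.ext c))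
  rw [(comp _ _ b4.symm b5).2 e' e'' he' (far_sub m b1) hwe (h.trans b3 (h.ww_le (far_sub m b1)))]
  exact b1

theorem good {e : F} (he : IsEndpoint e) : h.Good e := by
  obtain ⟨e₀, he₀, K, k1, k2, k3⟩ := h.exists_good
  obtain ⟨g, rfl⟩ := h.homog e₀ e he₀ he
  have e0 := top_map h.fan h.fan g
  have hs : ∀ x y, g x ∈ seg t (g y) ↔ x ∈ seg t y := fun x y => by
    conv_lhs => rw [← e0]
    exact seg_map_iff g
  refine ⟨g '' K, k1.image g.continuous, ?_, fun z z1 z2 => ?_⟩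
  · rintro _ ⟨x, hx, rfl⟩; exact end_map g (k2 hx)
  obtain ⟨z, rfl⟩ := g.surjective z
  rw [(h.map_vw g he₀).1, hs] at z1
  rw [(h.map_vw g he₀).2, hs] at z2
  rw [← g.map_nhds_eq, eventually_map]
  filter_upwards [k3 z z1 z2] with y hy e' he' a1 a2
  obtain ⟨e', rfl⟩ := g.surjective e'
  exact ⟨e', hy e' ((end_map_iff g).1 he')
    ⟨(cl_map_iff g).1 a1.1, fun c => a1.2 (end_map g c)⟩ ((hs _ _).1 a2), rfl⟩

theorem null {ι : Type} {l : Filter ι} {e : ι → F} (he : ∀ i, IsEndpoint (e i))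
    (hl : ∀ K, IsCompact K → K ⊆ En F → ∀ᶠ i in l, e i ∉ K) :
    Tendsto (fun i => h.ww (e i)) l (𝓝 t) := by
  refine tendsto_iff_ultrafilter _ _ _ |>.2 fun 𝓤 hU => ?_
  obtain ⟨z, hz⟩ := h.exists_lim 𝓤 fun i => h.ww (e i)
  by_cases ht : z = t
  · rwa [ht] at hz
  have h1 := h.closed_Y.mem_of_tendsto hz (Eventually.of_forall fun i => h.ww_mem_Y (he i))
  obtain ⟨K, k1, k2, k3⟩ := h.good (h.bl_end z)
  obtain ⟨a1, a2⟩ := h.between h1 ht (h.bl_end z) (h.le_bl z)
  obtain ⟨i, b1, b2⟩ := ((hz.eventually (k3 z a1 a2)).and ((hl K k1 k2).filter_mono hU)).exists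
  exact absurd (b1 _ (he i) (h.ww_mem_Y (he i)) (h.ww_le (he i))) b2

theorem totDisc (h : MF F t d o) : IsTotallyDisconnected (En F) := by
  intro S hS hc x hx y hy
  have := h.compact
  exact h.same_blade isClosed_closure.isCompact hc.closure (closure_mono hS) (subset_closure hx)
    (subset_closure hy) ((h.end_iff x).1 (hS hx)).1 (hS hx) (hS hy) (h.self_mem x) (h.self_mem y)

end MF

end Pool.Agent.Lib.MP_56c207_gt.Cl
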