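import Pool.Agent.Lib.MP_56c207_gt.Model

set_option autoImplicit false

namespace Pool.Agent.Lib.MP_56c207_gt.Cl

open Set Filter Topology Metric

theorem brouwer {K : Type} [MetricSpace K] [CompactSpace K] [TotallyDisconnectedSpace K]
    [Nonempty K] (hp : ∀ x : K, x ∈ closure ({x}ᶜ : Set K)) : Nonempty ((ℕ → Bool) ≃ₜ K) := by
  classical
  have : Countable (TopologicalSpace.Clopens K) :=
    TopologicalSpace.Clopens.countable_iff_secondCountable.2 inferInstance
  obtain ⟨B, hB⟩ := exists_surjective_nat (TopologicalSpace.Clopens K)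
  have sep : ∀ x y : K, x ≠ y → ∃ V : Set K, IsClopen V ∧ x ∈ V ∧ y ∉ V := fun x y hxy =>
    exists_isClopen_of_totally_separated hxy
  have split : ∀ (n : ℕ) (U : {U : Set K // IsClopen U ∧ U.Nonempty}), ∃ V : Set K, IsClopen V ∧
      (U.1 ∩ V).Nonempty ∧ (U.1 ∩ Vᶜ).Nonempty ∧ ∀ x ∈ U.1, ∀ y ∈ U.1, (x ∈ V ↔ y ∈ V) →
        x ∈ (B n : Set K) → y ∈ (B n : Set K) := by
    rintro n ⟨U, hU, x, hx⟩
    by_cases h : (U ∩ B n).Nonempty ∧ (U ∩ (B n : Set K)ᶜ).Nonempty
    · exact ⟨B n, (B n).isClopen, h.1, h.2, fun _ _ _ _ h => h.1⟩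
    · obtain ⟨y, hy, hxy⟩ := mem_closure_iff.1 (hp x) U hU.isOpen hx
      obtain ⟨V, h1, h2, h3⟩ := sep x y (Ne.symm hxy)
      refine ⟨V, h1, ⟨x, hx, h2⟩, ⟨y, hy, h3⟩, fun u hu v hv _ h4 => ?_⟩
      by_contra h5
      exact h ⟨⟨u, hu, h4⟩, ⟨v, hv, h5⟩⟩
  choose V hV h1 h2 h3 using split
  let step : ℕ → {U : Set K // IsClopen U ∧ U.Nonempty} → Bool →
      {U : Set K // IsClopen U ∧ U.Nonempty} := fun n U c =>
    if c then ⟨U.1 ∩ V n U, U.2.1.inter (hV n U), h1 n U⟩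
    else ⟨U.1 ∩ (V n U)ᶜ, U.2.1.inter (hV n U).compl, h2 n U⟩
  have hstep : ∀ n U c x, x ∈ (step n U c).1 ↔ x ∈ U.1 ∧ (x ∈ V n U ↔ c = true) := by
    intro n U c x
    cases c <;> simp [step]
  clear_value step
  obtain ⟨cell, hc0, hcell⟩ : ∃ cell : (ℕ → Bool) → ℕ → {U : Set K // IsClopen U ∧ U.Nonempty},
      (∀ ω, cell ω 0 = ⟨univ, isClopen_univ, univ_nonempty⟩) ∧
      ∀ ω n, cell ω (n + 1) = step n (cell ω n) (ω n) :=
    ⟨fun ω n => Nat.rec ⟨univ, isClopen_univ, univ_nonempty⟩ (fun n U => step n U (ω n)) n,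
      fun _ => rfl, fun _ _ => rfl⟩
  have hex : ∀ ω, (⋂ n, (cell ω n).1).Nonempty := fun ω =>
    IsCompact.nonempty_iInter_of_sequence_nonempty_isCompact_isClosed _
      (fun n x hx => ((hstep _ _ _ _).1 (hcell ω n ▸ hx)).1) (fun n => (cell ω n).2.2)
      (cell ω 0).2.1.isClosed.isCompact fun n => (cell ω n).2.1.isClosed
  choose g hg using hex
  replace hg : ∀ ω n, g ω ∈ (cell ω n).1 := fun ω => mem_iInter.1 (hg ω)
  have small : ∀ ω n x y, x ∈ (cell ω (n + 1)).1 → y ∈ (cell ω (n + 1)).1 → x ∈ (B n : Set K) →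
      y ∈ (B n : Set K) := fun ω n x y hx hy => by
    rw [hcell, hstep] at hx hy
    exact h3 n _ x hx.1 y hy.1 (hx.2.trans hy.2.symm)
  have lc : ∀ n, IsLocallyConstant fun ω => cell ω n := fun n => by
    induction n with
    | zero => simp only [hc0]; exact IsLocallyConstant.const _
    | succ n ih =>
      simp only [hcell]
      exact ih.comp₂ ((IsLocallyConstant.iff_continuous _).2 (continuous_apply n)) (step n)
  have hc : Continuous g := by
    refine isTopologicalBasis_isClopen.continuous_iff.2 fun U hU => isOpen_iff_mem_nhds.2 ?_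
    intro ω hω
    obtain ⟨n, hn⟩ := hB ⟨U, hU⟩
    have hn' : (B n : Set K) = U := by rw [hn]; rfl
    filter_upwards [(lc (n + 1)).eventually_eq ω] with ω' h4
    exact hn' ▸ small ω n _ _ (hg ω _) (h4 ▸ hg ω' (n + 1)) (hn' ▸ hω)
  have hi : Function.Injective g := fun ω ω' h4 => by
    have key : ∀ n, cell ω n = cell ω' n → ω n = ω' n := fun n h5 => by
      have a1 := hg ω (n + 1)
      have a2 := hg ω' (n + 1)
      rw [hcell, hstep] at a1 a2
      rw [← h4, ← h5] at a2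
      exact Bool.eq_iff_iff.2 (a1.2.symm.trans a2.2)
    have key2 : ∀ n, cell ω n = cell ω' n := fun n => by
      induction n with
      | zero => rw [hc0, hc0]
      | succ n ih => rw [hcell, hcell, key n ih, ih]
    exact funext fun n => key n (key2 n)
  have hs : Function.Surjective g := fun x => by
    obtain ⟨d, hd⟩ : ∃ d : ℕ → {U : Set K // IsClopen U ∧ U.Nonempty} → Bool,
        ∀ n U, x ∈ V n U ↔ d n U = true := ⟨fun n U => decide (x ∈ V n U), by simp⟩
    obtain ⟨c, c0, c1⟩ : ∃ c : ℕ → {U : Set K // IsClopen U ∧ U.Nonempty},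
        c 0 = ⟨univ, isClopen_univ, univ_nonempty⟩ ∧ ∀ n, c (n + 1) = step n (c n) (d n (c n)) :=
      ⟨fun n => Nat.rec ⟨univ, isClopen_univ, univ_nonempty⟩ (fun n U => step n U (d n U)) n,
        rfl, fun _ => rfl⟩
    obtain ⟨ω, hω⟩ : ∃ ω : ℕ → Bool, ∀ n, ω n = d n (c n) := ⟨_, fun _ => rfl⟩
    have e1 : ∀ n, cell ω n = c n ∧ x ∈ (c n).1 := fun n => by
      induction n with
      | zero => rw [hc0, c0]; exact ⟨rfl, mem_univ _⟩
      | succ n ih => rw [hcell, c1, ih.1, hω]; exact ⟨rfl, (hstep _ _ _ x).2 ⟨ih.2, hd _ _⟩⟩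
    refine ⟨ω, ?_⟩
    by_contra h4
    obtain ⟨U, hU, a1, a2⟩ := sep _ _ h4
    obtain ⟨n, hn⟩ := hB ⟨U, hU⟩
    have hn' : (B n : Set K) = U := by rw [hn]; rfl
    exact a2 (hn' ▸ small ω n _ _ (hg _ _) ((e1 (n + 1)).1 ▸ (e1 (n + 1)).2) (hn' ▸ a1))
  exact ⟨Continuous.homeoOfEquivCompactToT2 (f := Equiv.ofBijective g ⟨hi, hs⟩) hc⟩

theorem exists_inj {S S' : Type} [Countable S] (C : S → Set S') (hC : ∀ x, (C x).Infinite) :
    ∃ φ : S → S', Function.Injective φ ∧ ∀ x, φ x ∈ C x := by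
  classical
  obtain ⟨r, hr⟩ := exists_injective_nat S
  choose T h1 h2 using fun x => (hC x).exists_subset_card_eq (r x + 1)
  obtain ⟨φ, a1, a2⟩ := (Finset.all_card_le_biUnion_card_iff_exists_injective T).1 fun s => by
    rcases s.eq_empty_or_nonempty with rfl | hs
    · simp
    obtain ⟨x, hx, hm⟩ := s.exists_max_image r hs
    calc s.card ≤ (Finset.range (r x + 1)).card :=
          Finset.card_le_card_of_injOn r (fun y hy => by simpa [Nat.lt_succ_iff] using hm y hy)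
            hr.injOn
      _ = (T x).card := by rw [Finset.card_range, h2]
      _ ≤ _ := Finset.card_le_card (Finset.subset_biUnion_of_mem T hx)
  exact ⟨φ, a1, fun x => h1 x (a2 x)⟩

theorem finite_inv {S : Type} {r : S → ℕ} (hr : Function.Injective r) {ε : ℝ} (hε : 0 < ε) :
    {x | ε < 1 / ((r x : ℝ) + 1)}.Finite := by
  have h1 := (tendsto_one_div_add_atTop_nhds_zero_nat (𝕜 := ℝ)).comp
    (Nat.cofinite_eq_atTop ▸ hr.tendsto_cofinite)
  have h2 := h1.eventually (gt_mem_nhds hε)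
  exact (eventually_cofinite.1 h2).subset fun x hx => not_lt.2 (le_of_lt hx)

theorem exists_match {S S' Z : Type} [Countable S] [Countable S'] [PseudoMetricSpace Z]
    (p : S → Z) (p' : S' → Z) (h : ∀ z, ∀ ε > 0, {x | dist (p x) z < ε}.Infinite)
    (h' : ∀ z, ∀ ε > 0, {x | dist (p' x) z < ε}.Infinite) :
    ∃ σ : S ≃ S', ∀ ε > 0, {x | ε ≤ dist (p x) (p' (σ x))}.Finite := by
  obtain ⟨r, hr⟩ := exists_injective_nat S
  obtain ⟨r', hr'⟩ := exists_injective_nat S'
  obtain ⟨φ, a1, a2⟩ := exists_inj _ fun x => h' (p x) (1 / ((r x : ℝ) + 1)) (by positivity)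
  obtain ⟨ψ, b1, b2⟩ := exists_inj _ fun x => h (p' x) (1 / ((r' x : ℝ) + 1)) (by positivity)
  obtain ⟨σ, c1, c2⟩ := Function.Embedding.schroeder_bernstein_of_rel a1 b1
    (fun x y => dist (p x) (p' y) < 1 / ((r x : ℝ) + 1) ∨ dist (p x) (p' y) < 1 / ((r' y : ℝ) + 1))
    (fun x => Or.inl (dist_comm (p x) _ ▸ a2 x)) (fun y => Or.inr (b2 y))
  refine ⟨Equiv.ofBijective σ c1, fun ε hε => ((finite_inv hr hε).union
    (finite_inv (hr'.comp c1.1) hε)).subset fun x hx => ?_⟩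
  rcases c2 x with c | c
  · exact Or.inl (lt_of_le_of_lt hx c)
  · exact Or.inr (lt_of_le_of_lt hx c)

theorem exists_fix {α β : Type} [Nonempty β] (r : α → ℕ) (G : (α → β) → α → β)
    (hG : ∀ u v j, (∀ i, r i < r j → u i = v i) → G u j = G v j) : ∃ f, ∀ j, f j = G f j := by
  classical
  have wf : WellFounded fun i j => r i < r j := InvImage.wf r Nat.lt_wfRel.wf
  refine ⟨wf.fix fun j rec => G (fun i => if h : r i < r j then rec i h else Classical.arbitrary β) j,
    fun j => ?_⟩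
  rw [wf.fix_eq]
  exact hG _ _ _ fun i hi => dif_pos hi

theorem exists_tree {α α' : Type} [Nonempty α] [Nonempty α'] (π : α → Option α)
    (π' : α' → Option α') (r : α → ℕ) (r' : α' → ℕ) (hr : ∀ i j, π j = some i → r i < r j)
    (hr' : ∀ i j, π' j = some i → r' i < r' j)
    (P : ∀ o o', ({j // π j = o} ≃ {j // π' j = o'}) → Prop)
    (hP : ∀ o o', o.isSome = o'.isSome → ∃ σ, P o o' σ) :
    ∃ f : α ≃ α', ∀ o, ∃ σ, P o (o.map f) σ ∧ ∀ j, f j.1 = (σ j).1 := by
  classical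
  choose σ hσ using hP
  let s : Option α → Option α' → α → α' := fun o o' j =>
    if h : o.isSome = o'.isSome ∧ π j = o then (σ o o' h.1 ⟨j, h.2⟩).1 else Classical.arbitrary _
  let s' : Option α → Option α' → α' → α := fun o o' j =>
    if h : o.isSome = o'.isSome ∧ π' j = o' then ((σ o o' h.1).symm ⟨j, h.2⟩).1
    else Classical.arbitrary _
  have hs : ∀ o o' (h : o.isSome = o'.isSome) (j : {j // π j = o}), s o o' j = (σ o o' h j).1 :=
    fun o o' h j => dif_pos ⟨h, j.2⟩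
  have hs' : ∀ o o' (h : o.isSome = o'.isSome) (j : {j // π' j = o'}),
      s' o o' j = ((σ o o' h).symm j).1 := fun o o' h j => dif_pos ⟨h, j.2⟩
  obtain ⟨f, hf⟩ := exists_fix r (fun u j => s (π j) ((π j).map u) j) fun u v j h => by
    rw [Option.map_congr fun i hi => h i (hr i j hi)]
  obtain ⟨g, hg⟩ := exists_fix r' (fun u j => s' ((π' j).map u) (π' j) j) fun u v j h => by
    rw [Option.map_congr fun i hi => h i (hr' i j hi)]
  have hf' : ∀ o (j : {j // π j = o}), f j = (σ o (o.map f) (by simp) j).1 := by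
    rintro o ⟨j, rfl⟩
    rw [← hs]; exact hf j
  have hg' : ∀ o (j : {j // π' j = o}), g j = ((σ (o.map g) o (by simp)).symm j).1 := by
    rintro o ⟨j, rfl⟩
    rw [← hs']; exact hg j
  have e1 : ∀ j, g (f j) = j := fun j => by
    induction j using (InvImage.wf r Nat.lt_wfRel.wf).induction with
    | h j ih =>
      have a1 : ((π j).map f).map g = π j := by
        rw [Option.map_map, Option.map_congr (f := g ∘ f) (g := id) fun i hi => ih i (hr i j hi)]
        simp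
      rw [hf' _ ⟨j, rfl⟩, hg, (σ _ _ _ ⟨j, rfl⟩).2, a1, hs' _ _ (by simp), Equiv.symm_apply_apply]
  have e2 : ∀ j, f (g j) = j := fun j => by
    induction j using (InvImage.wf r' Nat.lt_wfRel.wf).induction with
    | h j ih =>
      have a1 : ((π' j).map g).map f = π' j := by
        rw [Option.map_map, Option.map_congr (f := f ∘ g) (g := id) fun i hi => ih i (hr' i j hi)]
        simp
      rw [hg' _ ⟨j, rfl⟩, hf, ((σ _ _ _).symm ⟨j, rfl⟩).2, a1, hs _ _ (by simp),
        Equiv.apply_symm_apply]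
  exact ⟨⟨f, g, e1, e2⟩, fun o => ⟨_, hσ o (o.map f) (by simp), hf' o⟩⟩

/-- The affine map of `[b,1]` onto `[0,1]`, extended by zero. -/
noncomputable def rp (b s : unitInterval) : unitInterval :=
  projIcc 0 1 zero_le_one ((s - b) / (1 - b))

/-- A normal form: pieces `K × [0,1]`, each converging to a marked point of a parent piece. -/
structure NF (F : Type) [MetricSpace F] (K : Type) [MetricSpace K] (a b : unitInterval) where
  t : F
  α : Type
  cnt : Countable α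
  γ : α → K → unitInterval → F
  π : α → Option α
  pos : α → K × Icc a b
  rk : α → ℕ
  rk_lt : ∀ i j, π j = some i → rk i < rk j
  cover : ∀ x, ∃ j k s, x = γ j k s
  zero : ∀ j k, γ j k 0 = t
  inj : ∀ j k s j' k' s', γ j k s = γ j' k' s' → s ≠ 0 → j = j' ∧ k = k' ∧ s = s'
  cont : ∀ j, Continuous fun p : K × unitInterval => γ j p.1 p.2
  lim_top : ∀ {ι : Type} (l : Filter ι) (j : ι → α) (k : ι → K) (s : ι → unitInterval),
    Tendsto j l cofinite → (∀ i, ∀ᶠ n in l, π (j n) ≠ some i) →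
      Tendsto (fun n => γ (j n) (k n) (s n)) l (𝓝 t)
  lim_par : ∀ {ι : Type} (l : Filter ι) (j : ι → α) (k : ι → K) (s : ι → unitInterval) i z s₀,
    Tendsto j l cofinite → (∀ᶠ n in l, π (j n) = some i) → Tendsto (fun n => pos (j n)) l (𝓝 z) →
      Tendsto s l (𝓝 s₀) → Tendsto (fun n => γ (j n) (k n) (s n)) l (𝓝 (γ i z.1 (rp b s₀ * z.2)))
  orph : {j | π j = none}.Infinite
  dense : ∀ i z, ∀ ε > 0, {j | π j = some i ∧ dist (pos j) z < ε}.Infinite

theorem ultra_lim {ι X : Type} [TopologicalSpace X] [CompactSpace X] (𝓤 : Ultrafilter ι)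
    (x : ι → X) : ∃ z, Tendsto x 𝓤 (𝓝 z) := by
  obtain ⟨z, -, hz⟩ := isCompact_univ.ultrafilter_le_nhds (𝓤.map x) (by simp)
  exact ⟨z, hz⟩

theorem NF.homeo {F G K : Type} [MetricSpace F] [MetricSpace G] [MetricSpace K] [CompactSpace K]
    [CompactSpace F] {a b : unitInterval} (N : NF F K a b) (M : NF G K a b) :
    Nonempty (F ≃ₜ G) := by
  have := N.cnt
  have := M.cnt
  have : Nonempty N.α := ⟨N.orph.nonempty.choose⟩
  have : Nonempty M.α := ⟨M.orph.nonempty.choose⟩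
  have : CompactSpace (Icc a b) := isCompact_iff_compactSpace.1 isClosed_Icc.isCompact
  obtain ⟨f, hf⟩ := exists_tree N.π M.π N.rk M.rk N.rk_lt M.rk_lt
    (fun o o' σ => o.isSome → ∀ ε > 0, {x | ε ≤ dist (N.pos x.1) (M.pos (σ x).1)}.Finite) (by
      rintro (_ | i) (_ | i') h
      · have := N.orph.to_subtype
        have := M.orph.to_subtype
        obtain ⟨σ⟩ : Nonempty ({j | N.π j = none} ≃ {j | M.π j = none}) := nonempty_equiv_of_countable
        exact ⟨σ, fun h => absurd h (by simp)⟩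
      · exact absurd h (by simp)
      · exact absurd h (by simp)
      · obtain ⟨σ, hσ⟩ := exists_match (fun x : {j // N.π j = some i} => N.pos x.1)
          (fun x : {j // M.π j = some i'} => M.pos x.1)
          (fun z ε hε => Infinite.of_image Subtype.val ((N.dense i z ε hε).mono
            fun j hj => ⟨⟨j, hj.1⟩, hj.2, rfl⟩))
          (fun z ε hε => Infinite.of_image Subtype.val ((M.dense i' z ε hε).mono
            fun j hj => ⟨⟨j, hj.1⟩, hj.2, rfl⟩))
        exact ⟨σ, fun _ => hσ⟩)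
  have hπ : ∀ j, M.π (f j) = (N.π j).map f := fun j => by
    obtain ⟨σ, -, h⟩ := hf (N.π j)
    rw [h ⟨j, rfl⟩]; exact (σ _).2
  have hpos : ∀ i, ∀ ε > 0, {j | N.π j = some i ∧ ε ≤ dist (N.pos j) (M.pos (f j))}.Finite := by
    intro i ε hε
    obtain ⟨σ, h1, h⟩ := hf (some i)
    exact ((h1 rfl ε hε).image Subtype.val).subset fun j hj =>
      ⟨⟨j, hj.1⟩, by rw [mem_ofPred_eq, ← h]; exact hj.2, rfl⟩
  choose j k s hx using N.cover
  have hg : ∀ i κ σ, M.γ (f (j (N.γ i κ σ))) (k (N.γ i κ σ)) (s (N.γ i κ σ)) = M.γ (f i) κ σ := by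
    intro i κ σ
    by_cases h1 : σ = 0
    · by_cases h2 : s (N.γ i κ σ) = 0
      · rw [h2, h1, M.zero, M.zero]
      · exact absurd ((N.inj _ _ _ _ _ _ (hx _).symm h2).2.2.trans h1) h2
    · obtain ⟨a1, a2, a3⟩ := N.inj _ _ _ _ _ _ (hx (N.γ i κ σ)) h1
      rw [← a1, ← a2, ← a3]
  have hb : Function.Bijective fun x => M.γ (f (j x)) (k x) (s x) := by
    refine ⟨fun x y h => ?_, fun y => ?_⟩
    · by_cases h1 : s x = 0
      · by_cases h2 : s y = 0
        · rw [hx x, hx y, h1, h2, N.zero, N.zero]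
        · exact absurd ((M.inj _ _ _ _ _ _ h.symm h2).2.2.trans h1) h2
      · obtain ⟨a1, a2, a3⟩ := M.inj _ _ _ _ _ _ h h1
        rw [hx x, hx y, f.injective a1, a2, a3]
    · obtain ⟨i, κ, σ, rfl⟩ := M.cover y
      exact ⟨N.γ (f.symm i) κ σ, by simp only [hg, Equiv.apply_symm_apply]⟩
  refine ⟨Continuous.homeoOfEquivCompactToT2 (f := Equiv.ofBijective _ hb) ?_⟩
  refine continuous_iff_ultrafilter.2 fun x 𝓤 hU => ?_
  suffices H : ∃ i κ σ, Tendsto (fun y => N.γ (j y) (k y) (s y)) 𝓤 (𝓝 (N.γ i κ σ)) ∧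
      Tendsto (fun y => M.γ (f (j y)) (k y) (s y)) 𝓤 (𝓝 (M.γ (f i) κ σ)) by
    obtain ⟨i, κ, σ, h1, h2⟩ := H
    have h3 : x = N.γ i κ σ := tendsto_nhds_unique (f := id) hU (h1.congr fun y => (hx y).symm)
    rw [← hg, ← h3] at h2
    exact h2
  obtain ⟨κ, hκ⟩ := ultra_lim 𝓤 k
  obtain ⟨σ, hσ⟩ := ultra_lim 𝓤 s
  rcases Data.ultra_cases 𝓤 j with h0 | ⟨i, hi⟩
  · have h0' : Tendsto (fun y => f (j y)) 𝓤 cofinite := f.injective.tendsto_cofinite.comp h0
    by_cases h1 : ∀ i, ∀ᶠ y in (𝓤 : Filter F), N.π (j y) ≠ some i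
    · refine ⟨j x, κ, 0, ?_, ?_⟩
      · rw [N.zero]; exact N.lim_top _ j k s h0 h1
      · rw [M.zero]
        refine M.lim_top _ _ k s h0' fun i => (h1 (f.symm i)).mono fun y hy c => hy ?_
        rw [hπ, Option.map_eq_some_iff] at c
        obtain ⟨i', c1, rfl⟩ := c
        rw [c1, Equiv.symm_apply_apply]
    · obtain ⟨i, hi⟩ := not_forall.1 h1
      have h2 : ∀ᶠ y in (𝓤 : Filter F), N.π (j y) = some i :=
        (Ultrafilter.eventually_not.2 hi).mono fun y hy => not_not.1 hy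
      obtain ⟨z, hz⟩ := ultra_lim 𝓤 fun y => N.pos (j y)
      refine ⟨i, z.1, _, N.lim_par _ j k s i z σ h0 h2 hz hσ,
        M.lim_par _ _ k s (f i) z σ h0' (h2.mono fun y hy => by rw [hπ, hy]; rfl) ?_ hσ⟩
      refine hz.congr_dist (Metric.tendsto_nhds.2 fun ε hε => ?_)
      filter_upwards [h2, h0.eventually (hpos i ε hε).eventually_cofinite_notMem] with y a1 a2
      rw [Real.dist_eq, sub_zero, abs_of_nonneg dist_nonneg]
      exact not_le.1 fun c => a2 ⟨a1, c⟩
  · refine ⟨i, κ, σ, (((N.cont i).tendsto (κ, σ)).comp (hκ.prodMk_nhds hσ)).congr' ?_,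
      (((M.cont (f i)).tendsto (κ, σ)).comp (hκ.prodMk_nhds hσ)).congr' ?_⟩ <;>
    filter_upwards [hi] with y hy <;> simp [hy]

end Pool.Agent.Lib.MP_56c207_gt.Cl
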