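import Pool.Agent.Lib.MP_56c207_gt.C2
import Pool.Agent.Lib.MP_56c207_gt.C3

set_option autoImplicit false

namespace Pool.Agent.Lib.MP_56c207_gt.Cl

open Set Filter Topology Metric

variable {F : Type} [MetricSpace F] {t : F} {d o : Prop}

/-- A partition of the end points into small copies of `K`. -/
structure Pieces (F : Type) [MetricSpace F] (K : Type) [MetricSpace K] where
  α : Type
  cnt : Countable α
  ep : α → K → F
  isEnd : ∀ j k, IsEndpoint (ep j k)
  cont : ∀ j, Continuous (ep j)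
  inj : ∀ j k j' k', ep j k = ep j' k' → j = j' ∧ k = k'
  cover : ∀ e, IsEndpoint e → ∃ j k, e = ep j k
  fin : ∀ C, IsCompact C → C ⊆ En F → {j | ∃ k, ep j k ∈ C}.Finite
  small : ∀ j k k', dist (ep j k) (ep j k') ≤ infDist (ep j k) (MF.Yy F)

theorem MF.pieces (h : MF F t d o) {K : Type} [MetricSpace K]
    (hK : ∀ U : Set (En F), IsCompact U → IsClopen U → U.Nonempty → (¬ o → U.Subsingleton) →
      Nonempty (K ≃ₜ U)) : Nonempty (Pieces F K) := by
  have := h.compact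
  have : LocallyCompactSpace (En F) := by
    refine IsLocallyClosed.locallyCompactSpace ⟨(MF.Yy F)ᶜ, closure (En F),
      h.closed_Y.isOpen_compl, isClosed_closure, ?_⟩
    ext x
    exact ⟨fun hx => ⟨fun c => c.2 hx, subset_closure hx⟩, fun hx => by_contra fun c => hx.1 ⟨hx.2, c⟩⟩
  have : TotallyDisconnectedSpace (En F) := totallyDisconnectedSpace_subtype_iff.2 h.totDisc
  have hU : ∀ e : En F, ∃ U : Set (En F), IsClopen U ∧ e ∈ U ∧ IsCompact U ∧
      (¬ o → U.Subsingleton) ∧ ∀ x ∈ U, ∀ y ∈ U, dist x.1 y.1 ≤ infDist x.1 (MF.Yy F) := by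
    intro e
    obtain ⟨N, hN, hN'⟩ := exists_compact_mem_nhds e
    have hδ := h.infDist_pos e.2
    have h1 : {x : En F | o ∨ x = e} ∈ 𝓝 e := by
      by_cases ho : o
      · exact univ_mem' fun x => Or.inl ho
      · have h2 : (closure (En F \ {e.1}))ᶜ ∈ 𝓝 e.1 :=
          isClosed_closure.isOpen_compl.mem_nhds fun c => ho ((h.one e e.2).1 c)
        filter_upwards [continuous_subtype_val.continuousAt.preimage_mem_nhds h2] with x hx
        exact Or.inr (Subtype.ext (by_contra fun c => hx (subset_closure ⟨x.2, c⟩)))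
    obtain ⟨U, a1, a2, a3⟩ := loc_compact_Haus_tot_disc_of_zero_dim.mem_nhds_iff.1
      (inter_mem hN' (inter_mem h1 (ball_mem_nhds e (by positivity : 0 < infDist e.1 (MF.Yy F) / 3))))
    refine ⟨U, a1, a2, hN.of_isClosed_subset a1.isClosed fun x hx => (a3 hx).1,
      fun ho x hx y hy => ((a3 hx).2.1.resolve_left ho).trans ((a3 hy).2.1.resolve_left ho).symm,
      fun x hx y hy => ?_⟩
    have b1 : dist x.1 e.1 < _ := (a3 hx).2.2
    have b2 : dist y.1 e.1 < _ := (a3 hy).2.2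
    have b3 := dist_triangle_right x.1 y.1 e.1
    have b4 : infDist e.1 (MF.Yy F) ≤ infDist x.1 (MF.Yy F) + dist e.1 x.1 :=
      infDist_le_infDist_add_dist
    rw [dist_comm] at b4
    linarith
  choose U u1 u2 u3 u4 u5 using hU
  obtain ⟨S, hS, hS'⟩ := TopologicalSpace.countable_cover_nhds
    fun e => (u1 e).isOpen.mem_nhds (u2 e)
  obtain ⟨u, rfl⟩ := hS.exists_eq_range (by
    obtain ⟨e, he, -⟩ := mem_iUnion₂.1 (hS'.symm ▸ mem_univ (⟨_, h.bl_end t⟩ : En F))
    exact ⟨e, he⟩)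
  rw [biUnion_range, ← iUnion_disjointed] at hS'
  obtain ⟨P, hP⟩ : ∃ P, P = disjointed fun n => U (u n) := ⟨_, rfl⟩
  have p1 : ∀ n, P n ⊆ U (u n) := hP ▸ disjointed_subset _
  have p2 : ∀ n, IsClopen (P n) := fun n => by
    rw [hP, disjointed_eq_inter_compl]
    exact (u1 _).inter ((finite_lt_nat n).isClopen_biInter fun j _ => (u1 _).compl)
  have p3 : ∀ n m x, x ∈ P n → x ∈ P m → n = m := fun n m x a1 a2 => by_contra fun c =>
    disjoint_left.1 (disjoint_disjointed _ c) (hP ▸ a1) (hP ▸ a2)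
  rw [← hP] at hS'
  have κ : ∀ j : {n // (P n).Nonempty}, K ≃ₜ P j.1 := fun j => Classical.choice
    (hK _ ((u3 _).of_isClosed_subset (p2 _).isClosed (p1 _)) (p2 _) j.2
      fun ho => (u4 _ ho).anti (p1 _))
  refine ⟨⟨{n // (P n).Nonempty}, inferInstance, fun j k => (κ j k).1.1, fun j k => (κ j k).1.2,
    fun j => by fun_prop, fun j k j' k' c => ?_, fun e he => ?_, fun C c1 c2 => ?_,
    fun j k k' => u5 _ _ (p1 _ (κ j k).2) _ (p1 _ (κ j k').2)⟩⟩
  · have c1 : (κ j k).1 = (κ j' k').1 := Subtype.ext c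
    obtain rfl : j = j' := Subtype.ext (p3 _ _ _ (κ j k).2 (c1 ▸ (κ j' k').2))
    exact ⟨rfl, (κ j).injective (Subtype.ext c1)⟩
  · obtain ⟨n, hn⟩ := mem_iUnion.1 (hS'.symm ▸ mem_univ (⟨e, he⟩ : En F))
    exact ⟨⟨n, _, hn⟩, (κ ⟨n, _, hn⟩).symm ⟨_, hn⟩, by simp⟩
  · have c3 : IsCompact (Subtype.val ⁻¹' C : Set (En F)) :=
      IsInducing.subtypeVal.isCompact_preimage' c1 (by rwa [Subtype.range_coe])
    obtain ⟨T, hT⟩ := c3.elim_finite_subcover P (fun n => (p2 n).isOpen) (hS' ▸ subset_univ _)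
    refine (T.finite_toSet.preimage Subtype.val_injective.injOn).subset ?_
    rintro j ⟨k, hk⟩
    obtain ⟨n, a1, a2⟩ := mem_iUnion₂.1 (hT (show (κ j k).1 ∈ _ from hk))
    rw [mem_preimage, p3 _ _ _ (κ j k).2 a2]
    exact a1

/-- Clamping to `[0,1]`. -/
def cp (x : ℝ) : ℝ := max 0 (min 1 x)

theorem cp_cont : Continuous cp := by unfold cp; fun_prop
theorem cp_mono : Monotone cp := fun _ _ h => max_le_max le_rfl (min_le_min le_rfl h)
theorem cp_zero {x : ℝ} (h : x ≤ 0) : cp x = 0 := max_eq_left ((min_le_right _ _).trans h)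
theorem cp_one {x : ℝ} (h : 1 ≤ x) : cp x = 1 := by rw [cp, min_eq_left h]; simp
theorem cp_nonneg (x : ℝ) : 0 ≤ cp x := le_max_left _ _
theorem cp_le (x : ℝ) : cp x ≤ 1 := max_le zero_le_one (min_le_left _ _)
theorem cp_lt {x y : ℝ} (h0 : 0 ≤ x) (h1 : x < 1) (h : x < y) : cp x < cp y := by
  rw [cp, min_eq_right h1.le, max_eq_right h0]
  exact lt_max_of_lt_right (lt_min h1 h)

/-- The piecewise linear function through `(0,0)`, `(a,A)`, `(b,B)`, constant after `b`. -/
noncomputable def lo (a b A B s : ℝ) : ℝ := A * cp (s / a) + (B - A) * cp ((s - a) / (b - a))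

section lo

variable {a b A B : ℝ} (ha : 0 < a) (hab : a ≤ b) (hA : 0 < A) (hAB : A ≤ B) (hd : A = B ↔ a = b)

include ha hab in
theorem lo_zero : lo a b A B 0 = 0 := by
  rw [lo, cp_zero (by simp), cp_zero (div_nonpos_of_nonpos_of_nonneg (by linarith) (by linarith))]
  simp

include ha in
theorem lo_a : lo a b A B a = A := by
  rw [lo, cp_one (by rw [div_self ha.ne']), cp_zero (by simp)]
  simp

include ha hab hd in
theorem lo_b {s : ℝ} (hs : b ≤ s) : lo a b A B s = B := by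
  rw [lo, cp_one ((one_le_div ha).2 (by linarith))]
  rcases hab.eq_or_lt with c | c
  · rw [hd.2 c]; simp
  · rw [cp_one ((one_le_div (by linarith)).2 (by linarith))]; ring

include ha hab hA hAB in
theorem lo_mono : Monotone (lo a b A B) := fun _ _ h =>
  add_le_add (mul_le_mul_of_nonneg_left (cp_mono (div_le_div_of_nonneg_right h ha.le)) hA.le)
    (mul_le_mul_of_nonneg_left (cp_mono (div_le_div_of_nonneg_right (by linarith) (by linarith)))
      (by linarith))

include ha hab hA hAB hd in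
theorem lo_lt {s r : ℝ} (h0 : 0 ≤ s) (h1 : s < b) (h : s < r) : lo a b A B s < lo a b A B r := by
  rcases lt_or_ge s a with c | c
  · exact add_lt_add_of_lt_of_le (mul_lt_mul_of_pos_left (cp_lt (by positivity)
      ((div_lt_one ha).2 c) (div_lt_div_of_pos_right h ha)) hA)
      (mul_le_mul_of_nonneg_left (cp_mono (div_le_div_of_nonneg_right (by linarith) (by linarith)))
        (by linarith))
  · have c1 : 0 < b - a := by linarith
    have c2 : 0 < B - A := sub_pos.2 (lt_of_le_of_ne hAB fun e => by linarith [hd.1 e])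
    exact add_lt_add_of_le_of_lt
      (mul_le_mul_of_nonneg_left (cp_mono (div_le_div_of_nonneg_right h.le ha.le)) hA.le)
      (mul_lt_mul_of_pos_left (cp_lt (div_nonneg (by linarith) c1.le)
        ((div_lt_one c1).2 (by linarith)) (div_lt_div_of_pos_right (by linarith) c1)) c2)

end lo

theorem lo_tendsto (a b : ℝ) {ι : Type} {l : Filter ι} {A B s : ι → ℝ} {A₀ B₀ s₀ : ℝ}
    (hA : Tendsto A l (𝓝 A₀)) (hB : Tendsto B l (𝓝 B₀)) (hs : Tendsto s l (𝓝 s₀)) :
    Tendsto (fun i => lo a b (A i) (B i) (s i)) l (𝓝 (lo a b A₀ B₀ s₀)) :=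
  (hA.mul ((cp_cont.tendsto _).comp (hs.div_const a))).add
    ((hB.sub hA).mul ((cp_cont.tendsto _).comp ((hs.sub_const a).div_const (b - a))))

theorem coe_rp (b s : unitInterval) : (rp b s : ℝ) = cp ((s - b) / (1 - b)) := coe_projIcc _ _ _ _

theorem rp_cont (b : unitInterval) : Continuous (rp b) := continuous_projIcc.comp (by fun_prop)

namespace Pieces

variable {K : Type} [MetricSpace K] (P : Pieces F K)

theorem leaves {ι : Type} {l : Filter ι} {j : ι → P.α} (k : ι → K) (hj : Tendsto j l cofinite)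
    (C : Set F) (c1 : IsCompact C) (c2 : C ⊆ En F) : ∀ᶠ i in l, P.ep (j i) (k i) ∉ C :=
  (hj.eventually (P.fin C c1 c2).eventually_cofinite_notMem).mono fun _ hi c => hi ⟨_, c⟩

theorem infDist_zero (h : MF F t d o) {ι : Type} {l : Filter ι} {j : ι → P.α} (k : ι → K)
    (hj : Tendsto j l cofinite) :
    Tendsto (fun i => infDist (P.ep (j i) (k i)) (MF.Yy F)) l (𝓝 0) := by
  refine tendsto_order.2 ⟨fun x hx => Eventually.of_forall fun _ => hx.trans_le infDist_nonneg,
    fun x hx => ?_⟩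
  obtain ⟨m, hm⟩ := exists_nat_one_div_lt hx
  filter_upwards [P.leaves k hj _ (h.far_compact m) (MF.far_sub m)] with i hi
  exact (not_le.1 fun c => hi ⟨subset_closure (P.isEnd _ _), c⟩).trans hm

theorem cofinite_of_lim [CompactSpace K] {ι : Type} (𝓤 : Ultrafilter ι) (j : ι → P.α) (k : ι → K)
    {y : F} (hy : ¬ IsEndpoint y) (hl : Tendsto (fun i => P.ep (j i) (k i)) 𝓤 (𝓝 y)) :
    Tendsto j 𝓤 cofinite := by
  refine (Data.ultra_cases 𝓤 j).resolve_right fun ⟨i, hi⟩ => hy ?_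
  obtain ⟨κ, rfl⟩ := (isCompact_range (P.cont i)).isClosed.mem_of_tendsto hl
    (hi.mono fun n hn => ⟨k n, by rw [hn]⟩)
  exact P.isEnd _ _

theorem exists_orph [CompactSpace K] (h : MF F t d o) : ∃ O : Set P.α, O.Infinite ∧
    ∀ ε > 0, {j | j ∈ O ∧ ∃ k, ε ≤ dist (P.ep j k) t}.Finite := by
  obtain ⟨e, he, hl⟩ := mem_closure_iff_seq_limit.1 h.top_mem_Y.1
  choose j k hjk using fun n => P.cover _ (he n)
  refine ⟨range j, fun hf => ?_, fun ε hε => ?_⟩
  · have h1 := P.cofinite_of_lim (hyperfilter ℕ) j k h.top_not_end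
      ((hl.congr hjk).mono_left (Nat.cofinite_eq_atTop ▸ hyperfilter_le_cofinite))
    obtain ⟨n, hn⟩ := (h1.eventually hf.eventually_cofinite_notMem).exists
    exact hn ⟨n, rfl⟩
  · obtain ⟨N, hN⟩ := Metric.tendsto_atTop.1 hl (ε / 2) (half_pos hε)
    refine ((finite_lt_nat N).image j).subset ?_
    rintro _ ⟨⟨n, rfl⟩, κ, hκ⟩
    refine ⟨n, (not_le.1 fun c => ?_ : n < N), rfl⟩
    have a1 := hN n c
    have a2 := (P.small (j n) (k n) κ).trans (infDist_le_dist_of_mem h.top_mem_Y)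
    have a3 := dist_triangle_left (P.ep (j n) κ) t (P.ep (j n) (k n))
    rw [hjk] at a1
    linarith

end Pieces

namespace MF

variable (h : MF F t d o) (a b : ℝ)

/-- Heights on the lower part of a blade. -/
noncomputable def η (e : F) (s : ℝ) : ℝ := lo a b (h.A e) (h.B e) s

theorem η_tendsto {ι : Type} {l : Filter ι} {e : ι → F} {s : ι → ℝ} {e₀ : F} {s₀ : ℝ}
    (he : ∀ i, IsEndpoint (e i)) (he₀ : IsEndpoint e₀) (hl : Tendsto e l (𝓝 e₀))
    (hs : Tendsto s l (𝓝 s₀)) : Tendsto (fun i => h.η a b (e i) (s i)) l (𝓝 (h.η a b e₀ s₀)) :=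
  have h1 : Tendsto e l (𝓝[En F] e₀) := tendsto_nhdsWithin_iff.2 ⟨hl, Eventually.of_forall he⟩
  lo_tendsto a b ((h.ht_cont.tendsto _).comp ((h.cont_vw.1 e₀ he₀).tendsto.comp h1))
    ((h.ht_cont.tendsto _).comp ((h.cont_vw.2 e₀ he₀).tendsto.comp h1)) hs

theorem B_tendsto {ι : Type} {l : Filter ι} {e : ι → F} {e₀ : F}
    (he : ∀ i, IsEndpoint (e i)) (he₀ : IsEndpoint e₀) (hl : Tendsto e l (𝓝 e₀)) :
    Tendsto (fun i => h.B (e i)) l (𝓝 (h.B e₀)) :=
  (h.ht_cont.tendsto _).comp ((h.cont_vw.2 e₀ he₀).tendsto.comp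
    (tendsto_nhdsWithin_iff.2 ⟨hl, Eventually.of_forall he⟩))

variable {a b} (ha : 0 < a) (hab : a ≤ b) (hd : d ↔ a = b) {e : F} (he : IsEndpoint e)

include ha hab he in
theorem η_mono : Monotone (h.η a b e) := lo_mono ha hab (h.A_pos he) (h.A_le he)

include ha hab hd he in
theorem η_b {s : ℝ} (hs : b ≤ s) : h.η a b e s = h.B e := lo_b ha hab ((h.A_eq_iff he).trans hd) hs

include ha hab hd he in
theorem η_lt {s r : ℝ} (h0 : 0 ≤ s) (h1 : s < b) (h2 : s < r) : h.η a b e s < h.η a b e r :=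
  lo_lt ha hab (h.A_pos he) (h.A_le he) ((h.A_eq_iff he).trans hd) h0 h1 h2

include ha hab hd he in
theorem η_le (s : ℝ) : h.η a b e s ≤ h.B e :=
  h.η_b ha hab hd he (le_max_left b s) ▸ h.η_mono ha hab he (le_max_right b s)

include ha hab he in
theorem η_nonneg {s : ℝ} (hs : 0 ≤ s) : 0 ≤ h.η a b e s :=
  (lo_zero ha hab : h.η a b e 0 = 0) ▸ h.η_mono ha hab he hs

include ha hab he in
theorem A_le_η {s : ℝ} (hs : a ≤ s) : h.A e ≤ h.η a b e s :=
  (lo_a ha : h.η a b e a = h.A e) ▸ h.η_mono ha hab he hs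

include ha hab hd he in
theorem ht_η {s : ℝ} (hs : 0 ≤ s) : h.ht (h.low e (h.η a b e s)) = h.η a b e s :=
  h.ht_low (h.η_nonneg ha hab he hs) ((h.η_le ha hab hd he s).trans (h.B_lt he).le)

include ha hab hd he in
theorem η_le_ww {s : ℝ} (hs : 0 ≤ s) : h.low e (h.η a b e s) ∈ seg t (h.ww e) :=
  h.le_of_ht (h.low_mem _ _) (h.ww_le he) (by rw [h.ht_η ha hab hd he hs]; exact h.η_le ha hab hd he s)

include ha hab hd he in
theorem exists_η {y : F} (hy : y ∈ Yy F) (ht : y ≠ t) (h1 : y ∈ seg t e) :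
    ∃ s ∈ Icc a b, y = h.low e (h.η a b e s) := by
  obtain ⟨a1, a2⟩ := h.between hy ht he h1
  have hc : Continuous (h.η a b e) := continuous_iff_continuousAt.2 fun s =>
    lo_tendsto a b tendsto_const_nhds tendsto_const_nhds tendsto_id
  obtain ⟨s, hs, hs'⟩ := intermediate_value_Icc hab hc.continuousOn (show h.ht y ∈ _ from
    ⟨(lo_a ha : h.η a b e a = h.A e).le.trans (h.ht_le a1),
      (h.ht_le a2).trans (h.η_b ha hab hd he le_rfl).ge⟩)
  exact ⟨s, hs, (h.low_eq h1 hs'.symm).symm⟩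

end MF

end Pool.Agent.Lib.MP_56c207_gt.Cl
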