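import Pool.Agent.Lib.MP_56c207_gt.C4

set_option autoImplicit false

namespace Pool.Agent.Lib.MP_56c207_gt.Cl

open Set Filter Topology Metric

variable {F : Type} [MetricSpace F] {t : F} {d o : Prop}

theorem MF.nf (h : MF F t d o) {K : Type} [MetricSpace K] [CompactSpace K] [Nonempty K]
    (P : Pieces F K) {a b : unitInterval} (ha : (0 : ℝ) < a) (hab : (a : ℝ) ≤ b) (hb : (b : ℝ) < 1)
    (hd : d ↔ (a : ℝ) = b) : Nonempty (NF F K a b) := by
  classical
  have := h.compact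
  have := P.cnt
  have : CompactSpace (Icc a b) := isCompact_iff_compactSpace.1 isClosed_Icc.isCompact
  obtain ⟨k₀⟩ := ‹Nonempty K›
  obtain ⟨rk, hrk⟩ := exists_injective_nat P.α
  obtain ⟨O, hO, hO'⟩ := P.exists_orph h
  have he := P.isEnd
  choose p0 pY pd using fun j =>
    h.closed_Y.isCompact.exists_infDist_eq_dist ⟨t, h.top_mem_Y⟩ (P.ep j k₀)
  have L1 : ∀ {ι : Type} {l : Filter ι} {j : ι → P.α} (k : ι → K), Tendsto j l cofinite →
      Tendsto (fun i => dist (p0 (j i)) (P.ep (j i) (k i))) l (𝓝 0) := by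
    intro ι l j k hj
    have h1 := P.infDist_zero h (fun _ => k₀) hj
    have h2 := h1.add h1
    rw [add_zero] at h2
    refine squeeze_zero (fun _ => dist_nonneg) (fun i => (dist_triangle_left _ _ _).trans
      (add_le_add (pd _).ge (P.small _ _ _))) h2
  have hq : ∀ j, ∃ q : P.α × K × Icc a b, p0 j ≠ t →
      p0 j = h.low (P.ep q.1 q.2.1) (h.η a b (P.ep q.1 q.2.1) q.2.2.1) := fun j => by
    by_cases h1 : p0 j = t
    · exact ⟨(j, k₀, ⟨a, left_mem_Icc.2 hab⟩), fun c => absurd h1 c⟩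
    · obtain ⟨i, κ, h2⟩ := P.cover _ (h.bl_end (p0 j))
      obtain ⟨s, hs, h3⟩ := h.exists_η ha hab hd (he i κ) (pY j) h1 (h2 ▸ h.le_bl _)
      exact ⟨(i, κ, ⟨⟨s, ha.le.trans hs.1, hs.2.trans hb.le⟩, hs⟩), fun _ => h3⟩
  choose q hq using hq
  obtain ⟨π, hπ, hπ'⟩ : ∃ π : P.α → Option P.α, (∀ j i, π j = some i ↔
      (j ∉ O ∧ p0 j ≠ t ∧ rk (q j).1 < rk j) ∧ (q j).1 = i) ∧ ∀ j ∈ O, π j = none :=
    ⟨fun j => if j ∉ O ∧ p0 j ≠ t ∧ rk (q j).1 < rk j then some (q j).1 else none,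
      fun j i => by simp, fun j hj => if_neg fun c => c.1 hj⟩
  have L2 : ∀ {ι : Type} {l : Filter ι} {j : ι → P.α} (k : ι → K), Tendsto j l cofinite →
      (∀ i, ∀ᶠ n in l, π (j n) ≠ some i) → Tendsto (fun n => P.ep (j n) (k n)) l (𝓝 t) := by
    intro ι l j k hj hi
    refine (tendsto_iff_ultrafilter _ _ _).2 fun 𝓤 hU => ?_
    replace hj := hj.mono_left hU
    by_cases c1 : ∀ᶠ n in (𝓤 : Filter ι), j n ∈ O
    · refine Metric.tendsto_nhds.2 fun ε hε => ?_
      filter_upwards [c1, hj.eventually (hO' ε hε).eventually_cofinite_notMem] with n a1 a2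
      exact not_le.1 fun c => a2 ⟨a1, _, c⟩
    refine Tendsto.congr_dist ?_ (L1 k hj)
    by_cases c2 : ∀ᶠ n in (𝓤 : Filter ι), p0 (j n) = t
    · exact tendsto_const_nhds.congr' (c2.mono fun _ hn => hn.symm)
    replace c1 := Ultrafilter.eventually_not.2 c1
    replace c2 := Ultrafilter.eventually_not.2 c2
    have c3 : Tendsto (fun n => (q (j n)).1) 𝓤 cofinite := by
      refine (Data.ultra_cases 𝓤 _).resolve_right fun ⟨i, c⟩ => ?_
      have c4 : ∀ᶠ n in (𝓤 : Filter ι), rk i < rk (j n) :=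
        ((Nat.cofinite_eq_atTop ▸ hrk.tendsto_cofinite).comp hj).eventually (eventually_gt_atTop _)
      obtain ⟨n, a1, a2, a3, a4, a5⟩ :=
        (c1.and (c2.and (c.and (c4.and ((hi i).filter_mono hU))))).exists
      exact a5 ((hπ _ _).2 ⟨⟨a1, a2, a3 ▸ a4⟩, a3⟩)
    have c5 := (h.ht_cont.tendsto t).comp
      (h.null (fun n => he (q (j n)).1 (q (j n)).2.1) (P.leaves _ c3))
    rw [h.ht_top] at c5
    refine h.tendsto_top (squeeze_zero' (Eventually.of_forall fun _ => h.ht_nonneg _)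
      (c2.mono fun n hn => ?_) c5)
    rw [hq _ hn]
    exact h.ht_le (h.η_le_ww ha hab hd (he _ _) (q (j n)).2.2.1.2.1)
  have y0 : ∀ y : Icc a b, (a : ℝ) ≤ y.1 := fun y => y.2.1
  have y1 : ∀ y : Icc a b, (y.1 : ℝ) ≤ b := fun y => y.2.2
  have den : ∀ i κ (y : Icc a b), 0 < h.η a b (P.ep i κ) y.1 := fun i κ y =>
    (h.A_pos (he _ _)).trans_le (h.A_le_η ha hab (he _ _) (y0 y))
  obtain ⟨θ, hθ⟩ : ∃ θ : P.α → ℝ → ℝ, ∀ j x, θ j x =
      h.η a b (P.ep (q j).1 (q j).2.1) (x * (q j).2.2.1) /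
        h.η a b (P.ep (q j).1 (q j).2.1) (q j).2.2.1 := ⟨_, fun _ _ => rfl⟩
  have θ0 : ∀ j, θ j 0 = 0 := fun j => by
    rw [hθ, zero_mul, show h.η a b _ 0 = 0 from lo_zero ha hab, zero_div]
  have θ1 : ∀ j, θ j 1 = 1 := fun j => by rw [hθ, one_mul, div_self (den _ _ _).ne']
  have θm : ∀ j, Monotone (θ j) := fun j x x' c => by
    rw [hθ, hθ]
    exact div_le_div_of_nonneg_right (h.η_mono ha hab (he _ _)
      (mul_le_mul_of_nonneg_right c (q j).2.2.1.2.1)) (den _ _ _).le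
  have θs : ∀ j x x', 0 ≤ x → x < 1 → x < x' → θ j x < θ j x' := fun j x x' c0 c1 c => by
    have c2 := y0 (q j).2.2
    have c3 := y1 (q j).2.2
    rw [hθ, hθ]
    exact div_lt_div_of_pos_right (h.η_lt ha hab hd (he _ _) (by nlinarith) (by nlinarith)
      (by nlinarith)) (den _ _ _)
  have θc : ∀ j, Continuous (θ j) := fun j => by
    rw [funext (hθ j)]
    exact continuous_iff_continuousAt.2 fun x => (h.η_tendsto a b (fun _ => he _ _) (he _ _)
      tendsto_const_nhds (tendsto_id.mul_const _)).div_const _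
  obtain ⟨H, hH⟩ : ∃ H : P.α → K → unitInterval → ℝ, ∀ j k s, H j k s = h.η a b (P.ep j k) s +
      (h.ht (P.ep j k) - h.B (P.ep j k)) * θ j (rp b s) := ⟨_, fun _ _ _ => rfl⟩
  have r0 : ∀ s : unitInterval, (s : ℝ) ≤ b → (rp b s : ℝ) = 0 := fun s c => by
    rw [coe_rp, cp_zero (div_nonpos_of_nonpos_of_nonneg (by linarith) (by linarith))]
  have Hl : ∀ j k (s : unitInterval), (s : ℝ) ≤ b → H j k s = h.η a b (P.ep j k) s :=
    fun j k s c => by rw [hH, r0 s c, θ0, mul_zero, add_zero]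
  have H0 : ∀ j k, H j k 0 = 0 := fun j k => by
    rw [Hl _ _ _ b.2.1]; exact lo_zero ha hab
  have H1 : ∀ j k, H j k 1 = h.ht (P.ep j k) := fun j k => by
    rw [hH, coe_rp, cp_one (by rw [Icc.coe_one, div_self (by linarith)]), θ1,
      h.η_b ha hab hd (he _ _) (by simpa using hb.le)]
    ring
  have Hs : ∀ j k, StrictMono (H j k) := fun j k s s' c => by
    have c' : (s : ℝ) < s' := c
    have c1 : 0 < h.ht (P.ep j k) - h.B (P.ep j k) := sub_pos.2 (h.B_lt (he _ _))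
    have c2 : (0 : ℝ) < 1 - b := by linarith
    rw [hH, hH, coe_rp, coe_rp]
    rcases lt_or_ge (s : ℝ) b with c3 | c3
    · exact add_lt_add_of_lt_of_le (h.η_lt ha hab hd (he _ _) s.2.1 c3 c')
        (mul_le_mul_of_nonneg_left (θm j (cp_mono (div_le_div_of_nonneg_right (by linarith) c2.le)))
          c1.le)
    · have c4 := cp_lt (div_nonneg (sub_nonneg.2 c3) c2.le)
        ((div_lt_one c2).2 (by linarith [s'.2.2])) (div_lt_div_of_pos_right
          (show (s : ℝ) - b < s' - b by linarith) c2)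
      exact add_lt_add_of_le_of_lt (h.η_mono ha hab (he _ _) c'.le) (mul_lt_mul_of_pos_left
        (θs j _ _ (cp_nonneg _) (c4.trans_le (cp_le _)) c4) c1)
  have Hb : ∀ j k s, 0 ≤ H j k s ∧ H j k s ≤ h.ht (P.ep j k) := fun j k s =>
    ⟨H0 j k ▸ (Hs j k).monotone unitInterval.nonneg', H1 j k ▸ (Hs j k).monotone unitInterval.le_one'⟩
  have Hh : ∀ j k s, h.ht (h.low (P.ep j k) (H j k s)) = H j k s := fun j k s =>
    h.ht_low (Hb j k s).1 (Hb j k s).2
  have Hc : ∀ j, Continuous fun p : K × unitInterval => H j p.1 p.2 := fun j => by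
    simp only [hH]
    refine continuous_iff_continuousAt.2 fun p => ?_
    have c1 : Tendsto (fun p : K × unitInterval => P.ep j p.1) (𝓝 p) (𝓝 (P.ep j p.1)) :=
      ((P.cont j).comp continuous_fst).tendsto p
    exact (h.η_tendsto a b (fun _ => he _ _) (he _ _) c1
      ((continuous_subtype_val.comp continuous_snd).tendsto p)).add
      ((((h.ht_cont.tendsto _).comp c1).sub (h.B_tendsto (fun _ => he _ _) (he _ _) c1)).mul
        (((θc j).comp (continuous_subtype_val.comp ((rp_cont b).comp continuous_snd))).tendsto p))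
  have Gc : ∀ j, Continuous fun p : K × unitInterval => h.low (P.ep j p.1) (H j p.1 p.2) :=
    fun j => continuous_iff_continuousAt.2 fun p =>
      h.tendsto_low (((P.cont j).comp continuous_fst).tendsto p) ((Hc j).tendsto p)
        (Eventually.of_forall fun p => Hb j p.1 p.2)
  have Gi : ∀ j k s j' k' s', h.low (P.ep j k) (H j k s) = h.low (P.ep j' k') (H j' k' s') →
      s ≠ 0 → j = j' ∧ k = k' ∧ s = s' := fun j k s j' k' s' c hs => by
    have c1 : 0 < H j k s := H0 j k ▸ Hs j k (lt_of_le_of_ne unitInterval.nonneg' hs.symm)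
    obtain ⟨rfl, rfl⟩ := P.inj _ _ _ _ (h.end_unique (he j k) (he j' k') (h.low_mem _ (H j k s))
      (by rw [c]; exact h.low_mem _ _) fun e => by
        have := Hh j k s
        rw [e, h.ht_top] at this
        exact c1.ne this)
    exact ⟨rfl, rfl, (Hs j k).injective (by rw [← Hh, c, Hh])⟩
  have L3 : ∀ {ι : Type} {l : Filter ι} {j : ι → P.α} {i z}, (∀ᶠ n in l, π (j n) = some i) →
      Tendsto (fun n => (q (j n)).2) l (𝓝 z) →
      Tendsto (fun n => p0 (j n)) l (𝓝 (h.low (P.ep i z.1) (H i z.1 z.2.1))) := by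
    intro ι l j i z c1 c2
    have c3 : Continuous fun z : K × Icc a b => h.low (P.ep i z.1) (H i z.1 z.2.1) :=
      (Gc i).comp (continuous_fst.prodMk (continuous_subtype_val.comp continuous_snd))
    refine ((c3.tendsto z).comp c2).congr' (c1.mono fun n hn => ?_)
    obtain ⟨⟨-, a1, -⟩, rfl⟩ := (hπ _ _).1 hn
    simp only [Function.comp_apply]
    rw [hq _ a1, Hl _ _ _ (y1 _)]
  refine ⟨⟨t, P.α, P.cnt, fun j k s => h.low (P.ep j k) (H j k s), π, fun j => (q j).2, rk,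
    fun i j c => ?_, fun x => ?_, fun j k => ?_, Gi, Gc, fun l j k s c1 c2 => ?_,
    fun l j k s i z s₀ c1 c2 c3 c4 => ?_, hO.mono hπ', fun i z ε hε => ?_⟩⟩
  · obtain ⟨⟨-, -, a1⟩, rfl⟩ := (hπ _ _).1 c
    exact a1
  · obtain ⟨j, k, c⟩ := P.cover _ (h.bl_end x)
    have c1 : x ∈ seg t (P.ep j k) := c ▸ h.le_bl x
    obtain ⟨s, hs⟩ := intermediate_value_univ 0 1 ((Hc j).comp (Continuous.prodMk_right k))
      (show h.ht x ∈ _ from ⟨(H0 j k).le.trans (h.ht_nonneg x), (h.ht_le c1).trans (H1 j k).ge⟩)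
    exact ⟨j, k, s, (h.low_eq c1 hs.symm).symm⟩
  · exact h.eq_top ((Hh j k 0).trans (H0 j k)).le
  · have c3 := (h.ht_cont.tendsto t).comp (L2 k c1 c2)
    rw [h.ht_top] at c3
    exact h.tendsto_top (squeeze_zero (fun _ => h.ht_nonneg _) (fun n => h.ht_le (h.low_mem _ _)) c3)
  · have e1 := (L3 c2 c3).congr_dist (L1 k c1)
    have e2 := (h.ht_cont.tendsto _).comp e1
    rw [Hh, Hl _ _ _ (y1 _)] at e2
    have e3 := (h.ht_cont.tendsto t).comp (h.null (fun n => he (j n) (k n)) (P.leaves k c1))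
    rw [h.ht_top] at e3
    have e4 : Tendsto (fun n => h.η a b (P.ep (j n) (k n)) (s n)) l (𝓝 0) :=
      squeeze_zero (fun n => h.η_nonneg ha hab (he _ _) (s n).2.1)
        (fun n => h.η_le ha hab hd (he _ _) _) e3
    have e5 : Tendsto (fun n => P.ep i (q (j n)).2.1) l (𝓝 (P.ep i z.1)) :=
      (((P.cont i).comp continuous_fst).tendsto z).comp c3
    have e6 : Tendsto (fun n => ((q (j n)).2.2.1 : ℝ)) l (𝓝 z.2.1) :=
      ((continuous_subtype_val.comp (continuous_subtype_val.comp continuous_snd)).tendsto z).comp c3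
    have e7 : Tendsto (fun n => (rp b (s n) : ℝ)) l (𝓝 (rp b s₀)) :=
      ((continuous_subtype_val.comp (rp_cont b)).tendsto s₀).comp c4
    have e8 : Tendsto (fun n => θ (j n) (rp b (s n))) l
        (𝓝 (h.η a b (P.ep i z.1) (rp b s₀ * z.2.1) / h.η a b (P.ep i z.1) z.2.1)) := by
      refine ((h.η_tendsto a b (fun _ => he _ _) (he _ _) e5 (e7.mul e6)).div
        (h.η_tendsto a b (fun _ => he _ _) (he _ _) e5 e6) (den _ _ _).ne').congr'
        (c2.mono fun n hn => ?_)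
      obtain ⟨-, rfl⟩ := (hπ _ _).1 hn
      exact (hθ _ _).symm
    have e9 := e4.add ((e2.sub e3).mul e8)
    rw [zero_add, sub_zero, mul_div_cancel₀ _ (den _ _ _).ne'] at e9
    have f1 : ((rp b s₀ * z.2.1 : unitInterval) : ℝ) ≤ z.2.1 := unitInterval.mul_le_right
    refine h.tendsto_of_ht e1 (Eventually.of_forall fun n => h.low_mem _ _)
      (h.le_of_ht (h.low_mem _ _) (h.low_mem _ _) ?_) ?_
    · rw [Hh, Hh]; exact (Hs _ _).monotone f1
    · rw [Hh, Hl _ _ _ (f1.trans (y1 _))]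
      refine e9.congr fun n => ?_
      rw [Hh, hH]; rfl
  · have z0 : z.2.1 ≠ 0 := fun c => by
      have := y0 z.2
      rw [c] at this
      exact absurd ha (not_lt.2 this)
    have c1 : h.low (P.ep i z.1) (H i z.1 z.2.1) ∈ MF.Yy F := by
      refine h.mem_Y (he i z.1) (h.le_of_ht (h.vv_le (he _ _)) (h.low_mem _ _) ?_) ?_
      · rw [Hh, Hl _ _ _ (y1 _)]; exact h.A_le_η ha hab (he _ _) (y0 _)
      · rw [Hl _ _ _ (y1 _)]; exact h.η_le_ww ha hab hd (he _ _) z.2.1.2.1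
    obtain ⟨𝓤, hE, hU⟩ := exists_ultra (f := fun p : P.α × K => P.ep p.1 p.2) (S := univ)
      (closure_mono (fun e he' => by
        obtain ⟨j, k, rfl⟩ := P.cover e he'
        exact ⟨(j, k), mem_univ _, rfl⟩) c1.1)
    have c2 := P.cofinite_of_lim 𝓤 Prod.fst Prod.snd c1.2 hU
    have c3 : ¬ ∀ i, ∀ᶠ n in (𝓤 : Filter (P.α × K)), π n.1 ≠ some i := fun c => by
      have c4 := tendsto_nhds_unique hU (L2 Prod.snd c2 c)
      have c5 := Hh i z.1 z.2.1
      rw [c4, h.ht_top, Hl _ _ _ (y1 _)] at c5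
      exact (den _ _ _).ne c5
    obtain ⟨i', c4⟩ := not_forall.1 c3
    have c5 : ∀ᶠ n in (𝓤 : Filter (P.α × K)), π n.1 = some i' :=
      (Ultrafilter.eventually_not.2 c4).mono fun _ hn => not_not.1 hn
    obtain ⟨z', hz'⟩ := ultra_lim 𝓤 fun n => (q n.1).2
    obtain ⟨rfl, a2, a3⟩ := Gi _ _ _ _ _ _
      (tendsto_nhds_unique hU ((L3 c5 hz').congr_dist (L1 Prod.snd c2))) z0
    obtain rfl : z = z' := Prod.ext a2 (Subtype.ext a3)
    intro hf
    obtain ⟨n, b1, b2, b3⟩ := (c5.and ((Metric.tendsto_nhds.1 hz' ε hε).and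
      (c2.eventually hf.eventually_cofinite_notMem))).exists
    exact b3 ⟨b1, b2⟩

theorem MF.homeo {G : Type} [MetricSpace G] {u : G} (h : MF F t d o) (g : MF G u d o)
    {a b : unitInterval} (ha : (0 : ℝ) < a) (hab : (a : ℝ) ≤ b) (hb : (b : ℝ) < 1)
    (hd : d ↔ (a : ℝ) = b) : Nonempty (F ≃ₜ G) := by
  have := h.compact
  by_cases ho : o
  · let : MetricSpace (ℕ → Bool) := TopologicalSpace.metrizableSpaceMetric _
    have key : ∀ {F : Type} [MetricSpace F] {t : F}, MF F t d o →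
        Nonempty (NF F (ℕ → Bool) a b) := by
      intro F _ t h
      obtain ⟨P⟩ := h.pieces (K := ℕ → Bool) fun U h1 h2 h3 _ => by
        have := isCompact_iff_compactSpace.1 h1
        have := h3.to_subtype
        have : TotallyDisconnectedSpace (En F) := totallyDisconnectedSpace_subtype_iff.2 h.totDisc
        refine brouwer fun x => mem_closure_iff_nhds.2 fun W hW => ?_
        obtain ⟨W₁, a1, a2⟩ := (mem_nhds_subtype _ _ _).1 hW
        obtain ⟨W₂, a3, a4⟩ := (mem_nhds_subtype _ _ _).1 (inter_mem a1 (h2.isOpen.mem_nhds x.2))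
        obtain ⟨y, b1, b2, b3⟩ := mem_closure_iff_nhds.1 ((h.one _ x.1.2).2 ho) W₂ a3
        obtain ⟨b4, b5⟩ := a4 (show (⟨y, b2⟩ : En F) ∈ _ from b1)
        exact ⟨⟨⟨y, b2⟩, b5⟩, a2 b4, fun c => b3 (congrArg (fun z : U => z.1.1) c)⟩
      exact h.nf P ha hab hb hd
    obtain ⟨N⟩ := key h
    obtain ⟨M⟩ := key g
    exact N.homeo M
  · have key : ∀ {F : Type} [MetricSpace F] {t : F}, MF F t d o → Nonempty (NF F Unit a b) := by
      intro F _ t h
      obtain ⟨P⟩ := h.pieces (K := Unit) fun U _ _ h3 h4 => by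
        have := (h4 ho).coe_sort
        have := h3.to_subtype
        have : Unique U := uniqueOfSubsingleton (Classical.arbitrary U)
        exact ⟨Homeomorph.homeomorphOfUnique _ _⟩
      exact h.nf P ha hab hb hd
    obtain ⟨N⟩ := key h
    obtain ⟨M⟩ := key g
    exact N.homeo M

theorem unique_of_Icc {G : Type} [MetricSpace G] {u : G} {X : Set unitInterval} (h0 : 0 ∈ X)
    {a b : unitInterval} (hab : a ≤ b) (hI : X \ {0, 1} = Icc a b)
    (hF : IsFan F t ∧ IsSmooth F t ∧ IsEndpointHomogeneous F ∧ IsEPG F t X)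
    (hG : IsFan G u ∧ IsSmooth G u ∧ IsEndpointHomogeneous G ∧ IsEPG G u X) :
    Nonempty (F ≃ₜ G) := by
  have ha : a ∈ X \ {0, 1} := hI ▸ left_mem_Icc.2 hab
  have hb : b ∈ X \ {0, 1} := hI ▸ right_mem_Icc.2 hab
  exact (mf_of_epg ⟨hF.1, hF.2.1⟩ hF.2.2.1 hF.2.2.2 h0 hab hI).homeo
    (mf_of_epg ⟨hG.1, hG.2.1⟩ hG.2.2.1 hG.2.2.2 h0 hab hI)
    (lt_of_le_of_ne a.2.1 fun c => ha.2 (Or.inl (Subtype.ext c.symm))) hab
    (lt_of_le_of_ne b.2.2 fun c => hb.2 (Or.inr (Subtype.ext c))) Subtype.ext_iff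

end Pool.Agent.Lib.MP_56c207_gt.Cl
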