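import Pool.Agent.Lib.MP_56c207_gt.C5

set_option autoImplicit false

namespace Pool.Agent.Lib.MP_56c207_gt.Cl

open Set Filter Topology
open scoped symmDiff

theorem sort_union {z w : Finset ℕ} (h : ∀ x ∈ z, ∀ y ∈ w, x < y) :
    (z ∪ w).sort = z.sort ++ w.sort := by
  induction z using Finset.induction_on_min with
  | empty => simp
  | insert a s ha ih =>
    have h1 : ∀ b ∈ s ∪ w, a < b := fun b hb => (Finset.mem_union.1 hb).elim (ha b)
      (h a (Finset.mem_insert_self _ _) b)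
    rw [Finset.insert_union, Finset.sort_insert _ (fun b hb => (h1 b hb).le)
      (fun c => lt_irrefl _ (h1 a c)), Finset.sort_insert _ (fun b hb => (ha b hb).le)
      (fun c => lt_irrefl _ (ha a c)), ih fun x hx => h x (Finset.mem_insert_of_mem hx)]
    rfl

/-- A sequence of self-maps of the interval whose triple composites vanish. -/
structure MD where
  L : ℕ → unitInterval → unitInterval
  cont : ∀ m, Continuous (L m)
  mono : ∀ m, Monotone (L m)
  zero : ∀ m, L m 0 = 0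
  lt : ∀ m s, s ≠ 0 → L m s < s
  nil : ∀ m n k s, L m (L n (L k s)) = 0

namespace MD

variable (D : MD)

/-- Composite along a list. -/
def Gl (l : List ℕ) (s : unitInterval) : unitInterval := l.foldr (fun i => D.L i.unpair.1) s

/-- Composite along a finite set, in increasing order. -/
def G (S : Finset ℕ) : unitInterval → unitInterval := D.Gl S.sort

theorem Gl_cons (i : ℕ) (l : List ℕ) (s : unitInterval) :
    D.Gl (i :: l) s = D.L i.unpair.1 (D.Gl l s) := rfl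

theorem Gl_props (l : List ℕ) : Continuous (D.Gl l) ∧ Monotone (D.Gl l) ∧ D.Gl l 0 = 0 ∧
    ∀ s, D.Gl l s ≤ s := by
  induction l with
  | nil => exact ⟨continuous_id, monotone_id, rfl, fun _ => le_rfl⟩
  | cons i l ih =>
    refine ⟨(D.cont _).comp ih.1, (D.mono _).comp ih.2.1, by rw [Gl_cons, ih.2.2.1, D.zero],
      fun s => le_trans ?_ (ih.2.2.2 s)⟩
    rw [Gl_cons]
    by_cases h : D.Gl l s = 0
    · rw [h, D.zero]
    · exact (D.lt _ _ h).le

theorem G_cont (S : Finset ℕ) : Continuous (D.G S) := (D.Gl_props _).1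
theorem G_mono (S : Finset ℕ) : Monotone (D.G S) := (D.Gl_props _).2.1
theorem G_zero (S : Finset ℕ) : D.G S 0 = 0 := (D.Gl_props _).2.2.1
theorem G_empty (s : unitInterval) : D.G ∅ s = s := by simp [G, Gl]
theorem G_single (i : ℕ) (s : unitInterval) : D.G {i} s = D.L i.unpair.1 s := by simp [G, Gl]

theorem G_ind {S : Finset ℕ} (hS : S ≠ ∅) {s : unitInterval} {p : unitInterval → Prop}
    (h1 : ∀ m, p (D.L m s)) (h2 : ∀ m r, p r → p (D.L m r)) : p (D.G S s) := by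
  have key : ∀ l : List ℕ, l ≠ [] → p (D.Gl l s) := fun l hl => by
    induction l with
    | nil => exact absurd rfl hl
    | cons i l ih =>
      by_cases h : l = []
      · subst h; exact h1 _
      · exact h2 _ _ (ih h)
  exact key _ fun c => hS (Finset.card_eq_zero.1 (by
    rw [← Finset.length_sort (· ≤ ·), c]; rfl))

theorem G_lt {S : Finset ℕ} (hS : S ≠ ∅) {s : unitInterval} (hs : s ≠ 0) : D.G S s < s :=
  D.G_ind (p := (· < s)) hS (fun m => D.lt m s hs) fun m _ hr =>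
    ((D.mono m hr.le).trans_lt (D.lt m s hs))

theorem G_big {S : Finset ℕ} (hS : 3 ≤ S.card) (s : unitInterval) : D.G S s = 0 := by
  rw [← Finset.length_sort (· ≤ ·)] at hS
  have key : ∀ l : List ℕ, 3 ≤ l.length → D.Gl l s = 0 := by
    rintro (_ | ⟨i, _ | ⟨j, _ | ⟨k, l⟩⟩⟩) h
    · simp at h
    · simp at h
    · simp at h
    · exact D.nil _ _ _ _
  exact key _ hS

theorem G_union {z w : Finset ℕ} (h : ∀ x ∈ z, ∀ y ∈ w, x < y) (s : unitInterval) :
    D.G (z ∪ w) s = D.G z (D.G w s) := by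
  unfold G Gl
  rw [sort_union h, List.foldr_append]

variable {ι : Type}

/-- Indicator functions of cylinders. -/
def φ (o : Option (ι × Bool)) (k : ι → Bool) : ℝ :=
  match o with
  | none => 1
  | some q => if k q.1 = q.2 then 1 else 0

theorem φ_cont (o : Option (ι × Bool)) : Continuous (φ o) := by
  rcases o with _ | q
  · exact continuous_const
  · exact (continuous_of_discreteTopology (f := fun c : Bool => if c = q.2 then (1 : ℝ) else 0)).comp
      (continuous_apply q.1)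

/-- The point at height `s` of the blade `p`. -/
noncomputable def pt (p : Finset ℕ × (ι → Bool)) (s : unitInterval) :
    Finset ℕ × Option (ι × Bool) → ℝ := fun c => D.G (p.1 ∆ c.1) s * φ c.2 p.2

theorem pt_zero (p : Finset ℕ × (ι → Bool)) : D.pt p 0 = 0 := by
  funext c; simp [pt, G_zero]

theorem pt_self (p : Finset ℕ × (ι → Bool)) (s : unitInterval) : D.pt p s (p.1, none) = s := by
  simp [pt, φ, G_empty]

theorem pt_disj {p q : Finset ℕ × (ι → Bool)} {s r : unitInterval} (h : D.pt p s = D.pt q r) :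
    p = q ∨ s = 0 := by
  refine or_iff_not_imp_right.2 fun hs => ?_
  have h1 : s = D.G (q.1 ∆ p.1) r := Subtype.ext (by
    simpa [pt, φ, G_empty] using congrFun h (p.1, none))
  have h2 : D.G (p.1 ∆ q.1) s = r := Subtype.ext (by
    simpa [pt, φ, G_empty] using congrFun h (q.1, none))
  have h3 : p.1 = q.1 := by
    by_contra c
    have c1 : r < s := h2 ▸ D.G_lt (fun e => c (symmDiff_eq_bot.1 e)) hs
    have c2 : r ≠ 0 := fun e => hs (by rw [h1, e, G_zero])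
    exact lt_asymm c1 (h1 ▸ D.G_lt (fun e => c (symmDiff_eq_bot.1 e).symm) c2)
  rw [h3, symmDiff_self, Finset.bot_eq_empty, G_empty] at h2
  refine Prod.ext h3 (funext fun j => ?_)
  have h4 := congrFun h (q.1, some (j, q.2 j))
  simp only [pt, φ, h3, symmDiff_self, Finset.bot_eq_empty, G_empty, ← h2, if_true] at h4
  by_contra c
  rw [if_neg c, mul_zero, mul_one] at h4
  exact hs (Subtype.ext h4.symm)

theorem lim_P {J : Type} {l : Filter J} {p : J → Finset ℕ × (ι → Bool)} {σ : J → unitInterval}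
    {a : Finset ℕ × (ι → Bool)} {r : unitInterval} (h1 : ∀ n, ∀ᶠ i in l, n ∈ (p i).1 ↔ n ∈ a.1)
    (h2 : Tendsto (fun i => (p i).2) l (𝓝 a.2))
    (h3 : Tendsto (fun i => D.G ((p i).1 ∆ a.1) (σ i)) l (𝓝 r)) :
    Tendsto (fun i => D.pt (p i) (σ i)) l (𝓝 (D.pt a r)) := by
  refine tendsto_pi_nhds.2 fun c => Tendsto.mul ?_ (((φ_cont c.2).tendsto _).comp h2)
  refine (((continuous_subtype_val.comp (D.G_cont (a.1 ∆ c.1))).tendsto r).comp h3).congr' ?_
  filter_upwards [(eventually_all_finset (Finset.range ((a.1 ∆ c.1).sup id + 1))).2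
    fun n _ => h1 n] with i hi
  have h4 : ∀ x ∈ a.1 ∆ c.1, ∀ y ∈ (p i).1 ∆ a.1, x < y := fun x hx y hy => by
    by_contra h5
    have h6 : x ≤ (a.1 ∆ c.1).sup id := Finset.le_sup (f := id) hx
    have h7 := hi y (Finset.mem_range.2 (by omega))
    rw [Finset.mem_symmDiff] at hy
    tauto
  have h5 : (p i).1 ∆ c.1 = a.1 ∆ c.1 ∪ (p i).1 ∆ a.1 := by
    ext x
    have := fun h h' => lt_irrefl x (h4 x h x h')
    simp only [Finset.mem_union, Finset.mem_symmDiff] at this ⊢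
    tauto
  simp only [Function.comp_apply, h5, D.G_union h4]

theorem ultra {J : Type} (𝓤 : Ultrafilter J) (p : J → Finset ℕ × (ι → Bool)) :
    ∃ (a : Finset ℕ × (ι → Bool)) (m : J → unitInterval → unitInterval),
      (m = (fun _ _ => 0) ∨ ((∀ n, ∀ᶠ i in (𝓤 : Filter J), n ∈ (p i).1 ↔ n ∈ a.1) ∧
        Tendsto (fun i => (p i).2) 𝓤 (𝓝 a.2) ∧ m = fun i => D.G ((p i).1 ∆ a.1))) ∧
      ∀ (σ : J → unitInterval) (r : unitInterval), Tendsto (fun i => m i (σ i)) 𝓤 (𝓝 r) →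
        Tendsto (fun i => D.pt (p i) (σ i)) 𝓤 (𝓝 (D.pt a r)) := by
  obtain ⟨κ, hκ⟩ := ultra_lim 𝓤 fun i => (p i).2
  by_cases h : ∀ v, ∀ᶠ i in (𝓤 : Filter J), 3 ≤ ((p i).1 ∆ v).card
  · refine ⟨(∅, κ), _, Or.inl rfl, fun σ r hr => ?_⟩
    rw [← tendsto_nhds_unique tendsto_const_nhds hr, pt_zero]
    refine tendsto_pi_nhds.2 fun c => tendsto_const_nhds.congr' ((h c.1).mono fun i hi => ?_)
    simp [pt, D.G_big hi]
  obtain ⟨v, hv⟩ := not_forall.1 h
  replace hv := Ultrafilter.eventually_not.2 hv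
  have h1 : {n | ∀ᶠ i in (𝓤 : Filter J), n ∈ (p i).1 ∆ v}.Finite := by
    by_contra c
    obtain ⟨T, a1, a2⟩ := Set.Infinite.exists_subset_card_eq c 3
    obtain ⟨i, b1, b2⟩ := (hv.and ((eventually_all_finset T).2 fun n hn => a1 hn)).exists
    exact b1 (a2 ▸ Finset.card_le_card b2)
  have h2 : ∀ n, ∀ᶠ i in (𝓤 : Filter J), n ∈ (p i).1 ↔ n ∈ h1.toFinset ∆ v := fun n => by
    by_cases c : ∀ᶠ i in (𝓤 : Filter J), n ∈ (p i).1 ∆ v
    · have c1 : n ∈ h1.toFinset := h1.mem_toFinset.2 c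
      filter_upwards [c] with i hi
      rw [Finset.mem_symmDiff] at hi ⊢
      tauto
    · have c1 : n ∉ h1.toFinset := fun e => c (h1.mem_toFinset.1 e)
      filter_upwards [Ultrafilter.eventually_not.2 c] with i hi
      rw [Finset.mem_symmDiff] at hi ⊢
      tauto
  exact ⟨(h1.toFinset ∆ v, κ), _, Or.inr ⟨h2, hκ, rfl⟩, fun σ r hr => D.lim_P h2 hκ hr⟩

variable (ι) in
/-- The union of the blades. -/
def Fan : Type := ({x | ∃ p s, x = D.pt p s} : Set (Finset ℕ × Option (ι × Bool) → ℝ))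

variable [Countable ι]

noncomputable instance : MetricSpace (D.Fan ι) :=
  TopologicalSpace.metrizableSpaceMetric
    ({x | ∃ p s, x = D.pt p s} : Set (Finset ℕ × Option (ι × Bool) → ℝ))

/-- The blades. -/
noncomputable def γ (p : Finset ℕ × (ι → Bool)) (s : unitInterval) : D.Fan ι := ⟨D.pt p s, p, s, rfl⟩

theorem ind : IsInducing (fun x : D.Fan ι => (x.1 : Finset ℕ × Option (ι × Bool) → ℝ)) :=
  IsInducing.subtypeVal

omit [Countable ι] in
theorem γ_cover (x : D.Fan ι) : ∃ p s, x = D.γ p s := by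
  obtain ⟨x, b, s, rfl⟩ := x
  exact ⟨b, s, rfl⟩

omit [Countable ι] in
theorem γ_zero (p q : Finset ℕ × (ι → Bool)) : D.γ p 0 = D.γ q 0 :=
  Subtype.ext ((D.pt_zero p).trans (D.pt_zero q).symm)

theorem ultra_γ {J : Type} (𝓤 : Ultrafilter J) (p : J → Finset ℕ × (ι → Bool)) :
    ∃ (a : Finset ℕ × (ι → Bool)) (m : J → unitInterval → unitInterval),
      (m = (fun _ _ => 0) ∨ ((∀ n, ∀ᶠ i in (𝓤 : Filter J), n ∈ (p i).1 ↔ n ∈ a.1) ∧
        Tendsto (fun i => (p i).2) 𝓤 (𝓝 a.2) ∧ m = fun i => D.G ((p i).1 ∆ a.1))) ∧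
      ∀ σ : J → unitInterval, ∃ r, Tendsto (fun i => m i (σ i)) 𝓤 (𝓝 r) ∧
        Tendsto (fun i => D.γ (p i) (σ i)) 𝓤 (𝓝 (D.γ a r)) := by
  obtain ⟨a, m, h1, h2⟩ := D.ultra 𝓤 p
  refine ⟨a, m, h1, fun σ => ?_⟩
  obtain ⟨r, hr⟩ := ultra_lim 𝓤 fun i => m i (σ i)
  exact ⟨r, hr, D.ind.tendsto_nhds_iff.2 (h2 σ r hr)⟩

instance : CompactSpace (D.Fan ι) := by
  refine ⟨isCompact_iff_ultrafilter_le_nhds.2 fun 𝓤 _ => ?_⟩
  choose β σ h using D.γ_cover (ι := ι)
  obtain ⟨a, m, -, h3⟩ := D.ultra_γ 𝓤 β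
  obtain ⟨r, -, hr⟩ := h3 σ
  exact ⟨D.γ a r, mem_univ _, tendsto_id'.1 (hr.congr fun x => (h x).symm)⟩

theorem closed_side (f : Finset ℕ × (ι → Bool) → Prop) {q : Finset ℕ × (ι → Bool)} (hq : f q)
    (hf : ∀ {J : Type} (l : Filter J) (p : J → Finset ℕ × (ι → Bool)) (a : Finset ℕ × (ι → Bool)),
      (∀ n, ∀ᶠ i in l, n ∈ (p i).1 ↔ n ∈ a.1) → Tendsto (fun i => (p i).2) l (𝓝 a.2) →
        ∀ᶠ i in l, f (p i) ↔ f a) : IsClosed (⋃ a ∈ {a | f a}, range (D.γ a)) := by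
  refine isClosed_of_closure_subset fun x hx => ?_
  obtain ⟨𝓤, hS, hl⟩ := exists_ultra (S := {p | f p.1})
    (f := fun p : (Finset ℕ × (ι → Bool)) × unitInterval => D.γ p.1 p.2) (closure_mono (by
      intro y hy
      obtain ⟨a, ha, s, rfl⟩ := mem_iUnion₂.1 hy
      exact ⟨(a, s), ha, rfl⟩) hx)
  obtain ⟨a, m, h1, h2⟩ := D.ultra_γ 𝓤 Prod.fst
  obtain ⟨r, h3, h4⟩ := h2 Prod.snd
  rw [tendsto_nhds_unique hl h4]
  rcases h1 with rfl | ⟨a1, a2, -⟩
  · rw [← tendsto_nhds_unique tendsto_const_nhds h3]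
    exact mem_biUnion hq ⟨0, D.γ_zero _ _⟩
  · obtain ⟨i, b1, b2⟩ := ((hf _ _ a a1 a2).and hS).exists
    exact mem_biUnion (b1.1 b2) ⟨r, rfl⟩

variable (ι) in
/-- The blade structure. -/
noncomputable def blades : Blades (D.Fan ι) (Finset ℕ × (ι → Bool)) where
  t := D.γ (∅, fun _ => false) 0
  γ := D.γ
  ht := fun p x => x.1 (p.1, none)
  cont := fun p => D.ind.continuous_iff.2 (continuous_pi fun c =>
    (continuous_subtype_val.comp (D.G_cont _)).mul continuous_const)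
  zero := fun _ => D.γ_zero _ _
  ht_cont := fun p => (continuous_apply _).comp D.ind.continuous
  ht_γ := fun p s => D.pt_self p s
  cover := D.γ_cover
  disj := fun _ _ _ _ h => D.pt_disj (congrArg Subtype.val h)
  sep := fun p q h => by
    suffices H : ∃ f : Finset ℕ × (ι → Bool) → Prop, f p ∧ ¬ f q ∧ ∀ {J : Type} (l : Filter J)
        (p : J → Finset ℕ × (ι → Bool)) (a : Finset ℕ × (ι → Bool)),
        (∀ n, ∀ᶠ i in l, n ∈ (p i).1 ↔ n ∈ a.1) → Tendsto (fun i => (p i).2) l (𝓝 a.2) →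
          ∀ᶠ i in l, f (p i) ↔ f a by
      obtain ⟨f, h1, h2, h3⟩ := H
      exact ⟨{a | f a}, h1, h2, D.closed_side f h1 h3, D.closed_side (fun a => ¬ f a) h2
        fun l p a a1 a2 => (h3 l p a a1 a2).mono fun _ => not_congr⟩
    by_cases h1 : p.1 = q.1
    · obtain ⟨j, hj⟩ := Function.ne_iff.1 fun c => h (Prod.ext h1 c)
      refine ⟨fun a => a.2 j = p.2 j, rfl, hj.symm, fun l p a _ a2 => ?_⟩
      filter_upwards [tendsto_pure.1 (nhds_discrete Bool ▸ tendsto_pi_nhds.1 a2 j)] with i hi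
      rw [hi]
    · obtain ⟨n, hn⟩ := not_forall.1 fun c => h1 (Finset.ext c)
      exact ⟨fun a => n ∈ a.1 ↔ n ∈ p.1, Iff.rfl, fun c => hn c.symm,
        fun l p a a1 _ => (a1 n).mono fun i hi => iff_congr hi Iff.rfl⟩
  closed_le := by
    refine isClosed_of_closure_subset fun x hx => ?_
    obtain ⟨𝓤, hS, hl⟩ := exists_ultra (S := {p | p.2.1 ≤ p.2.2})
      (f := fun p : (Finset ℕ × (ι → Bool)) × unitInterval × unitInterval =>
        (D.γ p.1 p.2.1, D.γ p.1 p.2.2)) (closure_mono (by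
        rintro ⟨y, z⟩ ⟨a, s, s', h, rfl, rfl⟩
        exact ⟨(a, s, s'), h, rfl⟩) hx)
    obtain ⟨a, m, h1, h2⟩ := D.ultra_γ 𝓤 Prod.fst
    obtain ⟨r, h3, h4⟩ := h2 fun p => p.2.1
    obtain ⟨r', h5, h6⟩ := h2 fun p => p.2.2
    refine ⟨a, r, r', le_of_tendsto_of_tendsto h3 h5 (mem_of_superset hS fun i hi => ?_),
      tendsto_nhds_unique ((continuous_fst.tendsto _).comp hl) h4,
      tendsto_nhds_unique ((continuous_snd.tendsto _).comp hl) h6⟩
    rcases h1 with rfl | ⟨-, -, rfl⟩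
    · exact le_refl (0 : unitInterval)
    · exact D.G_mono _ hi
  three := ⟨fun i => ({i.1}, fun _ => false), fun i j h =>
    Fin.ext (Finset.singleton_injective (congrArg Prod.fst h))⟩

/-- Translation of the coordinates. -/
def tr (g : Finset ℕ × (ι → Bool)) (c : Finset ℕ × Option (ι × Bool)) :
    Finset ℕ × Option (ι × Bool) := (g.1 ∆ c.1, c.2.map fun q => (q.1, xor (g.2 q.1) q.2))

omit [Countable ι] in
theorem tr_tr (g : Finset ℕ × (ι → Bool)) (c : Finset ℕ × Option (ι × Bool)) :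
    tr g (tr g c) = c := by
  obtain ⟨v, _ | q⟩ := c <;> simp [tr]

omit [Countable ι] in
theorem pt_tr (g p : Finset ℕ × (ι → Bool)) (s : unitInterval) :
    D.pt p s ∘ tr g = D.pt (p.1 ∆ g.1, fun j => xor (g.2 j) (p.2 j)) s := by
  funext c
  obtain ⟨v, _ | q⟩ := c
  · simp [pt, tr, φ, symmDiff_assoc]
  · simp only [pt, tr, φ, symmDiff_assoc, Function.comp_apply, Option.map_some]
    have : ∀ x y z : Bool, (y = xor x z) ↔ (xor x y = z) := by decide
    simp only [this]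

theorem homog : IsEndpointHomogeneous (D.Fan ι) := by
  intro x y hx hy
  obtain ⟨p, rfl⟩ := ((D.blades ι).isEndpoint_iff x).1 hx
  obtain ⟨q, rfl⟩ := ((D.blades ι).isEndpoint_iff y).1 hy
  let g : Finset ℕ × (ι → Bool) := (p.1 ∆ q.1, fun j => xor (q.2 j) (p.2 j))
  let f : D.Fan ι → D.Fan ι := fun x => ⟨x.1 ∘ tr g, by
    obtain ⟨b, s, h⟩ := x.2
    exact ⟨_, s, by rw [h, D.pt_tr]⟩⟩
  have h1 : ∀ x, f (f x) = x := fun x => Subtype.ext (funext fun c => congrArg x.1 (tr_tr g c))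
  have h2 : Continuous f := D.ind.continuous_iff.2
    (continuous_pi fun c => (continuous_apply (tr g c)).comp D.ind.continuous)
  refine ⟨⟨⟨f, f, h1, h1⟩, h2, h2⟩, Subtype.ext ((D.pt_tr g p 1).trans ?_)⟩
  change _ = D.pt q 1
  congr 1
  exact Prod.ext (by simp [g]) (funext fun j => by simp [g])

theorem mem_closure_L (p : Finset ℕ × (ι → Bool)) (s r : unitInterval) {m : ℕ → ℕ}
    (h : Tendsto (fun n => D.L (m n) s) atTop (𝓝 r)) :
    D.γ p r ∈ closure ((fun c => D.γ c s) '' {c | c ≠ p}) := by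
  refine mem_closure_of_tendsto (b := atTop) (D.ind.tendsto_nhds_iff.2 (D.lim_P (σ := fun _ => s)
    (p := fun n => ({Nat.pair (m n) n} ∆ p.1, p.2)) (fun k => ?_) tendsto_const_nhds ?_))
    (Eventually.of_forall fun n => ⟨_, fun c => ?_, rfl⟩)
  · filter_upwards [eventually_gt_atTop k] with n hn
    have := Nat.right_le_pair (m n) n
    have h1 : k ≠ Nat.pair (m n) n := by omega
    simp [Finset.mem_symmDiff, h1]
  · simpa [G_single] using h
  · exact Finset.singleton_ne_empty _ (symmDiff_eq_right.1 (congrArg Prod.fst c))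

theorem closure_cases {C : Set (Finset ℕ × (ι → Bool))} {s : unitInterval} {x : D.Fan ι}
    (hx : x ∈ closure ((fun c => D.γ c s) '' C)) {Q : Set unitInterval} (hQ : IsClosed Q)
    (h0 : 0 ∈ Q) (h1 : ∀ m, D.L m s ∈ Q) (h2 : ∀ m r, r ∈ Q → D.L m r ∈ Q) :
    ∃ a, (x = D.γ a s ∧ ∃ c ∈ C, c.1 = a.1) ∨ ∃ r ∈ Q, x = D.γ a r := by
  obtain ⟨𝓤, hS, hl⟩ := exists_ultra hx
  obtain ⟨a, m, a1, a2⟩ := D.ultra_γ 𝓤 id
  obtain ⟨r, a3, a4⟩ := a2 fun _ => s
  have e := tendsto_nhds_unique hl a4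
  refine ⟨a, ?_⟩
  rcases a1 with rfl | ⟨-, -, rfl⟩
  · exact Or.inr ⟨r, tendsto_nhds_unique tendsto_const_nhds a3 ▸ h0, e⟩
  by_cases c : ∀ᶠ i in (𝓤 : Filter (Finset ℕ × (ι → Bool))), i.1 = a.1
  · obtain ⟨i, b1, b2⟩ := (c.and hS).exists
    refine Or.inl ⟨?_, i, b2, b1⟩
    rw [e, tendsto_nhds_unique a3 (tendsto_const_nhds.congr' (c.mono fun i hi => ?_))]
    simp [hi, G_empty]
  · exact Or.inr ⟨r, hQ.mem_of_tendsto a3 ((Ultrafilter.eventually_not.2 c).mono fun i hi =>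
      D.G_ind (p := (· ∈ Q)) (fun e => hi (symmDiff_eq_bot.1 e)) h1 h2), e⟩

/-- The letters fit the set `X`. -/
structure Fit (ι : Type) (X : Set unitInterval) : Prop where
  closed : IsClosed (X \ {1})
  zero : 0 ∈ X
  one : 1 ∈ X ↔ Nonempty ι
  inf : Nonempty ι → Infinite ι
  top : ∀ m, D.L m 1 ∈ X \ {1}
  maps : ∀ m, ∀ r ∈ X \ {1}, D.L m r ∈ X \ {1}
  dense : X \ {1} ⊆ closure (range fun m => D.L m 1)

variable {D} {X : Set unitInterval}

theorem Fit.marks (h : D.Fit ι X) (p : Finset ℕ × (ι → Bool)) (s : unitInterval) :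
    D.γ p s ∈ closure ((fun c => D.γ c 1) '' {c | c ≠ p}) ↔ s ∈ X := by
  classical
  constructor
  · intro hx
    obtain ⟨a, ⟨a1, c, a2, a3⟩ | ⟨r, a1, a2⟩⟩ :=
      D.closure_cases hx h.closed ⟨h.zero, zero_ne_one⟩ h.top h.maps
    · rcases (D.blades ι).disj _ _ _ _ a1 with rfl | rfl
      · rw [(D.blades ι).inj p a1]
        obtain ⟨j, -⟩ := Function.ne_iff.1 fun e => a2 (Prod.ext a3 e)
        exact h.one.2 ⟨j⟩
      · exact h.zero
    · rcases (D.blades ι).disj _ _ _ _ a2 with rfl | rfl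
      · rw [(D.blades ι).inj p a2]; exact a1.1
      · exact h.zero
  · intro hs
    by_cases h1 : s = 1
    · subst h1
      have := h.inf (h.one.1 hs)
      refine mem_closure_of_tendsto (b := cofinite) (D.ind.tendsto_nhds_iff.2 (D.lim_P
        (σ := fun _ => 1) (p := fun j => (p.1, Function.update p.2 j (!p.2 j)))
        (fun _ => Eventually.of_forall fun _ => Iff.rfl) (tendsto_pi_nhds.2 fun j => ?_) ?_))
        (Eventually.of_forall fun j => ⟨_, fun c => ?_, rfl⟩)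
      · exact tendsto_const_nhds.congr' ((eventually_cofinite_ne j).mono fun i hi =>
          (Function.update_of_ne hi.symm _ _).symm)
      · simp [G_empty]
      · simpa using congrFun (congrArg Prod.snd c) j
    · obtain ⟨x, a1, a2⟩ := mem_closure_iff_seq_limit.1 (h.dense ⟨hs, h1⟩)
      choose m hm using a1
      exact D.mem_closure_L p 1 s (a2.congr fun n => (hm n).symm)

omit [Countable ι] in
theorem ends_diff {F V : Type} [MetricSpace F] [CompactSpace F] (B : Blades F V) (b : V) :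
    En F \ range (B.γ b) = (fun c => B.γ c 1) '' {c | c ≠ b} := by
  ext x
  constructor
  · rintro ⟨hx, h⟩
    obtain ⟨c, rfl⟩ := (B.isEndpoint_iff x).1 hx
    exact ⟨c, fun e => h ⟨1, by rw [e]⟩, rfl⟩
  · rintro ⟨c, hc, rfl⟩
    refine ⟨(B.isEndpoint_iff _).2 ⟨c, rfl⟩, fun ⟨s, hs⟩ => ?_⟩
    exact (B.disj _ _ _ _ hs.symm).elim hc one_ne_zero

theorem Fit.epg (h : D.Fit ι X) : IsEPG (D.Fan ι) (D.blades ι).t X := by
  intro x hx
  obtain ⟨b, rfl⟩ := ((D.blades ι).isEndpoint_iff x).1 hx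
  refine ⟨_, (D.blades ι).cont b, (D.blades ι).inj b, (D.blades ι).zero b, rfl,
    ((D.blades ι).seg_top_one b).symm, ?_⟩
  rw [(D.blades ι).seg_top_one b, ends_diff]
  ext x
  constructor
  · rintro ⟨s, hs, rfl⟩
    exact ⟨⟨s, rfl⟩, (h.marks b s).2 hs⟩
  · rintro ⟨⟨s, rfl⟩, hx⟩
    exact ⟨s, (h.marks b s).1 hx, rfl⟩

theorem Fit.mem_Y (h : D.Fit ι X) (p : Finset ℕ × (ι → Bool)) (s : unitInterval) :
    D.γ p s ∈ MF.Yy (D.Fan ι) ↔ s ∈ X \ {1} := by
  have h1 : ∀ s, D.γ p s ∈ En (D.Fan ι) ↔ s = 1 := fun s => by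
    refine ((D.blades ι).isEndpoint_iff _).trans ⟨fun ⟨c, hc⟩ => ?_, fun e => ⟨p, e ▸ rfl⟩⟩
    rcases (D.blades ι).disj _ _ _ _ hc.symm with rfl | c
    · exact (D.blades ι).inj _ hc
    · exact absurd c one_ne_zero
  have h2 : En (D.Fan ι) ⊆ (En (D.Fan ι) \ range (D.γ p)) ∪ {D.γ p 1} := fun x hx => by
    by_cases c : x ∈ range (D.γ p)
    · obtain ⟨r, rfl⟩ := c
      exact Or.inr (by rw [(h1 r).1 hx]; rfl)
    · exact Or.inl ⟨hx, c⟩
  have h3 := h.marks p s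
  rw [show (fun c => D.γ c 1) '' {c | c ≠ p} = En (D.Fan ι) \ range (D.γ p) from
    (ends_diff (D.blades ι) p).symm] at h3
  constructor
  · rintro ⟨a1, a2⟩
    have a3 := closure_mono h2 a1
    rw [closure_union, closure_singleton] at a3
    exact ⟨h3.1 (a3.resolve_right fun c => a2 (by rw [c]; exact (h1 1).2 rfl)),
      fun c => a2 ((h1 s).2 c)⟩
  · exact fun ⟨a1, a2⟩ => ⟨closure_mono sdiff_subset (h3.2 a1), fun c => a2 ((h1 s).1 c)⟩

end MD

/-- The highest marked points other than end points. -/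
def Tp (F : Type) [MetricSpace F] (t : F) : Set F :=
  {x | x ∈ MF.Yy F ∧ ∀ y ∈ MF.Yy F, x ∈ seg t y → y = x}

theorem Tp_map {F G : Type} [MetricSpace F] [MetricSpace G] (g : F ≃ₜ G) (t : F) :
    Tp F t = g ⁻¹' Tp G (g t) := by
  have h1 : ∀ x, g x ∈ MF.Yy G ↔ x ∈ MF.Yy F := fun x =>
    and_congr (cl_map_iff g) (not_congr (end_map_iff g))
  ext x
  simp only [Tp, mem_preimage, mem_ofPred_eq, g.surjective.forall, h1, seg_map_iff,
    g.injective.eq_iff]

namespace MD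

variable {D : MD} {ι : Type} [Countable ι] {X : Set unitInterval} {β : unitInterval}

theorem Fit.Tp_eq (h : D.Fit ι X) (hβ : IsGreatest (X \ {1}) β) (h0 : β ≠ 0) :
    Tp (D.Fan ι) (D.blades ι).t = (fun p => D.γ p β) '' univ := by
  ext x
  constructor
  · rintro ⟨a1, a2⟩
    obtain ⟨p, s, rfl⟩ := D.γ_cover x
    exact ⟨p, mem_univ _, a2 _ ((h.mem_Y p β).2 hβ.1) (((D.blades ι).mem_seg_iff _ _).2
      ⟨p, s, β, hβ.2 ((h.mem_Y p s).1 a1), rfl, rfl⟩)⟩
  · rintro ⟨p, -, rfl⟩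
    refine ⟨(h.mem_Y p β).2 hβ.1, fun y hy c => ?_⟩
    obtain ⟨q, s, s', a1, a2, rfl⟩ := ((D.blades ι).mem_seg_iff _ _).1 c
    obtain rfl := ((D.blades ι).disj _ _ _ _ a2).resolve_right h0
    obtain rfl := (D.blades ι).inj p a2
    rw [le_antisymm (hβ.2 ((h.mem_Y p s').1 hy)) a1]
    rfl

theorem not_homeo {D' : MD} (h : D.Fit ι X) (h' : D'.Fit ι X) (hβ : IsGreatest (X \ {1}) β)
    (hD : ∀ m, D.L m β = 0) {m : ℕ} (h1 : D'.L m β ≠ 0) : IsEmpty (D.Fan ι ≃ₜ D'.Fan ι) := by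
  have h0 : β ≠ 0 := fun c => h1 (by rw [c, D'.zero])
  refine ⟨fun g => ?_⟩
  have e := top_map (D.blades ι).isFan (D'.blades ι).isFan g
  let p : Finset ℕ × (ι → Bool) := (∅, fun _ => false)
  have a1 : D'.γ p (D'.L m β) ∈ closure (Tp (D'.Fan ι) (D'.blades ι).t) := by
    rw [h'.Tp_eq hβ h0]
    exact closure_mono (image_mono (subset_univ _))
      (D'.mem_closure_L p β _ (m := fun _ => m) tendsto_const_nhds)
  obtain ⟨x, hx⟩ := g.surjective (D'.γ p (D'.L m β))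
  rw [← hx, ← mem_preimage, g.preimage_closure, ← e, ← Tp_map, h.Tp_eq hβ h0] at a1
  obtain ⟨a, ⟨a2, -⟩ | ⟨r, rfl, a2⟩⟩ := D.closure_cases a1 (Q := {0}) isClosed_singleton rfl hD
    fun m r hr => by rw [hr]; exact D.zero m
  · have a3 : x ∈ Tp (D.Fan ι) (D.blades ι).t := by
      rw [h.Tp_eq hβ h0]; exact ⟨a, mem_univ _, a2.symm⟩
    rw [Tp_map g, e, h'.Tp_eq hβ h0, mem_preimage, hx] at a3
    obtain ⟨q, -, a4⟩ := a3
    obtain rfl := ((D'.blades ι).disj _ _ _ _ a4).resolve_right h0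
    exact (D'.lt m β h0).ne' ((D'.blades ι).inj _ a4)
  · rw [a2, show D.γ a 0 = _ from (D.blades ι).zero a, e] at hx
    exact h1 (((D'.blades ι).eq_t_iff _ _).1 hx.symm)

end MD

/-- The map rising linearly from `0` at `p` to `y` at `q`. -/
noncomputable def ramp (p q : ℝ) (y s : unitInterval) : unitInterval :=
  y * projIcc 0 1 zero_le_one ((s - p) / (q - p))

section ramp

variable {p q : ℝ} {y s : unitInterval}

theorem ramp_cont : Continuous (ramp p q y) :=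
  continuous_const.mul (continuous_projIcc.comp (by fun_prop))

theorem ramp_mono (h : p < q) : Monotone (ramp p q y) := fun s r hs => by
  have h1 : (s : ℝ) ≤ r := hs
  exact mul_le_mul_of_nonneg_left (monotone_projIcc _
    (div_le_div_of_nonneg_right (by linarith) (by linarith))) unitInterval.nonneg'

theorem ramp_le : ramp p q y s ≤ y := unitInterval.mul_le_left

theorem ramp_zero (h : p < q) (hs : (s : ℝ) ≤ p) : ramp p q y s = 0 := by
  rw [ramp, projIcc_of_le_left _ (div_nonpos_of_nonpos_of_nonneg (by linarith) (by linarith))]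
  exact mul_zero y

theorem ramp_top (h : p < q) (hs : q ≤ s) : ramp p q y s = y := by
  rw [ramp, projIcc_of_right_le _ ((one_le_div (by linarith)).2 (by linarith))]
  exact mul_one y

theorem ramp_lt (h : p < q) (hy : (y : ℝ) ≤ p) (hs : s ≠ 0) : ramp p q y s < s := by
  rcases le_or_gt (s : ℝ) p with c | c
  · rw [ramp_zero h c]; exact lt_of_le_of_ne unitInterval.nonneg' hs.symm
  · exact ramp_le.trans_lt (show (y : ℝ) < s from hy.trans_lt c)

end ramp

theorem exists_model {X : Set unitInterval} {β u : unitInterval} {p q : ℝ}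
    (hc : IsClosed (X \ {1})) (h0 : 0 ∈ X) (hβ : IsGreatest (X \ {1}) β) (hu : u ∈ X \ {1})
    (h1 : (u : ℝ) ≤ p) (h2 : p < q) (h3 : q ≤ β)
    (h4 : ∀ r ∈ X \ {1}, ramp p q u r ∈ X \ {1}) :
    ∃ D : MD, D.Fit {_n : ℕ // 1 ∈ X} X ∧ D.L 0 β = u ∧ ∀ m, D.L (m + 1) β = 0 := by
  have : Nonempty (X \ {1} : Set unitInterval) := ⟨⟨u, hu⟩⟩
  let x := TopologicalSpace.denseSeq (X \ {1} : Set unitInterval)
  have b1 : (β : ℝ) < 1 := lt_of_le_of_ne β.2.2 fun c => hβ.1.2 (Subtype.ext c)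
  have x1 : ∀ m, ((x m).1 : ℝ) ≤ β := fun m => hβ.2 (x m).2
  have u0 := u.2.1
  obtain ⟨L, l0, l1⟩ : ∃ L : ℕ → unitInterval → unitInterval, L 0 = ramp p q u ∧
      ∀ m, L (m + 1) = ramp β 1 (x m).1 :=
    ⟨fun m => Nat.rec (ramp p q u) (fun m _ => ramp β 1 (x m).1) m, rfl, fun _ => rfl⟩
  have Lu : ∀ s, (L 0 s : ℝ) ≤ p := fun s => by
    rw [l0]; exact (show (ramp p q u s : ℝ) ≤ u from ramp_le).trans h1
  have Lb : ∀ m s, (L m s : ℝ) ≤ β := fun m s => by
    rcases m with _ | m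
    · linarith [Lu s]
    · rw [l1]; exact (show (ramp β 1 (x m).1 s : ℝ) ≤ (x m).1 from ramp_le).trans (x1 m)
  have L0 : ∀ m, L m 0 = 0 := fun m => by
    rcases m with _ | m
    · rw [l0]; exact ramp_zero h2 (u0.trans h1)
    · rw [l1]; exact ramp_zero b1 β.2.1
  have L1 : ∀ m, L (m + 1) 1 = (x m).1 := fun m => by rw [l1]; exact ramp_top b1 le_rfl
  have L2 : ∀ m (s : unitInterval), (s : ℝ) ≤ β → L (m + 1) s = 0 := fun m s hs => by
    rw [l1]; exact ramp_zero b1 hs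
  refine ⟨⟨L, fun m => ?_, fun m => ?_, L0, fun m s hs => ?_, fun m n k s => ?_⟩,
    ⟨hc, h0, ⟨fun c => ⟨⟨0, c⟩⟩, fun ⟨c⟩ => c.2⟩, fun ⟨c⟩ =>
      Infinite.of_injective (fun n => ⟨n, c.2⟩) fun _ _ e => congrArg Subtype.val e,
      fun m => ?_, fun m r hr => ?_, fun r hr => ?_⟩, ?_, fun m => L2 m β le_rfl⟩
  · rcases m with _ | m
    · rw [l0]; exact ramp_cont
    · rw [l1]; exact ramp_cont
  · rcases m with _ | m
    · rw [l0]; exact ramp_mono h2
    · rw [l1]; exact ramp_mono b1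
  · rcases m with _ | m
    · rw [l0]; exact ramp_lt h2 h1 hs
    · rw [l1]; exact ramp_lt b1 (x1 m) hs
  · rcases m with _ | m
    · rcases n with _ | n
      · exact (congrFun l0 _).trans (ramp_zero h2 (Lu _))
      · rw [L2 n _ (Lb _ _), L0]
    · exact L2 m _ (Lb _ _)
  · change L m 1 ∈ _
    rcases m with _ | m
    · rw [l0, ramp_top h2 (h3.trans β.2.2)]; exact hu
    · rw [L1]; exact (x m).2
  · change L m r ∈ _
    rcases m with _ | m
    · rw [l0]; exact h4 r hr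
    · rw [L2 m r (hβ.2 hr)]; exact ⟨h0, zero_ne_one⟩
  · refine closure_mono ?_ (image_closure_subset_closure_image continuous_subtype_val
      ⟨⟨r, hr⟩, TopologicalSpace.denseRange_denseSeq _ _, rfl⟩)
    rintro _ ⟨_, ⟨m, rfl⟩, rfl⟩
    exact ⟨m + 1, L1 m⟩
  · exact (congrFun l0 _).trans (ramp_top h2 h3)

theorem MD.Fit.all {D : MD} {ι : Type} [Countable ι] {X : Set unitInterval} (h : D.Fit ι X) :
    IsFan (D.Fan ι) (D.blades ι).t ∧ IsSmooth (D.Fan ι) (D.blades ι).t ∧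
      IsEndpointHomogeneous (D.Fan ι) ∧ IsEPG (D.Fan ι) (D.blades ι).t X :=
  ⟨(D.blades ι).isFan, (D.blades ι).isSmooth, D.homog, h.epg⟩

theorem exists_ramp {X : Set unitInterval} {β : unitInterval} (hc : IsClosed (X \ {1}))
    (h0 : 0 ∈ X) (hβ : IsGreatest (X \ {1}) β) (hb : β ≠ 0)
    (hX : ¬ ∃ a b, a ≤ b ∧ X \ {0, 1} = Icc a b) : ∃ (u : unitInterval) (p q : ℝ), u ≠ 0 ∧
      u ∈ X \ {1} ∧ (u : ℝ) ≤ p ∧ p < q ∧ q ≤ β ∧ ∀ r ∈ X \ {1}, ramp p q u r ∈ X \ {1} := by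
  have b0 : (0 : ℝ) < β := lt_of_le_of_ne β.2.1 fun c => hb (Subtype.ext c.symm)
  by_cases h1 : ∃ u ∈ X \ {1}, u ≠ 0 ∧ ∃ w, u < w ∧ w < β ∧ w ∉ X \ {1}
  · obtain ⟨u, a1, a2, w, a3, a4, a5⟩ := h1
    have a3' : (u : ℝ) < w := a3
    have a4' : (w : ℝ) < β := a4
    obtain ⟨ε, hε, a6⟩ := Metric.isOpen_iff.1 hc.isOpen_compl w a5
    have a7 : ∀ r ∈ X \ {1}, (r : ℝ) ≤ w - ε ∨ w + ε ≤ r := fun r hr => by
      have : ε ≤ |(r : ℝ) - w| := not_lt.1 fun c => a6 (show dist r w < ε from c) hr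
      rcases le_abs.1 this with c | c
      · exact Or.inr (by linarith)
      · exact Or.inl (by linarith)
    refine ⟨u, w - ε, w + ε, a2, a1, (a7 u a1).resolve_right (by linarith), by linarith,
      (a7 β hβ.1).resolve_left (by linarith), fun r hr => ?_⟩
    rcases a7 r hr with c | c
    · rw [ramp_zero (by linarith) c]; exact ⟨h0, zero_ne_one⟩
    · rw [ramp_top (by linarith) c]; exact a1
  push Not at h1
  have h2 : ∀ u ∈ X \ {1}, u ≠ 0 → ∀ w, u ≤ w → w ≤ β → w ∈ X \ {1} := fun u a1 a2 w a3 a4 => by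
    rcases a3.eq_or_lt with rfl | a3
    · exact a1
    rcases a4.eq_or_lt with rfl | a4
    · exact hβ.1
    · exact h1 u a1 a2 w a3 a4
  obtain ⟨a, a1, a2⟩ := (isClosed_closure (s := X \ {0, 1})).isCompact.exists_isLeast
    ⟨β, subset_closure ⟨hβ.1.1, fun c => c.elim hb hβ.1.2⟩⟩
  have a3 : a ∈ X \ {1} := closure_minimal
    (show X \ {0, 1} ⊆ X \ {1} from fun r hr => ⟨hr.1, fun c => hr.2 (Or.inr c)⟩) hc a1
  by_cases a4 : a = 0
  · have a5 : ∀ w, w ≤ β → w ∈ X \ {1} := fun w hw => by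
      by_cases c : w = 0
      · rw [c]; exact ⟨h0, zero_ne_one⟩
      · obtain ⟨u, c1, c2⟩ := mem_closure_iff.1 a1 (Iio w) isOpen_Iio
          (a4 ▸ lt_of_le_of_ne unitInterval.nonneg' (Ne.symm c))
        exact h2 u ⟨c2.1, fun e => c2.2 (Or.inr e)⟩ (fun e => c2.2 (Or.inl e)) w (le_of_lt c1) hw
    have b1 := β.2.2
    refine ⟨⟨β / 2, by linarith, by linarith⟩, β / 2, β, fun c => ?_,
      a5 _ (show (β : ℝ) / 2 ≤ β by linarith), le_rfl, by linarith, le_rfl,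
      fun r _ => a5 _ (ramp_le.trans (show (β : ℝ) / 2 ≤ β by linarith))⟩
    have : (β : ℝ) / 2 = 0 := congrArg Subtype.val c
    linarith
  · refine absurd ⟨a, β, hβ.2 a3, subset_antisymm (fun r hr =>
      ⟨a2 (subset_closure hr), hβ.2 ⟨hr.1, fun c => hr.2 (Or.inr c)⟩⟩) fun r hr => ?_⟩ hX
    have c := h2 a a3 a4 r hr.1 hr.2
    exact ⟨c.1, fun e => e.elim (fun e => a4 (le_antisymm (e ▸ hr.1) unitInterval.nonneg')) c.2⟩

end Pool.Agent.Lib.MP_56c207_gt.Cl
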