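import Mathlib

set_option autoImplicit false

namespace Pool.Agent.Lib.MP_56c207_gt

open Set Filter Topology

variable {F : Type} [MetricSpace F]

/-- `A` is an arc with end points `x` and `y`: the image of a continuous injection of `[0,1]`
sending `0` to `x` and `1` to `y`. -/
def IsArc (A : Set F) (x y : F) : Prop :=
  ∃ α : unitInterval → F, Continuous α ∧ Function.Injective α ∧ α 0 = x ∧ α 1 = y ∧ range α = A

/-- A subcontinuum: a nonempty compact connected subset. -/
def IsSubcontinuum (K : Set F) : Prop := IsCompact K ∧ IsConnected K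

/-- A dendroid: an arcwise connected, hereditarily unicoherent continuum. -/
def IsDendroid (F : Type) [MetricSpace F] : Prop :=
  CompactSpace F ∧ ConnectedSpace F ∧ (∀ x y : F, x ≠ y → ∃ A, IsArc A x y) ∧
    ∀ K A B : Set F, IsSubcontinuum K → IsSubcontinuum A → IsSubcontinuum B → A ∪ B = K →
      IsConnected (A ∩ B)

/-- `x` is the vertex of a simple triod. -/
def IsRamificationPoint (x : F) : Prop :=
  ∃ (A : Fin 3 → Set F) (y : Fin 3 → F), (∀ i, IsArc (A i) x (y i)) ∧
    ∀ i j, i ≠ j → A i ∩ A j = {x}

/-- A fan with top `t`: a dendroid whose only ramification point is `t`. -/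
def IsFan (F : Type) [MetricSpace F] (t : F) : Prop :=
  IsDendroid F ∧ ∀ x : F, IsRamificationPoint x ↔ x = t

/-- `e` is an end point of every arc containing it. -/
def IsEndpoint (e : F) : Prop :=
  ∀ A x y, IsArc A x y → e ∈ A → e = x ∨ e = y

/-- The set `[x,y]`: in a dendroid, the unique arc from `x` to `y`, or `{x}` if `x = y`. -/
def seg (x y : F) : Set F := {z | z = x ∨ ∃ A, IsArc A x y ∧ z ∈ A}

/-- Smoothness with respect to the top `t`. -/
def IsSmooth (F : Type) [MetricSpace F] (t : F) : Prop :=
  ∀ (x : ℕ → F) (a : F), Tendsto x atTop (𝓝 a) →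
    Tendsto (fun n => Metric.hausdorffDist (seg t (x n)) (seg t a)) atTop (𝓝 0)

/-- Any end point can be sent to any other by a self-homeomorphism. -/
def IsEndpointHomogeneous (F : Type) [MetricSpace F] : Prop :=
  ∀ e e' : F, IsEndpoint e → IsEndpoint e' → ∃ h : F ≃ₜ F, h e = e'

/-- Every blade `B = [t,e]` has a parametrization from `t` to `e` carrying `X` onto the set of
points of `B` that are limits of end points outside `B`. -/
def IsEPG (F : Type) [MetricSpace F] (t : F) (X : Set unitInterval) : Prop :=
  ∀ e : F, IsEndpoint e → ∃ φ : unitInterval → F, Continuous φ ∧ Function.Injective φ ∧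
    φ 0 = t ∧ φ 1 = e ∧ range φ = seg t e ∧
    φ '' X = seg t e ∩ closure ({x : F | IsEndpoint x} \ seg t e)

end Pool.Agent.Lib.MP_56c207_gt
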