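import Pool.Agent.Lib.MP_56c207_gt.Tree

set_option autoImplicit false

namespace Pool.Agent.Lib.MP_56c207_gt

open Set Filter Topology

/-- Second-order accumulation points of the set of end points. -/
def Acc (F : Type) [MetricSpace F] : Set F :=
  {x | x ∈ closure ((closure {e : F | IsEndpoint e} \ {e : F | IsEndpoint e}) \ {x})}

theorem isEndpoint_of_homeo {F G : Type} [MetricSpace F] [MetricSpace G] (h : F ≃ₜ G) {e : F}
    (he : IsEndpoint (h e)) : IsEndpoint e := by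
  rintro A x y ⟨α, hc, hi, rfl, rfl, rfl⟩ ⟨u, hu⟩
  have := he (range (h ∘ α)) (h (α 0)) (h (α 1))
    ⟨h ∘ α, h.continuous.comp hc, h.injective.comp hi, rfl, rfl, rfl⟩ ⟨u, by simp [hu]⟩
  simpa using this

theorem acc_of_homeo {F G : Type} [MetricSpace F] [MetricSpace G] (h : F ≃ₜ G) {x : F}
    (hx : h x ∈ Acc G) : x ∈ Acc F := by
  have h1 : {e : F | IsEndpoint e} = h ⁻¹' {e : G | IsEndpoint e} := by
    ext e
    refine ⟨fun he => isEndpoint_of_homeo h.symm ?_, fun he => isEndpoint_of_homeo h he⟩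
    simpa using he
  have h2 : ({x} : Set F) = h ⁻¹' {h x} := by
    ext z; simp
  change x ∈ closure ((closure {e : F | IsEndpoint e} \ {e : F | IsEndpoint e}) \ {x})
  rw [h1, h2, ← h.preimage_closure, ← preimage_sdiff, ← preimage_sdiff, ← h.preimage_closure]
  exact hx

theorem G_one₁ : (G 1 (1 / 3) 1 : ℝ) = 2 / 3 := by rw [coe_G]; norm_num
theorem G_one₂ : (G 1 (2 / 3) 1 : ℝ) = 1 / 3 := by rw [coe_G]; norm_num
theorem G_one₃ : (G 2 (2 / 3) 1 : ℝ) = 2 / 3 := by rw [coe_G]; norm_num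

theorem acc₀ {x : D₀.Fan} (hx : x ∈ Acc D₀.Fan) : x = D₀.blades.t := by
  have h1 : (closure {e : D₀.Fan | IsEndpoint e} \ {e : D₀.Fan | IsEndpoint e}) \ {x} ⊆
      (fun b => D₀.γ b (D₀.g₁ 1)) '' {b | D₀.γ b (D₀.g₁ 1) ≠ x} ∪
      (fun b => D₀.γ b (D₀.g₂ 1)) '' {b | D₀.γ b (D₀.g₂ 1) ≠ x} ∪
      (fun b => D₀.γ b 0) '' {b | D₀.γ b 0 ≠ x} := by
    rintro y ⟨⟨hy1, hy2⟩, hy3⟩
    rw [D₀.endpoints_eq] at hy1 hy2
    rcases D₀.closure_level hy1 with ⟨a, -, rfl⟩ | ⟨a, rfl | rfl | rfl⟩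
    · exact absurd ⟨a, mem_univ _, rfl⟩ hy2
    · exact Or.inl (Or.inl ⟨a, hy3, rfl⟩)
    · exact Or.inl (Or.inr ⟨a, hy3, rfl⟩)
    · exact Or.inr ⟨a, hy3, rfl⟩
  have h2 := closure_mono h1 hx
  rw [closure_union, closure_union] at h2
  have key : ∀ s : unitInterval, D₀.g₁ s = 0 → D₀.g₂ s = 0 →
      x ∈ closure ((fun b => D₀.γ b s) '' {b | D₀.γ b s ≠ x}) → x = D₀.blades.t := by
    intro s z1 z2 h
    rcases D₀.closure_level h with ⟨a, ha, h⟩ | ⟨a, h | h | h⟩
    · exact absurd h.symm ha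
    · rw [h, z1]; exact D₀.blades.zero a
    · rw [h, z2]; exact D₀.blades.zero a
    · rw [h]; exact D₀.blades.zero a
  rcases h2 with (h | h) | h
  · exact key _ (G_eq_zero zero_le_two G_one₃.le) (D₀.z21 _) h
  · exact key _ (D₀.z12 _) (D₀.z22 _) h
  · exact key _ D₀.zero₁ D₀.zero₂ h

theorem acc₁ (a : Tr) : D₁.γ a (D₁.g₁ (D₁.g₁ 1)) ∈ Acc D₁.Fan := by
  have h1 := D₁.mem_closure_P (a := a) (C := {b | b ≠ a}) (s := D₁.g₁ 1) (child a)
    (tendsto_of_inj (child_inj a)) (up_child a) (fun n h => D₁.neP a (by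
      have := up_child a n
      rwa [h] at this))
  have hne0 : D₁.g₁ 1 ≠ 0 := fun h => by
    have h2 : (G 1 (1 / 3) 1 : ℝ) = 0 := congrArg Subtype.val h
    rw [G_one₁] at h2
    norm_num at h2
  refine closure_mono ?_ h1
  rintro _ ⟨b, hb, rfl⟩
  refine ⟨⟨?_, ?_⟩, ?_⟩
  · rw [D₁.endpoints_eq]
    exact D₁.mem_closure_P (child b) (tendsto_of_inj (child_inj b)) (up_child b)
      (fun _ => mem_univ _)
  · rw [D₁.endpoints_eq]
    rintro ⟨c, -, hc⟩
    rcases D₁.blades.disj _ _ _ _ hc with h | h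
    · subst h
      exact (D₁.lt₁ 1 one_ne_zero).ne' (D₁.blades.inj _ hc)
    · exact one_ne_zero h
  · intro h
    rcases D₁.blades.disj _ _ _ _ h with h | h
    · exact hb h
    · exact hne0 h

theorem not_homeo : IsEmpty (D₀.Fan ≃ₜ D₁.Fan) := by
  refine ⟨fun h => ?_⟩
  have key : ∀ a : Tr, D₁.γ a (D₁.g₁ (D₁.g₁ 1)) = h D₀.blades.t := by
    intro a
    rw [← acc₀ (x := h.symm (D₁.γ a (D₁.g₁ (D₁.g₁ 1)))) (acc_of_homeo h (by
      rw [h.apply_symm_apply]; exact acc₁ a)), h.apply_symm_apply]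
  rcases D₁.blades.disj _ _ _ _ ((key (0, 0)).trans (key (1, 0)).symm) with h1 | h1
  · exact absurd (congrArg Prod.fst h1) zero_ne_one
  · have h2 : (G 1 (1 / 3) (G 1 (1 / 3) 1) : ℝ) = 0 := congrArg Subtype.val h1
    rw [coe_G, G_one₁] at h2
    norm_num at h2

theorem level_inj : Function.Injective (fun n : ℕ => (((n : ℤ), 0) : Tr)) := fun _ _ h =>
  Nat.cast_injective (congrArg Prod.fst h)

theorem tendsto_of_level {W : Type} (f : ℕ → W) (l : W → ℤ) (c : ℤ) (h : ∀ n, l (f n) = n - c) :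
    Tendsto f atTop cofinite :=
  tendsto_of_inj fun n m hnm => by
    have h1 := h n
    rw [hnm, h m] at h1
    omega

theorem marks (s : unitInterval → unitInterval) (r : unitInterval → unitInterval)
    (hs : (s 1 : ℝ) = 1 / 3) (hr : (r 1 : ℝ) = 2 / 3) :
    ({0, s 1, r 1} : Set unitInterval) =
      {x : unitInterval | (x : ℝ) ∈ ({0, 1 / 3, 2 / 3} : Set ℝ)} := by
  ext x
  simp only [mem_insert_iff, mem_singleton_iff, mem_ofPred_eq, Subtype.ext_iff, hs, hr]
  rfl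

theorem epg₁ : IsEPG D₁.Fan D₁.blades.t {x : unitInterval | (x : ℝ) ∈ ({0, 1 / 3, 2 / 3} : Set ℝ)} := by
  rw [← marks D₁.g₂ D₁.g₁ G_one₂ G_one₁]
  refine D₁.isEPG (fun a => ⟨child a, tendsto_of_inj (child_inj a), up_child a⟩)
    (fun a => ⟨fun n => child (child a n) 0, tendsto_of_inj fun n m h => ?_, ?_, fun n => ?_⟩)
    ⟨fun n => ((n : ℤ), 0), tendsto_of_inj level_inj,
      tendsto_of_level _ Prod.fst 1 fun n => rfl,
      tendsto_of_level _ Prod.fst 2 fun n => ?_⟩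
  · have := congrArg up h
    simp only [up_child] at this
    exact child_inj a this
  · change Tendsto (fun n => up (child (child a n) 0)) atTop cofinite
    simp only [up_child]
    exact tendsto_of_inj (child_inj a)
  · change up (up (child (child a n) 0)) = a
    simp only [up_child]
  · change (n : ℤ) - 1 - 1 = n - 2
    ring

theorem epg₀ : IsEPG D₀.Fan D₀.blades.t {x : unitInterval | (x : ℝ) ∈ ({0, 1 / 3, 2 / 3} : Set ℝ)} := by
  rw [← marks D₀.g₂ D₀.g₁ G_one₂ G_one₃]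
  refine D₀.isEPG
    (fun a => ⟨fun n => (child a.1 n, a.2), tendsto_of_inj fun n m h =>
      child_inj _ (congrArg Prod.fst h), fun n => ?_⟩)
    (fun a => ⟨fun n => (a.1, child a.2 n), tendsto_of_inj fun n m h =>
      child_inj _ (congrArg Prod.snd h), tendsto_of_inj fun n m h =>
      child_inj _ (congrArg Prod.snd h), fun n => ?_⟩)
    ⟨fun n => (((n : ℤ), 0), ((n : ℤ), 0)),
      tendsto_of_level _ (fun z => z.1.1) 0 fun n => by simp,
      tendsto_of_level _ (fun z => z.1.1) 1 fun n => rfl,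
      tendsto_of_level _ (fun z => z.2.1) 1 fun n => rfl⟩
  · change (up (child a.1 n), a.2) = a
    rw [up_child]
  · change (a.1, up (child a.2 n)) = a
    rw [up_child]

theorem homog₁ : IsEndpointHomogeneous D₁.Fan := by
  refine D₁.homogeneous fun b c => ?_
  obtain ⟨e, he, hbc⟩ := exists_aut b c
  refine ⟨e, he, fun z => ?_, hbc⟩
  change e (up (up z)) = up (up (e z))
  rw [he, he]

theorem homog₀ : IsEndpointHomogeneous D₀.Fan := by
  refine D₀.homogeneous fun b c => ?_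
  obtain ⟨e, he, hbc⟩ := exists_aut b.1 c.1
  obtain ⟨e', he', hbc'⟩ := exists_aut b.2 c.2
  refine ⟨e.prodCongr e', fun z => ?_, fun z => ?_, Prod.ext hbc hbc'⟩
  · change (e (up z.1), e' z.2) = (up (e z.1), e' z.2)
    rw [he]
  · change (e z.1, e' (up z.2)) = (e z.1, up (e' z.2))
    rw [he']

end Pool.Agent.Lib.MP_56c207_gt
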