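import Pool.Agent.Lib.MP_56c207_gt.Smooth

set_option autoImplicit false

namespace Pool.Agent.Lib.MP_56c207_gt

open Set Filter Topology

/-- A set of indices whose blades have a closed union. -/
def Good {V : Type} (P Q : V → V) (C : Set V) : Prop :=
  ∀ a, a ∉ C → ∃ S : Set V, S.Finite ∧ (∀ b ∈ C, P b = a → b ∈ S) ∧
    (∀ b ∈ C, Q b = a → b ∈ S ∨ P b ∈ S)

/-- Combinatorial data for a fan inside a power of the line. -/
structure Data (V : Type) where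
  P : V → V
  Q : V → V
  g₁ : unitInterval → unitInterval
  g₂ : unitInterval → unitInterval
  cont₁ : Continuous g₁
  cont₂ : Continuous g₂
  mono₁ : Monotone g₁
  mono₂ : Monotone g₂
  zero₁ : g₁ 0 = 0
  zero₂ : g₂ 0 = 0
  lt₁ : ∀ s, s ≠ 0 → g₁ s < s
  lt₂ : ∀ s, s ≠ 0 → g₂ s < s
  neP : ∀ b, P b ≠ b
  neQ : ∀ b, Q b ≠ b
  nePQ : ∀ b, P b ≠ Q b
  alt : ((∀ a c, {b | P b = a ∧ Q b = c}.Finite) ∧ ∀ s, g₁ (g₁ s) = 0) ∨
    ((∀ b, Q b = P (P b)) ∧ ∀ s, g₁ (g₁ s) = g₂ s)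
  z21 : ∀ s, g₂ (g₁ s) = 0
  z12 : ∀ s, g₁ (g₂ s) = 0
  z22 : ∀ s, g₂ (g₂ s) = 0
  sep : ∀ b c, b ≠ c → ∃ C : Set V, b ∈ C ∧ c ∉ C ∧ Good P Q C ∧ Good P Q Cᶜ
  three : ∃ y : Fin 3 → V, Function.Injective y

namespace Data

variable {V : Type} (D : Data V)

open Classical in
/-- The point at height `s` of the blade `b`. -/
noncomputable def pt (b : V) (s : unitInterval) : V → ℝ := fun v =>
  (if v = b then (s : ℝ) else 0) + (if v = D.P b then (D.g₁ s : ℝ) else 0) +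
    (if v = D.Q b then (D.g₂ s : ℝ) else 0)

theorem pt_zero (b : V) : D.pt b 0 = 0 := by
  funext v
  simp [pt, D.zero₁, D.zero₂]

theorem pt_self (b : V) (s : unitInterval) : D.pt b s b = s := by
  simp [pt, (D.neP b).symm, (D.neQ b).symm]

theorem pt_lt {b c : V} (h : c ≠ b) {s : unitInterval} (hs : s ≠ 0) : D.pt b s c < s := by
  have h0 : (0 : ℝ) < s := lt_of_le_of_ne s.2.1 (fun h => hs (Subtype.ext h.symm))
  have h1 : (D.g₁ s : ℝ) < s := D.lt₁ s hs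
  have h2 : (D.g₂ s : ℝ) < s := D.lt₂ s hs
  simp only [pt, if_neg h, zero_add]
  by_cases a1 : c = D.P b
  · rw [if_pos a1, if_neg (by rw [a1]; exact D.nePQ b)]
    simpa using h1
  · rw [if_neg a1]
    split_ifs
    · simpa using h2
    · simpa using h0

theorem pt_disj {b c : V} {s r : unitInterval} (h : D.pt b s = D.pt c r) : b = c ∨ s = 0 := by
  by_contra hne
  push Not at hne
  have hr : r ≠ 0 := by
    rintro rfl
    have := congrFun h b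
    rw [D.pt_self, D.pt_zero] at this
    exact hne.2 (Subtype.ext this)
  have h1 := D.pt_lt hne.1 hr
  have h2 := D.pt_lt hne.1.symm hne.2
  rw [← h, D.pt_self] at h1
  rw [h, D.pt_self] at h2
  exact lt_asymm h1 h2

theorem continuous_pt (b : V) : Continuous (D.pt b) := by
  refine continuous_pi fun v => ?_
  have h1 := D.cont₁
  have h2 := D.cont₂
  unfold pt
  refine Continuous.add (Continuous.add ?_ ?_) ?_ <;> split_ifs <;> fun_prop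

section limits

variable {ι : Type} {𝓕 : Filter ι} {β : ι → V} {σ : ι → unitInterval} {s : unitInterval}

theorem ev_ne {f : ι → V} (h : Tendsto f 𝓕 cofinite) (v : V) : ∀ᶠ i in 𝓕, v ≠ f i :=
  (h.eventually (eventually_cofinite_ne v)).mono fun _ hi => hi.symm

theorem lim₀ {a : V} (hσ : Tendsto σ 𝓕 (𝓝 s)) (h : ∀ᶠ i in 𝓕, β i = a) :
    Tendsto (fun i => D.pt (β i) (σ i)) 𝓕 (𝓝 (D.pt a s)) := by
  refine (((D.continuous_pt a).tendsto s).comp hσ).congr' ?_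
  filter_upwards [h] with i hi
  simp [hi]

theorem lim₁ {a : V} (hσ : Tendsto σ 𝓕 (𝓝 s)) (h0 : Tendsto β 𝓕 cofinite)
    (h : ∀ᶠ i in 𝓕, D.P (β i) = a) :
    Tendsto (fun i => D.pt (β i) (σ i)) 𝓕 (𝓝 (D.pt a (D.g₁ s))) := by
  classical
  have t1 : Tendsto (fun i => (D.g₁ (σ i) : ℝ)) 𝓕 (𝓝 (D.g₁ s)) :=
    ((continuous_subtype_val.comp D.cont₁).tendsto s).comp hσ
  have t2 : Tendsto (fun i => (D.g₂ (σ i) : ℝ)) 𝓕 (𝓝 (D.g₂ s)) :=
    ((continuous_subtype_val.comp D.cont₂).tendsto s).comp hσ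
  rw [tendsto_pi_nhds]
  intro v
  rcases D.alt with ⟨hfin, hz⟩ | ⟨hQ, hz⟩
  · have h1 : ∀ᶠ i in 𝓕, v ≠ D.Q (β i) := by
      filter_upwards [h0.eventually (hfin a v).eventually_cofinite_notMem, h] with i hi hi' hv
      exact hi ⟨hi', hv.symm⟩
    have h2 : D.pt a (D.g₁ s) v = if v = a then (D.g₁ s : ℝ) else 0 := by
      simp [pt, hz, D.z21]
    rw [h2]
    refine Tendsto.congr' (f₁ := fun i => if v = a then (D.g₁ (σ i) : ℝ) else 0) ?_ ?_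
    · filter_upwards [h, h1, ev_ne h0 v] with i a1 a2 a3
      simp [pt, a1, a2, a3]
    · split_ifs
      · exact t1
      · exact tendsto_const_nhds
  · have h2 : D.pt a (D.g₁ s) v =
        (if v = a then (D.g₁ s : ℝ) else 0) + (if v = D.P a then (D.g₂ s : ℝ) else 0) := by
      simp [pt, hz, D.z21]
    rw [h2]
    refine Tendsto.congr' (f₁ := fun i => (if v = a then (D.g₁ (σ i) : ℝ) else 0) +
      (if v = D.P a then (D.g₂ (σ i) : ℝ) else 0)) ?_ ?_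
    · filter_upwards [h, ev_ne h0 v] with i a1 a3
      simp [pt, a1, a3, hQ]
    · refine Tendsto.add ?_ ?_ <;> split_ifs
      · exact t1
      · exact tendsto_const_nhds
      · exact t2
      · exact tendsto_const_nhds

theorem lim₂ {a : V} (hσ : Tendsto σ 𝓕 (𝓝 s)) (h0 : Tendsto β 𝓕 cofinite)
    (h1 : Tendsto (fun i => D.P (β i)) 𝓕 cofinite) (h : ∀ᶠ i in 𝓕, D.Q (β i) = a) :
    Tendsto (fun i => D.pt (β i) (σ i)) 𝓕 (𝓝 (D.pt a (D.g₂ s))) := by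
  classical
  have t2 : Tendsto (fun i => (D.g₂ (σ i) : ℝ)) 𝓕 (𝓝 (D.g₂ s)) :=
    ((continuous_subtype_val.comp D.cont₂).tendsto s).comp hσ
  rw [tendsto_pi_nhds]
  intro v
  have h2 : D.pt a (D.g₂ s) v = if v = a then (D.g₂ s : ℝ) else 0 := by
    simp [pt, D.z12, D.z22]
  rw [h2]
  refine Tendsto.congr' (f₁ := fun i => if v = a then (D.g₂ (σ i) : ℝ) else 0) ?_ ?_
  · filter_upwards [h, ev_ne h1 v, ev_ne h0 v] with i a1 a2 a3
    simp [pt, a1, a2, a3]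
  · split_ifs
    · exact t2
    · exact tendsto_const_nhds

theorem lim₃ (h0 : Tendsto β 𝓕 cofinite) (h1 : Tendsto (fun i => D.P (β i)) 𝓕 cofinite)
    (h2 : Tendsto (fun i => D.Q (β i)) 𝓕 cofinite) :
    Tendsto (fun i => D.pt (β i) (σ i)) 𝓕 (𝓝 0) := by
  rw [tendsto_pi_nhds]
  intro v
  refine Tendsto.congr' (f₁ := fun _ => (0 : ℝ)) ?_ tendsto_const_nhds
  filter_upwards [ev_ne h2 v, ev_ne h1 v, ev_ne h0 v] with i a1 a2 a3
  simp [pt, a1, a2, a3]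

end limits

theorem ultra_cases {ι : Type} (𝓤 : Ultrafilter ι) (f : ι → V) :
    Tendsto f 𝓤 cofinite ∨ ∃ a, ∀ᶠ i in 𝓤, f i = a := by
  rcases (𝓤.map f).le_cofinite_or_eq_pure with h | ⟨a, h⟩
  · exact Or.inl h
  · refine Or.inr ⟨a, ?_⟩
    have : {a} ∈ 𝓤.map f := by rw [h]; exact Ultrafilter.mem_pure.2 rfl
    exact this

/-- Which kind of limit a family of blades has along an ultrafilter. -/
def Info {ι : Type} (𝓤 : Ultrafilter ι) (β : ι → V) (a : V) (m : unitInterval → unitInterval) :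
    Prop :=
  ((∀ᶠ i in 𝓤, β i = a) ∧ m = id) ∨ (Tendsto β 𝓤 cofinite ∧
    (((∀ᶠ i in 𝓤, D.P (β i) = a) ∧ m = D.g₁) ∨ (Tendsto (fun i => D.P (β i)) 𝓤 cofinite ∧
      (((∀ᶠ i in 𝓤, D.Q (β i) = a) ∧ m = D.g₂) ∨ m = fun _ => 0))))

theorem ultra_lim {ι : Type} (𝓤 : Ultrafilter ι) (β : ι → V) :
    ∃ a m, Monotone m ∧ D.Info 𝓤 β a m ∧ ∀ (σ : ι → unitInterval) (s : unitInterval),
      Tendsto σ 𝓤 (𝓝 s) → Tendsto (fun i => D.pt (β i) (σ i)) 𝓤 (𝓝 (D.pt a (m s))) := by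
  rcases ultra_cases 𝓤 β with h0 | ⟨a, ha⟩
  · rcases ultra_cases 𝓤 (fun i => D.P (β i)) with h1 | ⟨a, ha⟩
    · rcases ultra_cases 𝓤 (fun i => D.Q (β i)) with h2 | ⟨a, ha⟩
      · obtain ⟨y, -⟩ := D.three
        refine ⟨y 0, fun _ => 0, monotone_const, Or.inr ⟨h0, Or.inr ⟨h1, Or.inr rfl⟩⟩, ?_⟩
        intro σ s _
        rw [D.pt_zero]
        exact D.lim₃ h0 h1 h2
      · exact ⟨a, D.g₂, D.mono₂, Or.inr ⟨h0, Or.inr ⟨h1, Or.inl ⟨ha, rfl⟩⟩⟩,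
          fun σ s hσ => D.lim₂ hσ h0 h1 ha⟩
    · exact ⟨a, D.g₁, D.mono₁, Or.inr ⟨h0, Or.inl ⟨ha, rfl⟩⟩, fun σ s hσ => D.lim₁ hσ h0 ha⟩
  · exact ⟨a, id, monotone_id, Or.inl ⟨ha, rfl⟩, fun σ s hσ => D.lim₀ hσ ha⟩

end Data

theorem exists_ultra {ι X : Type} [TopologicalSpace X] {f : ι → X} {S : Set ι} {x : X}
    (h : x ∈ closure (f '' S)) : ∃ 𝓤 : Ultrafilter ι, S ∈ 𝓤 ∧ Tendsto f 𝓤 (𝓝 x) := by
  have h1 : (comap f (𝓝 x) ⊓ 𝓟 S).NeBot := by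
    rw [inf_principal_neBot_iff]
    intro U hU
    obtain ⟨W, hW, hWU⟩ := mem_comap.1 hU
    obtain ⟨_, hz, i, hi, rfl⟩ := mem_closure_iff_nhds.1 h W hW
    exact ⟨i, hWU hz, hi⟩
  refine ⟨Ultrafilter.of (comap f (𝓝 x) ⊓ 𝓟 S), ?_, ?_⟩
  · exact (Ultrafilter.of_le _).trans inf_le_right (mem_principal_self S)
  · exact tendsto_iff_comap.2 ((Ultrafilter.of_le _).trans inf_le_left)

theorem exists_lim_unit {ι : Type} (𝓤 : Ultrafilter ι) (σ : ι → unitInterval) :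
    ∃ s, Tendsto σ 𝓤 (𝓝 s) := by
  obtain ⟨s, -, hs⟩ := isCompact_univ.ultrafilter_le_nhds (𝓤.map σ) (by simp)
  exact ⟨s, hs⟩

end Pool.Agent.Lib.MP_56c207_gt
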