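import Pool.Agent.Lib.MP_56c207_gt.Arcs

set_option autoImplicit false

namespace Pool.Agent.Lib.MP_56c207_gt

open Set Filter Topology

variable {F : Type} [MetricSpace F] {V : Type}

namespace Blades

variable (B : Blades F V)

theorem mem_seg_iff [CompactSpace F] (z x : F) :
    z ∈ seg B.t x ↔ ∃ b s s', s ≤ s' ∧ z = B.γ b s ∧ x = B.γ b s' := by
  constructor
  · intro h
    obtain ⟨b, s', rfl⟩ := B.cover x
    rw [B.seg_top] at h
    obtain ⟨s, hs, rfl⟩ := h
    exact ⟨b, s, s', hs, rfl, rfl⟩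
  · rintro ⟨b, s, s', hs, rfl, rfl⟩
    rw [B.seg_top]
    exact ⟨s, hs, rfl⟩

theorem eventually_subset [CompactSpace F] {a : F} {S : Set F} (hS : IsClosed S)
    (h : ∀ z ∈ seg B.t a, z ∉ S) : ∀ᶠ x in 𝓝 a, ∀ z ∈ seg B.t x, z ∉ S := by
  have h1 : IsClosed ({p : F × F | ∃ b s s', s ≤ s' ∧ p.1 = B.γ b s ∧ p.2 = B.γ b s'} ∩
      Prod.fst ⁻¹' S) := B.closed_le.inter (hS.preimage continuous_fst)
  have h2 := isClosedMap_snd_of_compactSpace _ h1
  have h3 : a ∈ (Prod.snd '' ({p : F × F | ∃ b s s', s ≤ s' ∧ p.1 = B.γ b s ∧ p.2 = B.γ b s'} ∩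
      Prod.fst ⁻¹' S))ᶜ := by
    rintro ⟨⟨z, x⟩, ⟨hp, hz⟩, rfl⟩
    exact h z ((B.mem_seg_iff _ _).2 hp) hz
  filter_upwards [h2.isOpen_compl.mem_nhds h3] with x hx z hz hzS
  exact hx ⟨(z, x), ⟨(B.mem_seg_iff _ _).1 hz, hzS⟩, rfl⟩

theorem eventually_meets [CompactSpace F] {a w : F} (hw : w ∈ seg B.t a) {U : Set F}
    (hU : IsOpen U) (hwU : w ∈ U) : ∀ᶠ x in 𝓝 a, ∃ z ∈ seg B.t x, z ∈ U := by
  obtain ⟨b, s, s', hs, rfl, rfl⟩ := (B.mem_seg_iff _ _).1 hw
  by_cases hs0 : s = 0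
  · subst hs0
    exact Eventually.of_forall fun x => ⟨B.t, Or.inl rfl, B.zero b ▸ hwU⟩
  have hs1 : 0 < s := lt_of_le_of_ne unitInterval.nonneg' (Ne.symm hs0)
  have h1 : (B.γ b) ⁻¹' U ∈ 𝓝 s := (B.cont b).continuousAt.preimage_mem_nhds (hU.mem_nhds hwU)
  obtain ⟨l, hl, hsub⟩ := exists_Ioc_subset_of_mem_nhds' h1 hs1
  obtain ⟨r, hlr, hrs⟩ := exists_between hl.2
  have hrU : B.γ b r ∈ U := hsub ⟨hlr, hrs.le⟩
  have h2 := B.eventually_subset (a := B.γ b s') (S := {z | B.ht b z = r} ∩ Uᶜ)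
    ((isClosed_eq (B.ht_cont b) continuous_const).inter hU.isClosed_compl) (by
      intro z hz
      rw [B.seg_top] at hz
      obtain ⟨q, -, rfl⟩ := hz
      rintro ⟨hq1, hq2⟩
      have : q = r := Subtype.ext ((B.ht_γ b q).symm.trans hq1)
      exact hq2 (this ▸ hrU))
  have h3 : ∀ᶠ x in 𝓝 (B.γ b s'), (r : ℝ) < B.ht b x := by
    refine (isOpen_lt continuous_const (B.ht_cont b)).mem_nhds ?_
    change (r : ℝ) < B.ht b (B.γ b s')
    rw [B.ht_γ]
    exact hrs.trans_le hs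
  filter_upwards [h2, h3] with x hx2 hx3
  obtain ⟨c, q, rfl⟩ := B.cover x
  have hc : IsPreconnected (seg B.t (B.γ c q)) := by
    rw [B.seg_top]; exact B.preconnected_image c ordConnected_Iic
  have hx : B.γ c q ∈ seg B.t (B.γ c q) := (B.mem_seg_iff _ _).2 ⟨c, q, q, le_rfl, rfl, rfl⟩
  obtain ⟨z, hz, hz'⟩ := hc.intermediate_value (a := B.t) (b := B.γ c q) (Or.inl rfl) hx
    (B.ht_cont b).continuousOn (show (r : ℝ) ∈ Icc (B.ht b B.t) (B.ht b (B.γ c q)) from
      ⟨by rw [B.ht_t]; exact r.2.1, hx3.le⟩)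
  refine ⟨z, hz, ?_⟩
  by_contra hzU
  exact hx2 z hz ⟨hz', hzU⟩

theorem isSmooth [CompactSpace F] : IsSmooth F B.t := by
  intro x a hx
  have key : ∀ ε : ℝ, 0 < ε →
      ∀ᶠ y in 𝓝 a, Metric.hausdorffDist (seg B.t y) (seg B.t a) ≤ ε := by
    intro ε hε
    have hcomp : IsCompact (seg B.t a) := by
      obtain ⟨b, s, rfl⟩ := B.cover a
      rw [B.seg_top]
      exact isClosed_Iic.isCompact.image (B.cont b)
    have h1 := B.eventually_subset (a := a) (S := (Metric.thickening ε (seg B.t a))ᶜ)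
      Metric.isOpen_thickening.isClosed_compl
      (fun z hz h => h (Metric.self_subset_thickening hε _ hz))
    have h2 : ∀ᶠ y in 𝓝 a, ∀ w ∈ seg B.t a, ∃ z ∈ seg B.t y, dist w z ≤ ε := by
      refine hcomp.induction_on
        (p := fun S => ∀ᶠ y in 𝓝 a, ∀ w ∈ S, ∃ z ∈ seg B.t y, dist w z ≤ ε) ?_ ?_ ?_ ?_
      · exact Eventually.of_forall fun y w hw => absurd hw (notMem_empty w)
      · intro S S' hS h
        filter_upwards [h] with y hy w hw using hy w (hS hw)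
      · intro S S' h h'
        filter_upwards [h, h'] with y hy hy' w hw
        rcases hw with hw | hw
        · exact hy w hw
        · exact hy' w hw
      · intro w hw
        refine ⟨Metric.ball w (ε / 2), mem_nhdsWithin_of_mem_nhds
          (Metric.ball_mem_nhds w (by positivity)), ?_⟩
        filter_upwards [B.eventually_meets hw (U := Metric.ball w (ε / 2)) Metric.isOpen_ball
          (Metric.mem_ball_self (by positivity))] with y hy w' hw'
        obtain ⟨z, hz, hz'⟩ := hy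
        refine ⟨z, hz, ?_⟩
        have := dist_triangle_right w' z w
        rw [Metric.mem_ball] at hw' hz'
        linarith
    filter_upwards [h1, h2] with y hy1 hy2
    refine Metric.hausdorffDist_le_of_mem_dist hε.le (fun z hz => ?_) hy2
    have := hy1 z hz
    rw [notMem_compl_iff, Metric.mem_thickening_iff] at this
    obtain ⟨w, hw, hd⟩ := this
    exact ⟨w, hw, hd.le⟩
  rw [Metric.tendsto_nhds]
  intro ε hε
  filter_upwards [hx.eventually (key (ε / 2) (by positivity))] with n hn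
  rw [Real.dist_eq, sub_zero, abs_of_nonneg Metric.hausdorffDist_nonneg]
  linarith

end Blades

end Pool.Agent.Lib.MP_56c207_gt
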