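import Pool.Agent.Lib.MP_56c207_gt.Model

set_option autoImplicit false

namespace Pool.Agent.Lib.MP_56c207_gt

open Set Filter Topology

namespace Data

variable {V : Type} [Countable V] (D : Data V)

/-- The union of the blades, as a subspace of a countable power of the line. -/
def Fan : Type := ({x : V → ℝ | ∃ b s, x = D.pt b s} : Set (V → ℝ))

noncomputable instance : MetricSpace D.Fan :=
  TopologicalSpace.metrizableSpaceMetric ({x : V → ℝ | ∃ b s, x = D.pt b s} : Set (V → ℝ))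

/-- The blades of the space. -/
noncomputable def γ (b : V) (s : unitInterval) : D.Fan := ⟨D.pt b s, b, s, rfl⟩

theorem inducing_val : IsInducing (fun x : D.Fan => (x.1 : V → ℝ)) := IsInducing.subtypeVal

theorem tendsto_γ {ι : Type} {𝓕 : Filter ι} {β : ι → V} {σ : ι → unitInterval} {a : V}
    {s : unitInterval} (h : Tendsto (fun i => D.pt (β i) (σ i)) 𝓕 (𝓝 (D.pt a s))) :
    Tendsto (fun i => D.γ (β i) (σ i)) 𝓕 (𝓝 (D.γ a s)) :=
  D.inducing_val.tendsto_nhds_iff.2 h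

omit [Countable V] in
theorem γ_cover (x : D.Fan) : ∃ b s, x = D.γ b s := by
  obtain ⟨x, b, s, rfl⟩ := x
  exact ⟨b, s, rfl⟩

omit [Countable V] in
theorem γ_zero (b c : V) : D.γ b 0 = D.γ c 0 :=
  Subtype.ext ((D.pt_zero b).trans (D.pt_zero c).symm)

theorem ultra_γ {ι : Type} (𝓤 : Ultrafilter ι) (β : ι → V) :
    ∃ a m, Monotone m ∧ D.Info 𝓤 β a m ∧ ∀ (σ : ι → unitInterval) (s : unitInterval),
      Tendsto σ 𝓤 (𝓝 s) → Tendsto (fun i => D.γ (β i) (σ i)) 𝓤 (𝓝 (D.γ a (m s))) := by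
  obtain ⟨a, m, h1, h2, h3⟩ := D.ultra_lim 𝓤 β
  exact ⟨a, m, h1, h2, fun σ s hσ => D.tendsto_γ (h3 σ s hσ)⟩

instance : CompactSpace D.Fan := by
  refine ⟨isCompact_iff_ultrafilter_le_nhds.2 fun 𝓤 _ => ?_⟩
  choose β σ h using D.γ_cover
  obtain ⟨a, m, -, -, h3⟩ := D.ultra_γ 𝓤 β
  obtain ⟨s, hs⟩ := exists_lim_unit 𝓤 σ
  refine ⟨D.γ a (m s), mem_univ _, ?_⟩
  have := h3 σ s hs
  have h4 : (fun i => D.γ (β i) (σ i)) = id := funext fun i => (h i).symm
  rwa [h4, tendsto_id'] at this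

theorem isClosed_good {C : Set V} (hC : Good D.P D.Q C) (hne : C.Nonempty) :
    IsClosed (⋃ a ∈ C, range (D.γ a)) := by
  have h1 : (⋃ a ∈ C, range (D.γ a)) =
      (fun p : V × unitInterval => D.γ p.1 p.2) '' (Prod.fst ⁻¹' C) := by
    ext x
    simp only [mem_iUnion, mem_range, mem_image, mem_preimage, Prod.exists]
    constructor
    · rintro ⟨a, ha, s, rfl⟩; exact ⟨a, s, ha, rfl⟩
    · rintro ⟨a, s, ha, rfl⟩; exact ⟨a, ha, s, rfl⟩
  rw [← closure_subset_iff_isClosed]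
  intro x hx
  rw [h1] at hx
  obtain ⟨𝓤, hS, hlim⟩ := exists_ultra hx
  obtain ⟨a, m, -, hinfo, h3⟩ := D.ultra_γ 𝓤 Prod.fst
  obtain ⟨s, hs⟩ := exists_lim_unit 𝓤 Prod.snd
  have hx' : x = D.γ a (m s) := tendsto_nhds_unique hlim (h3 _ s hs)
  have hS' : ∀ᶠ i in (𝓤 : Filter (V × unitInterval)), i.1 ∈ C := hS
  by_cases ha : a ∈ C
  · exact mem_biUnion ha ⟨_, hx'.symm⟩
  obtain ⟨S, hSf, hS1, hS2⟩ := hC a ha
  rcases hinfo with ⟨h, -⟩ | ⟨h0, ⟨h, -⟩ | ⟨h1, ⟨h, -⟩ | h⟩⟩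
  · obtain ⟨i, hi1, hi2⟩ := (h.and hS').exists
    exact absurd (hi1 ▸ hi2) ha
  · obtain ⟨i, hi1, hi2, hi3⟩ :=
      (h.and (hS'.and (h0.eventually hSf.eventually_cofinite_notMem))).exists
    exact absurd (hS1 _ hi2 hi1) hi3
  · obtain ⟨i, hi1, hi2, hi3, hi4⟩ :=
      (h.and (hS'.and ((h0.eventually hSf.eventually_cofinite_notMem).and
        (h1.eventually hSf.eventually_cofinite_notMem)))).exists
    rcases hS2 _ hi2 hi1 with h5 | h5
    · exact absurd h5 hi3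
    · exact absurd h5 hi4
  · obtain ⟨c, hc⟩ := hne
    refine mem_biUnion hc ⟨0, ?_⟩
    rw [hx', h]
    exact D.γ_zero _ _

theorem isClosed_le :
    IsClosed {p : D.Fan × D.Fan | ∃ b s s', s ≤ s' ∧ p.1 = D.γ b s ∧ p.2 = D.γ b s'} := by
  have h1 : {p : D.Fan × D.Fan | ∃ b s s', s ≤ s' ∧ p.1 = D.γ b s ∧ p.2 = D.γ b s'} =
      (fun p : V × unitInterval × unitInterval => (D.γ p.1 p.2.1, D.γ p.1 p.2.2)) ''
        {p | p.2.1 ≤ p.2.2} := by
    ext ⟨x, y⟩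
    simp only [mem_ofPred_eq, mem_image, Prod.exists, Prod.mk.injEq]
    constructor
    · rintro ⟨b, s, s', h, rfl, rfl⟩; exact ⟨b, s, s', h, rfl, rfl⟩
    · rintro ⟨b, s, s', h, rfl, rfl⟩; exact ⟨b, s, s', h, rfl, rfl⟩
  rw [← closure_subset_iff_isClosed]
  rintro ⟨x, y⟩ hx
  rw [h1] at hx
  obtain ⟨𝓤, hS, hlim⟩ := exists_ultra hx
  obtain ⟨a, m, hm, -, h3⟩ := D.ultra_γ 𝓤 Prod.fst
  obtain ⟨s, hs⟩ := exists_lim_unit 𝓤 (fun p => p.2.1)
  obtain ⟨s', hs'⟩ := exists_lim_unit 𝓤 (fun p => p.2.2)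
  have hx' : x = D.γ a (m s) := tendsto_nhds_unique ((continuous_fst.tendsto _).comp hlim) (h3 _ s hs)
  have hy' : y = D.γ a (m s') :=
    tendsto_nhds_unique ((continuous_snd.tendsto _).comp hlim) (h3 _ s' hs')
  exact ⟨a, m s, m s', hm (le_of_tendsto_of_tendsto hs hs' hS), hx', hy'⟩

/-- The blade structure of the space. -/
noncomputable def blades : Blades D.Fan V where
  t := D.γ (D.three.choose 0) 0
  γ := D.γ
  ht := fun b x => x.1 b
  cont := fun b => D.inducing_val.continuous_iff.2 (D.continuous_pt b)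
  zero := fun _ => D.γ_zero _ _
  ht_cont := fun b => (continuous_apply b).comp D.inducing_val.continuous
  ht_γ := fun b s => D.pt_self b s
  cover := D.γ_cover
  disj := fun _ _ _ _ h => D.pt_disj (congrArg Subtype.val h)
  sep := fun b c h => by
    obtain ⟨C, hb, hc, h1, h2⟩ := D.sep b c h
    exact ⟨C, hb, hc, D.isClosed_good h1 ⟨b, hb⟩, D.isClosed_good h2 ⟨c, hc⟩⟩
  closed_le := D.isClosed_le
  three := D.three

theorem closure_level {C : Set V} {s : unitInterval} {x : D.Fan}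
    (hx : x ∈ closure ((fun b => D.γ b s) '' C)) :
    (∃ a ∈ C, x = D.γ a s) ∨ ∃ a, x = D.γ a (D.g₁ s) ∨ x = D.γ a (D.g₂ s) ∨ x = D.γ a 0 := by
  obtain ⟨𝓤, hS, hlim⟩ := exists_ultra hx
  obtain ⟨a, m, -, hinfo, h3⟩ := D.ultra_γ 𝓤 id
  have hx' : x = D.γ a (m s) := tendsto_nhds_unique hlim (h3 (fun _ => s) s tendsto_const_nhds)
  have hS' : ∀ᶠ i in (𝓤 : Filter V), i ∈ C := hS
  rcases hinfo with ⟨h, rfl⟩ | ⟨-, ⟨-, rfl⟩ | ⟨-, ⟨-, rfl⟩ | rfl⟩⟩
  · obtain ⟨i, hi1, hi2⟩ := (h.and hS').exists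
    exact Or.inl ⟨a, hi1 ▸ hi2, hx'⟩
  · exact Or.inr ⟨a, Or.inl hx'⟩
  · exact Or.inr ⟨a, Or.inr (Or.inl hx')⟩
  · exact Or.inr ⟨a, Or.inr (Or.inr hx')⟩

omit [Countable V] in
theorem pt_equiv (e : V ≃ V) (hP : ∀ b, e (D.P b) = D.P (e b)) (hQ : ∀ b, e (D.Q b) = D.Q (e b))
    (b : V) (s : unitInterval) : D.pt b s ∘ e.symm = D.pt (e b) s := by
  funext v
  have h1 : e.symm v = b ↔ v = e b := e.symm_apply_eq
  have h2 : e.symm v = D.P b ↔ v = D.P (e b) := by rw [← hP]; exact e.symm_apply_eq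
  have h3 : e.symm v = D.Q b ↔ v = D.Q (e b) := by rw [← hQ]; exact e.symm_apply_eq
  change D.pt b s (e.symm v) = D.pt (e b) s v
  unfold pt
  rw [propext h1, propext h2, propext h3]

/-- A symmetry of the index set gives a self-homeomorphism. -/
noncomputable def homeo (e : V ≃ V) (hP : ∀ b, e (D.P b) = D.P (e b))
    (hQ : ∀ b, e (D.Q b) = D.Q (e b)) : D.Fan ≃ₜ D.Fan where
  toFun x := ⟨x.1 ∘ e.symm, by
    obtain ⟨b, s, h⟩ := x.2
    exact ⟨e b, s, by rw [h, D.pt_equiv e hP hQ]⟩⟩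
  invFun x := ⟨x.1 ∘ e, by
    obtain ⟨b, s, h⟩ := x.2
    refine ⟨e.symm b, s, ?_⟩
    have := D.pt_equiv e hP hQ (e.symm b) s
    rw [e.apply_symm_apply] at this
    rw [h, ← this]
    funext v
    simp⟩
  left_inv x := Subtype.ext (by funext v; simp)
  right_inv x := Subtype.ext (by funext v; simp)
  continuous_toFun := D.inducing_val.continuous_iff.2
    (continuous_pi fun v => (continuous_apply (e.symm v)).comp D.inducing_val.continuous)
  continuous_invFun := D.inducing_val.continuous_iff.2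
    (continuous_pi fun v => (continuous_apply (e v)).comp D.inducing_val.continuous)

theorem homogeneous (h : ∀ b c : V, ∃ e : V ≃ V, (∀ b, e (D.P b) = D.P (e b)) ∧
    (∀ b, e (D.Q b) = D.Q (e b)) ∧ e b = c) : IsEndpointHomogeneous D.Fan := by
  intro x y hx hy
  obtain ⟨b, rfl⟩ := (D.blades.isEndpoint_iff x).1 hx
  obtain ⟨c, rfl⟩ := (D.blades.isEndpoint_iff y).1 hy
  obtain ⟨e, hP, hQ, rfl⟩ := h b c
  exact ⟨D.homeo e hP hQ, Subtype.ext (D.pt_equiv e hP hQ b 1)⟩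

theorem endpoints_eq : {x : D.Fan | IsEndpoint x} = (fun b => D.γ b 1) '' univ := by
  ext x
  simp only [mem_ofPred_eq, D.blades.isEndpoint_iff, image_univ, mem_range]
  exact exists_congr fun b => eq_comm

theorem endpoints_diff (b : V) :
    {x : D.Fan | IsEndpoint x} \ range (D.γ b) = (fun c => D.γ c 1) '' {c | c ≠ b} := by
  rw [D.endpoints_eq]
  ext x
  constructor
  · rintro ⟨⟨c, -, rfl⟩, hx⟩
    exact ⟨c, fun h => hx ⟨1, by rw [h]⟩, rfl⟩
  · rintro ⟨c, hc, rfl⟩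
    refine ⟨⟨c, mem_univ _, rfl⟩, ?_⟩
    rintro ⟨s, hs⟩
    rcases D.blades.disj _ _ _ _ hs.symm with h | h
    · exact hc h
    · exact one_ne_zero h

theorem mem_closure_P {a : V} {C : Set V} {s : unitInterval} (β : ℕ → V)
    (h0 : Tendsto β atTop cofinite) (h : ∀ n, D.P (β n) = a) (hC : ∀ n, β n ∈ C) :
    D.γ a (D.g₁ s) ∈ closure ((fun b => D.γ b s) '' C) :=
  mem_closure_of_tendsto (D.tendsto_γ (D.lim₁ (σ := fun _ => s) tendsto_const_nhds h0
    (Eventually.of_forall h))) (Eventually.of_forall fun n => ⟨β n, hC n, rfl⟩)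

theorem mem_closure_Q {a : V} {C : Set V} {s : unitInterval} (β : ℕ → V)
    (h0 : Tendsto β atTop cofinite) (h1 : Tendsto (fun n => D.P (β n)) atTop cofinite)
    (h : ∀ n, D.Q (β n) = a) (hC : ∀ n, β n ∈ C) :
    D.γ a (D.g₂ s) ∈ closure ((fun b => D.γ b s) '' C) :=
  mem_closure_of_tendsto (D.tendsto_γ (D.lim₂ (σ := fun _ => s) tendsto_const_nhds h0 h1
    (Eventually.of_forall h))) (Eventually.of_forall fun n => ⟨β n, hC n, rfl⟩)

theorem mem_closure_top {a : V} {s : unitInterval} (β : ℕ → V)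
    (h0 : Tendsto β atTop cofinite) (h1 : Tendsto (fun n => D.P (β n)) atTop cofinite)
    (h2 : Tendsto (fun n => D.Q (β n)) atTop cofinite) (b : V) :
    D.γ a 0 ∈ closure ((fun c => D.γ c s) '' {c | c ≠ b}) := by
  have h3 : Tendsto (fun n => D.pt (β n) s) atTop (𝓝 (D.pt a 0)) := by
    rw [D.pt_zero]
    exact D.lim₃ (σ := fun _ => s) h0 h1 h2
  refine mem_closure_of_tendsto (D.tendsto_γ (σ := fun _ => s) h3) ?_
  filter_upwards [ev_ne h0 b] with n hn using ⟨β n, hn.symm, rfl⟩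

theorem isEPG
    (hP : ∀ a, ∃ β : ℕ → V, Tendsto β atTop cofinite ∧ ∀ n, D.P (β n) = a)
    (hQ : ∀ a, ∃ β : ℕ → V, Tendsto β atTop cofinite ∧
      Tendsto (fun n => D.P (β n)) atTop cofinite ∧ ∀ n, D.Q (β n) = a)
    (h0 : ∃ β : ℕ → V, Tendsto β atTop cofinite ∧ Tendsto (fun n => D.P (β n)) atTop cofinite ∧
      Tendsto (fun n => D.Q (β n)) atTop cofinite) :
    IsEPG D.Fan D.blades.t {0, D.g₂ 1, D.g₁ 1} := by
  intro x hx
  obtain ⟨b, rfl⟩ := (D.blades.isEndpoint_iff x).1 hx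
  refine ⟨D.γ b, D.blades.cont b, D.blades.inj b, D.blades.zero b, rfl,
    (D.blades.seg_top_one b).symm, ?_⟩
  rw [D.blades.seg_top_one b]
  change _ = range (D.γ b) ∩ closure ({x : D.Fan | IsEndpoint x} \ range (D.γ b))
  rw [D.endpoints_diff]
  ext x
  constructor
  · rintro ⟨s, hs, rfl⟩
    refine ⟨⟨s, rfl⟩, ?_⟩
    rcases hs with rfl | rfl | rfl
    · obtain ⟨β, h1, h2, h3⟩ := h0
      exact D.mem_closure_top β h1 h2 h3 b
    · obtain ⟨β, h1, h2, h3⟩ := hQ b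
      exact D.mem_closure_Q β h1 h2 h3 fun n h => D.neQ b (by have := h3 n; rwa [h] at this)
    · obtain ⟨β, h1, h3⟩ := hP b
      exact D.mem_closure_P β h1 h3 fun n h => D.neP b (by have := h3 n; rwa [h] at this)
  · rintro ⟨⟨s, rfl⟩, hx⟩
    have key : ∀ a r, r ∈ ({0, D.g₂ 1, D.g₁ 1} : Set unitInterval) → D.γ b s = D.γ a r →
        D.γ b s ∈ D.γ b '' {0, D.g₂ 1, D.g₁ 1} := by
      intro a r hr h
      rcases D.blades.disj _ _ _ _ h with h1 | h1
      · exact ⟨r, hr, by rw [h, h1]⟩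
      · exact ⟨0, Or.inl rfl, by rw [h1]⟩
    rcases D.closure_level hx with ⟨a, ha, h⟩ | ⟨a, h | h | h⟩
    · rcases D.blades.disj _ _ _ _ h.symm with h1 | h1
      · exact absurd h1 ha
      · exact absurd h1 one_ne_zero
    · exact key a _ (Or.inr (Or.inr rfl)) h
    · exact key a _ (Or.inr (Or.inl rfl)) h
    · exact key a _ (Or.inl rfl) h

end Data

end Pool.Agent.Lib.MP_56c207_gt
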