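import Pool.Agent.Lib.MP_56c207_gt.Space

set_option autoImplicit false

namespace Pool.Agent.Lib.MP_56c207_gt

open Set Filter Topology Polynomial

/-- A rootless tree with countably infinite branching. -/
abbrev Tr : Type := ℤ × ℤ[X]

instance countable_poly : Countable ℤ[X] :=
  Cardinal.mk_le_aleph0_iff.1 (Polynomial.cardinalMk_le_max.trans (by simp))

/-- The parent map. -/
noncomputable def up (x : Tr) : Tr := (x.1 - 1, divX x.2)

/-- The children. -/
noncomputable def child (x : Tr) (k : ℕ) : Tr := (x.1 + 1, X * x.2 + C (k : ℤ))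

theorem divX_X_mul' (p : ℤ[X]) : divX (X * p) = p := by
  ext n
  rw [coeff_divX, coeff_X_mul]

theorem up_child (x : Tr) (k : ℕ) : up (child x k) = x := by
  refine Prod.ext (by simp [up, child]) ?_
  simp only [up, child]
  rw [divX_add, divX_X_mul', divX_C, add_zero]

theorem child_inj (x : Tr) : Function.Injective (child x) := by
  intro k l h
  have h1 : X * x.2 + C (k : ℤ) = X * x.2 + C (l : ℤ) := congrArg Prod.snd h
  have h2 := C_injective (add_left_cancel h1)
  exact_mod_cast h2

theorem tendsto_of_inj {W : Type} {f : ℕ → W} (h : Function.Injective f) :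
    Tendsto f atTop cofinite := by
  rw [← Nat.cofinite_eq_atTop]
  exact h.tendsto_cofinite

theorem exists_thread (a : ℤ[X]) : ∃ H : ℤ → ℤ[X], H 0 = a ∧ ∀ n, divX (H n) = H (n - 1) := by
  refine ⟨fun n => match n with
    | Int.ofNat k => X ^ k * a
    | Int.negSucc k => divX^[k + 1] a, by simp, fun n => ?_⟩
  match n with
  | Int.ofNat 0 =>
    change divX (X ^ 0 * a) = divX^[0 + 1] a
    simp
  | Int.ofNat (k + 1) =>
    have : Int.ofNat (k + 1) - 1 = Int.ofNat k := by simp
    rw [this]
    change divX (X ^ (k + 1) * a) = X ^ k * a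
    rw [pow_succ', mul_assoc, divX_X_mul']
  | Int.negSucc k =>
    have : Int.negSucc k - 1 = Int.negSucc (k + 1) := by omega
    rw [this]
    change divX (divX^[k + 1] a) = divX^[k + 1 + 1] a
    rw [Function.iterate_succ_apply' divX (k + 1)]

theorem exists_aut (x y : Tr) : ∃ e : Tr ≃ Tr, (∀ z, e (up z) = up (e z)) ∧ e x = y := by
  obtain ⟨H, h0, hH⟩ := exists_thread (y.2 - x.2)
  refine ⟨⟨fun z => (z.1 + (y.1 - x.1), z.2 + H (z.1 - x.1)),
    fun z => (z.1 - (y.1 - x.1), z.2 - H (z.1 - y.1)), fun z => ?_, fun z => ?_⟩, fun z => ?_, ?_⟩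
  · refine Prod.ext (by simp) ?_
    have : z.1 + (y.1 - x.1) - y.1 = z.1 - x.1 := by ring
    simp [this]
  · refine Prod.ext (by simp) ?_
    have : z.1 - (y.1 - x.1) - x.1 = z.1 - y.1 := by ring
    simp [this]
  · refine Prod.ext ?_ ?_
    · simp only [up, Equiv.coe_fn_mk]; ring
    · simp only [up, Equiv.coe_fn_mk]
      rw [divX_add, hH]
      congr 2
      ring
  · refine Prod.ext (by simp) ?_
    simp [h0]

/-- Descendants. -/
def desc (v : Tr) : Set Tr := {c | ∃ k, up^[k] c = v}

theorem level_iter (k : ℕ) (c : Tr) : (up^[k] c).1 = c.1 - k := by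
  induction k with
  | zero => simp
  | succ k ih =>
    rw [Function.iterate_succ_apply']
    simp only [up, ih]
    push_cast
    ring

theorem self_mem_desc (v : Tr) : v ∈ desc v := ⟨0, rfl⟩

theorem mem_desc_of_up {v c : Tr} (h : up c ∈ desc v) : c ∈ desc v := by
  obtain ⟨k, hk⟩ := h
  exact ⟨k + 1, hk⟩

theorem up_mem_desc {v c : Tr} (h : c ∈ desc v) : c = v ∨ up c ∈ desc v := by
  obtain ⟨k, hk⟩ := h
  cases k with
  | zero => exact Or.inl hk
  | succ k => exact Or.inr ⟨k, hk⟩

theorem desc_antisymm {b c : Tr} (h1 : b ∈ desc c) (h2 : c ∈ desc b) : b = c := by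
  obtain ⟨k, hk⟩ := h1
  obtain ⟨l, hl⟩ := h2
  have a1 := level_iter k b
  have a2 := level_iter l c
  rw [hk] at a1
  rw [hl] at a2
  have : k = 0 := by omega
  subst this
  exact hk

theorem up_level (x : Tr) : (up x).1 = x.1 - 1 := rfl

theorem sep_of_family {V : Type} {P Q : V → V} {b c : V} {C : Set V}
    (h : (b ∈ C ∧ c ∉ C) ∨ (c ∈ C ∧ b ∉ C)) (h1 : Good P Q C) (h2 : Good P Q Cᶜ) :
    ∃ C : Set V, b ∈ C ∧ c ∉ C ∧ Good P Q C ∧ Good P Q Cᶜ := by
  rcases h with h | h
  · exact ⟨C, h.1, h.2, h1, h2⟩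
  · exact ⟨Cᶜ, h.2, fun h' => h' h.1, h2, by rwa [compl_compl]⟩

theorem exists_desc_sep {b c : Tr} (h : b ≠ c) :
    ∃ v, (b ∈ desc v ∧ c ∉ desc v) ∨ (c ∈ desc v ∧ b ∉ desc v) := by
  by_cases hc : c ∈ desc b
  · exact ⟨c, Or.inr ⟨self_mem_desc c, fun hb => h (desc_antisymm hb hc)⟩⟩
  · exact ⟨b, Or.inl ⟨self_mem_desc b, hc⟩⟩

/-- Truncated affine maps of the unit interval. -/
noncomputable def G (c d : ℝ) (s : unitInterval) : unitInterval :=
  projIcc 0 1 zero_le_one (c * (s - d))

theorem G_cont (c d : ℝ) : Continuous (G c d) := continuous_projIcc.comp (by fun_prop)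

theorem G_mono {c : ℝ} (hc : 0 ≤ c) (d : ℝ) : Monotone (G c d) := by
  intro s r h
  have : (s : ℝ) ≤ r := h
  exact monotone_projIcc _ (by nlinarith)

theorem coe_G (c d : ℝ) (s : unitInterval) : (G c d s : ℝ) = max 0 (min 1 (c * (s - d))) :=
  coe_projIcc _ _ _ _

theorem G_eq_zero {c d : ℝ} {s : unitInterval} (hc : 0 ≤ c) (h : (s : ℝ) ≤ d) : G c d s = 0 :=
  projIcc_of_le_left _ (by nlinarith)

theorem G_le {c d e : ℝ} (hc : 0 ≤ c) (he : 0 ≤ e) (h : c * (1 - d) ≤ e) (s : unitInterval) :
    (G c d s : ℝ) ≤ e := by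
  rw [coe_G]
  refine max_le he ((min_le_right _ _).trans ?_)
  have := s.2.2
  nlinarith

theorem G_lt {c d : ℝ} (h : ∀ s : ℝ, 0 < s → s ≤ 1 → c * (s - d) < s) (s : unitInterval)
    (hs : s ≠ 0) : G c d s < s := by
  have h0 : (0 : ℝ) < s := lt_of_le_of_ne s.2.1 (fun h => hs (Subtype.ext h.symm))
  change (G c d s : ℝ) < s
  rw [coe_G]
  exact max_lt h0 ((min_le_right _ _).trans_lt (h s h0 s.2.2))

/-- The fan in which the lower marked point is a limit of upper marked points. -/
noncomputable def D₁ : Data Tr where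
  P := up
  Q := fun b => up (up b)
  g₁ := G 1 (1 / 3)
  g₂ := G 1 (2 / 3)
  cont₁ := G_cont _ _
  cont₂ := G_cont _ _
  mono₁ := G_mono zero_le_one _
  mono₂ := G_mono zero_le_one _
  zero₁ := G_eq_zero zero_le_one (by norm_num)
  zero₂ := G_eq_zero zero_le_one (by norm_num)
  lt₁ := G_lt fun s _ _ => by linarith
  lt₂ := G_lt fun s _ _ => by linarith
  neP := fun b h => by have := congrArg Prod.fst h; simp only [up_level] at this; omega
  neQ := fun b h => by have := congrArg Prod.fst h; simp only [up_level] at this; omega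
  nePQ := fun b h => by have := congrArg Prod.fst h; simp only [up_level] at this; omega
  alt := Or.inr ⟨fun _ => rfl, fun s => by
    apply Subtype.ext
    have := s.2.1
    have := s.2.2
    simp only [coe_G, max_def, min_def]
    split_ifs <;> linarith⟩
  z21 := fun s => G_eq_zero zero_le_one (G_le zero_le_one (by norm_num) (by norm_num) s)
  z12 := fun s => G_eq_zero zero_le_one (G_le zero_le_one (by norm_num) (by norm_num) s)
  z22 := fun s => G_eq_zero zero_le_one (G_le zero_le_one (by norm_num) (by norm_num) s)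
  sep := fun b c h => by
    obtain ⟨v, hv⟩ := exists_desc_sep h
    refine sep_of_family hv (fun a ha => ⟨{v}, finite_singleton v, ?_, ?_⟩)
      (fun a ha => ⟨∅, finite_empty, ?_, ?_⟩)
    · rintro b hb rfl
      exact (up_mem_desc hb).resolve_right ha
    · rintro b hb rfl
      rcases up_mem_desc hb with h1 | h1
      · exact Or.inl h1
      · exact Or.inr ((up_mem_desc h1).resolve_right ha)
    · rintro b hb rfl
      exact absurd (mem_desc_of_up (not_not.1 ha)) hb
    · rintro b hb rfl
      exact absurd (mem_desc_of_up (mem_desc_of_up (not_not.1 ha))) hb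
  three := ⟨fun i => child (0, 0) i, (child_inj _).comp Fin.val_injective⟩

/-- The fan in which marked points accumulate only at the top. -/
noncomputable def D₀ : Data (Tr × Tr) where
  P := fun b => (up b.1, b.2)
  Q := fun b => (b.1, up b.2)
  g₁ := G 2 (2 / 3)
  g₂ := G 1 (2 / 3)
  cont₁ := G_cont _ _
  cont₂ := G_cont _ _
  mono₁ := G_mono zero_le_two _
  mono₂ := G_mono zero_le_one _
  zero₁ := G_eq_zero zero_le_two (by norm_num)
  zero₂ := G_eq_zero zero_le_one (by norm_num)
  lt₁ := G_lt fun s _ _ => by linarith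
  lt₂ := G_lt fun s _ _ => by linarith
  neP := fun b h => by
    have := congrArg (fun z : Tr × Tr => z.1.1) h; simp only [up_level] at this; omega
  neQ := fun b h => by
    have := congrArg (fun z : Tr × Tr => z.2.1) h; simp only [up_level] at this; omega
  nePQ := fun b h => by
    have := congrArg (fun z : Tr × Tr => z.1.1) h; simp only [up_level] at this; omega
  alt := Or.inl ⟨fun a c => (finite_singleton (c.1, a.2)).subset (by
      rintro b ⟨rfl, rfl⟩
      rfl),
    fun s => G_eq_zero zero_le_two (G_le zero_le_two (by norm_num) (by norm_num) s)⟩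
  z21 := fun s => G_eq_zero zero_le_one (G_le zero_le_two (by norm_num) (by norm_num) s)
  z12 := fun s => G_eq_zero zero_le_two (G_le zero_le_one (by norm_num) (by norm_num) s)
  z22 := fun s => G_eq_zero zero_le_one (G_le zero_le_one (by norm_num) (by norm_num) s)
  sep := fun b c h => by
    by_cases h1 : b.1 = c.1
    · have h2 : b.2 ≠ c.2 := fun h2 => h (Prod.ext h1 h2)
      obtain ⟨v, hv⟩ := exists_desc_sep h2
      refine sep_of_family (C := {z : Tr × Tr | z.2 ∈ desc v}) hv
        (fun a ha => ⟨{(a.1, v)}, finite_singleton _, ?_, ?_⟩)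
        (fun a ha => ⟨∅, finite_empty, ?_, ?_⟩)
      · rintro b hb rfl
        exact absurd hb ha
      · rintro b hb rfl
        exact Or.inl (Prod.ext rfl ((up_mem_desc hb).resolve_right ha))
      · rintro b hb rfl
        exact absurd hb ha
      · rintro b hb rfl
        exact absurd (mem_desc_of_up (not_not.1 ha)) hb
    · obtain ⟨v, hv⟩ := exists_desc_sep h1
      refine sep_of_family (C := {z : Tr × Tr | z.1 ∈ desc v}) hv
        (fun a ha => ⟨{(v, a.2)}, finite_singleton _, ?_, ?_⟩)
        (fun a ha => ⟨∅, finite_empty, ?_, ?_⟩)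
      · rintro b hb rfl
        exact Prod.ext ((up_mem_desc hb).resolve_right ha) rfl
      · rintro b hb rfl
        exact absurd hb ha
      · rintro b hb rfl
        exact absurd (mem_desc_of_up (not_not.1 ha)) hb
      · rintro b hb rfl
        exact absurd hb ha
  three := ⟨fun i => (child (0, 0) i, (0, 0)), fun i j h =>
    Fin.val_injective (child_inj _ (congrArg Prod.fst h))⟩

end Pool.Agent.Lib.MP_56c207_gt
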